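import Mathlib
import Pool.Graph.R_seed8.H808R2.AH.C
import Pool.Graph.R_seed8.H808R2.AH.D3
import Pool.Graph.R_seed8.H808R2.AH.J4
import Pool.Graph.R_seed8.Y773.SM.Ring

/-!
Signed measures on the configurations of the ring, given by the coefficients `c D` of the products of
the spins of the even sites.
-/

set_option autoImplicit false

namespace Pool.Agent.KS6_79.AH
open Pool.Agent.H808R2.AH Pool.Agent.H808R2.AH.EPat Pool.Agent.Y773.SM
open Finset Filter Topology MeasureTheory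

/-- the weights `wP s ∑_D c_D σ_D(s)` -/
noncomputable def tl {N : ℕ} [NeZero N] (c : Finset (ZMod N) → ℝ) (s : Fin N → Site N) : ℝ :=
  wP N s * ∑ D : Finset (ZMod N), c D * ∏ x ∈ D, sg s x

section
variable (N : ℕ) [NeZero N] {n : ℕ} (k : Fin n → ℤ)

theorem gen_tl (c : Finset (ZMod N) → ℝ) :
    ∑ s : Fin N → Site N, algebraMap ℂ (MvPowerSeries (Fin n) ℂ) (tl c s : ℂ) * ∏ j, hgen N k (s j) =
      algebraMap ℂ (MvPowerSeries (Fin n) ℂ) (1 / 2 ^ N) * (∑ D : Finset (ZMod N),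
        algebraMap ℝ (MvPowerSeries (Fin n) ℂ) (c D) *
        ((Qx N k).submatrix (fun x : {x // x ∈ D} => x.1) (fun x : {x // x ∈ D} => x.1)).det) *
        (Amat N k + Bmat N k).det := by
  have h1 : ∀ s : Fin N → Site N, algebraMap ℂ (MvPowerSeries (Fin n) ℂ) (tl c s : ℂ) * ∏ j, hgen N k (s j) =
      ∑ D : Finset (ZMod N), algebraMap ℝ (MvPowerSeries (Fin n) ℂ) (c D) *
        (algebraMap ℂ (MvPowerSeries (Fin n) ℂ) ((wP N s * ∏ x ∈ D, sg s x : ℝ) : ℂ) * ∏ j, hgen N k (s j)) := by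
    intro s
    have h2 : algebraMap ℂ (MvPowerSeries (Fin n) ℂ) (tl c s : ℂ) =
        ∑ D : Finset (ZMod N), algebraMap ℝ (MvPowerSeries (Fin n) ℂ) (c D) *
          algebraMap ℂ (MvPowerSeries (Fin n) ℂ) ((wP N s * ∏ x ∈ D, sg s x : ℝ) : ℂ) := by
      unfold tl
      rw [Finset.mul_sum, Complex.ofReal_sum, map_sum]
      refine Finset.sum_congr rfl fun D _ => ?_
      rw [IsScalarTower.algebraMap_apply ℝ ℂ (MvPowerSeries (Fin n) ℂ), ← map_mul]
      congr 1
      change _ = ((c D : ℝ) : ℂ) * _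
      rw [← Complex.ofReal_mul]
      congr 1
      ring
    rw [h2, Finset.sum_mul]
    refine Finset.sum_congr rfl fun D _ => ?_
    ring
  rw [Finset.sum_congr rfl fun s _ => h1 s, Finset.sum_comm, Finset.mul_sum, Finset.sum_mul]
  refine Finset.sum_congr rfl fun D _ => ?_
  rw [← Finset.mul_sum]
  have h3 := B_det N (hgen N k) D
  have h4 := det_D N k D
  have h5 : ∑ s : Fin N → Site N, algebraMap ℂ (MvPowerSeries (Fin n) ℂ) ((wP N s * ∏ x ∈ D, sg s x : ℝ) : ℂ) *
      ∏ j, hgen N k (s j) = algebraMap ℂ (MvPowerSeries (Fin n) ℂ) (1 / 2 ^ N) *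
      (((Qx N k).submatrix (fun x : {x // x ∈ D} => x.1) (fun x : {x // x ∈ D} => x.1)).det *
        (Amat N k + Bmat N k).det) := by
    rw [← h4]
    convert h3 using 4
  rw [h5]
  ring

end

/-- the expectations of low exponentials do not change -/
theorem orth_tl (N : ℕ) [NeZero N] (c : Finset (ZMod N) → ℝ) {n : ℕ} (k : Fin n → ℤ)
    (hg : Ordk k (2 * N) ((∑ D : Finset (ZMod N), algebraMap ℝ (MvPowerSeries (Fin n) ℂ) (c D) *
        ((Qx N k).submatrix (fun x : {x // x ∈ D} => x.1) (fun x : {x // x ∈ D} => x.1)).det) - 1))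
    (hk0 : ∑ i, k i = 0) (hk : ∑ i, |k i| < 2 * N) :
    ∑ s : Fin N → Site N, (tl c s : ℂ) * ∑ j : Fin n ↪ Fin N, ∏ i, ch N (k i) (s (j i)) =
      ∑ s : Fin N → Site N, (wP N s : ℂ) * ∑ j : Fin n ↪ Fin N, ∏ i, ch N (k i) (s (j i)) := by
  have _ := hk0
  set e1 : Fin n →₀ ℕ := ∑ i : Fin n, Finsupp.single i 1 with he1
  have hco : ∀ w : (Fin N → Site N) → ℝ, MvPowerSeries.coeff e1
      (∑ s : Fin N → Site N, algebraMap ℂ (MvPowerSeries (Fin n) ℂ) (w s : ℂ) * ∏ j, hgen N k (s j)) =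
      ∑ s : Fin N → Site N, (w s : ℂ) * ∑ j : Fin n ↪ Fin N, ∏ i, ch N (k i) (s (j i)) := by
    intro w
    rw [map_sum]
    refine Finset.sum_congr rfl fun s _ => ?_
    have h1 : algebraMap ℂ (MvPowerSeries (Fin n) ℂ) (w s : ℂ) * ∏ j, hgen N k (s j) =
        (w s : ℂ) • ∏ j, hgen N k (s j) := by
      rw [Algebra.smul_def]
    rw [h1, map_smul, smul_eq_mul]
    congr 1
    exact C7_coeff (fun i j => ch N (k i) (s j))
  rw [← hco, ← hco, gen_tl, gen_wP, ← sub_eq_zero, ← map_sub]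
  have h2 : algebraMap ℂ (MvPowerSeries (Fin n) ℂ) (1 / 2 ^ N) * (∑ D : Finset (ZMod N),
        algebraMap ℝ (MvPowerSeries (Fin n) ℂ) (c D) *
        ((Qx N k).submatrix (fun x : {x // x ∈ D} => x.1) (fun x : {x // x ∈ D} => x.1)).det) *
        (Amat N k + Bmat N k).det - algebraMap ℂ (MvPowerSeries (Fin n) ℂ) (1 / 2 ^ N) * (Amat N k + Bmat N k).det =
      (algebraMap ℂ (MvPowerSeries (Fin n) ℂ) (1 / 2 ^ N) * ((∑ D : Finset (ZMod N),
        algebraMap ℝ (MvPowerSeries (Fin n) ℂ) (c D) *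
        ((Qx N k).submatrix (fun x : {x // x ∈ D} => x.1) (fun x : {x // x ∈ D} => x.1)).det) - 1)) *
        (Amat N k + Bmat N k).det := by
    ring
  rw [h2]
  by_contra hne
  have h3 := (hg.mul_left (algebraMap ℂ (MvPowerSeries (Fin n) ℂ) (1 / 2 ^ N))).mul_right
    (Amat N k + Bmat N k).det e1 hne
  have h4 : ∑ i, |(k i : ℝ)| * (e1 i : ℝ) = ∑ i, |(k i : ℝ)| := by
    refine Finset.sum_congr rfl fun i _ => ?_
    have : e1 i = 1 := by
      rw [he1, Finsupp.finsetSum_apply, Finset.sum_eq_single i]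
      · simp
      · intro j _ hj
        simp [hj]
      · simp
    rw [this]
    simp
  rw [h4] at h3
  have h5 : ((∑ i, |k i| : ℤ) : ℝ) < 2 * N := by
    have := (Int.cast_lt (R := ℝ)).mpr hk
    push_cast at this ⊢
    exact this
  push_cast at h5
  linarith

/-- the total mass -/
theorem sum_tl (N : ℕ) [NeZero N] (c : Finset (ZMod N) → ℝ) (hc0 : c ∅ = 1) : ∑ s : Fin N → Site N, tl c s = 1 := by
  classical
  have h1 : ∀ s : Fin N → Site N, tl c s =
      ∑ D : Finset (ZMod N), c D * (wP N s * ∏ x ∈ D, sg s x) := by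
    intro s
    unfold tl
    rw [Finset.mul_sum]
    refine Finset.sum_congr rfl fun D _ => ?_
    ring
  rw [Finset.sum_congr rfl fun s _ => h1 s, Finset.sum_comm]
  have h2 : ∀ D : Finset (ZMod N), ∑ s : Fin N → Site N, c D * (wP N s * ∏ x ∈ D, sg s x) =
      c D * ∑ s : Fin N → Site N, (wP N s * ∏ x ∈ D, sg s x) := by
    intro D
    rw [Finset.mul_sum]
  rw [Finset.sum_congr rfl fun D _ => h2 D, Finset.sum_eq_single ∅]
  · rw [hc0, one_mul]
    simp only [Finset.prod_empty, mul_one]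
    exact A1_sum N
  · intro D _ hD
    rw [D3_mean_zero N D (Finset.nonempty_iff_ne_empty.2 hD), mul_zero]
  · intro h
    exact absurd (Finset.mem_univ _) h

/-- the averages of periodised test functions do not change -/
theorem J4_tl (N : ℕ) [NeZero N] (c : Finset (ZMod N) → ℝ)
    (hC : ∀ {n : ℕ} (k : Fin n → ℤ), ∑ i, k i = 0 → ∑ i, |k i| < 2 * N →
      ∑ s : Fin N → Site N, (tl c s : ℂ) * ∑ j : Fin n ↪ Fin N, ∏ i, ch N (k i) (s (j i)) =
        ∑ s : Fin N → Site N, (wP N s : ℂ) * ∑ j : Fin n ↪ Fin N, ∏ i, ch N (k i) (s (j i)))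
    {m : ℕ} {f : (Fin (m + 1) → ℝ) → ℝ} {F : (Fin m → ℝ) → ℂ} (h : TestPair f F)
    (hP : ∀ y : Fin m → ℝ, ∑' v : Fin m → ℤ, (f (Fin.cons 0 fun i => y i + (N : ℝ) * v i) : ℂ) =
      (1 / ((N : ℝ) : ℂ) ^ m) * ∑' k : Fin m → ℤ, F (fun i => k i / (N : ℝ)) *
        Complex.exp (2 * Real.pi * Complex.I * ∑ i, k i / (N : ℝ) * y i)) :
    ∑ s : Fin N → Site N, tl c s * ∑ j : Fin (m + 1) ↪ Fin N, perf f N (fun i => s (j i)) =
      ∑ s : Fin N → Site N, wP N s * ∑ j : Fin (m + 1) ↪ Fin N, perf f N (fun i => s (j i)) := by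
  have hN0 : (0 : ℝ) < N := by exact_mod_cast Nat.pos_of_ne_zero (NeZero.ne N)
  set K := Fintype.piFinset (fun _ : Fin m => Finset.Icc (-(2 * N : ℤ)) (2 * N)) with hK
  have key : ∀ w : (Fin N → Site N) → ℝ,
      ((∑ s : Fin N → Site N, w s * ∑ j : Fin (m + 1) ↪ Fin N, perf f N (fun i => s (j i)) : ℝ) : ℂ) =
      (1 / ((N : ℝ) : ℂ) ^ m) * ∑ k ∈ K, F (fun i => k i / (N : ℝ)) *
        ∑ s : Fin N → Site N, (w s : ℂ) * ∑ j : Fin (m + 1) ↪ Fin N, ∏ i, ch N (addK k i) (s (j i)) := by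
    intro w
    rw [Complex.ofReal_sum]
    simp only [Complex.ofReal_mul, Complex.ofReal_sum]
    rw [Finset.mul_sum]
    have h1 : ∀ s : Fin N → Site N, (w s : ℂ) * ∑ j : Fin (m + 1) ↪ Fin N, (perf f N (fun i => s (j i)) : ℂ) =
        ∑ k ∈ K, (1 / ((N : ℝ) : ℂ) ^ m) * (F (fun i => k i / (N : ℝ)) *
          ((w s : ℂ) * ∑ j : Fin (m + 1) ↪ Fin N, ∏ i, ch N (addK k i) (s (j i)))) := by
      intro s
      have h2 : ∀ j : Fin (m + 1) ↪ Fin N, (perf f N (fun i => s (j i)) : ℂ) =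
          ∑ k ∈ K, (1 / ((N : ℝ) : ℂ) ^ m) * (F (fun i => k i / (N : ℝ)) *
            ∏ i, ch N (addK k i) (s (j i))) := by
        intro j
        rw [perf_eq h N hP, ← hK, Finset.mul_sum]
      rw [Finset.sum_congr rfl fun j _ => h2 j, Finset.sum_comm, Finset.mul_sum]
      refine Finset.sum_congr rfl fun k _ => ?_
      rw [← Finset.mul_sum, ← Finset.mul_sum]
      ring
    rw [Finset.sum_congr rfl fun s _ => h1 s, Finset.sum_comm]
    refine Finset.sum_congr rfl fun k _ => ?_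
    rw [← Finset.mul_sum, ← Finset.mul_sum]
  apply Complex.ofReal_injective
  rw [key, key]
  congr 1
  refine Finset.sum_congr rfl fun k _ => ?_
  by_cases hF : F (fun i => k i / (N : ℝ)) = 0
  · rw [hF, zero_mul, zero_mul]
  · congr 1
    refine hC (addK k) ?_ ?_
    · rw [Fin.sum_univ_succ]
      simp [addK]
    · have h2 := h.supp _ hF
      have h3 : (((∑ i, |addK k i| : ℤ)) : ℝ) < 2 * N := by
        rw [Fin.sum_univ_succ]
        simp only [addK, Fin.cons_zero, Fin.cons_succ]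
        push_cast
        have h4 : |∑ i, (k i : ℝ) / N| = |∑ i, (k i : ℝ)| / N := by
          rw [← Finset.sum_div, abs_div, abs_of_pos hN0]
        have h5 : ∑ i, |(k i : ℝ) / N| = (∑ i, |(k i : ℝ)|) / N := by
          rw [Finset.sum_div]
          refine Finset.sum_congr rfl fun i _ => ?_
          rw [abs_div, abs_of_pos hN0]
        rw [h4, h5, ← add_div, div_lt_iff₀ hN0] at h2
        rw [abs_neg]
        exact h2
      exact_mod_cast h3

/-- the tilt does not change the correlations of fewer than `n` sites -/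
theorem inv_tl {N : ℕ} [NeZero N] {n : ℕ} (c : Finset (ZMod N) → ℝ) (hc0 : c ∅ = 1)
    (hcs : ∀ D, 1 ≤ #D → #D < n → c D = 0) (A O : Finset (ZMod N)) (h : #A + #O < n) :
    open Classical in
    ∑ s : Fin N → Site N, tl c s *
      (if (∀ x ∈ A, ∃ j, s j = (false, x)) ∧ (∀ z ∈ O, ∃ j, s j = (true, z)) then (1 : ℝ) else 0) =
    ∑ s : Fin N → Site N, wP N s *
      (if (∀ x ∈ A, ∃ j, s j = (false, x)) ∧ (∀ z ∈ O, ∃ j, s j = (true, z)) then (1 : ℝ) else 0) := by
  classical
  simp only [ind_prod]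
  have e1 : ∀ s : Fin N → Site N, tl c s * ((∏ x ∈ A, (1 + sg s x) / 2) * ∏ z ∈ O, occ s z) =
      ∑ D : Finset (ZMod N), c D * (wP N s * (∏ x ∈ D, sg s x) *
        ((∏ x ∈ A, (1 + sg s x) / 2) * ∏ z ∈ O, occ s z)) := by
    intro s
    unfold tl
    rw [Finset.mul_sum, Finset.sum_mul]
    exact Finset.sum_congr rfl fun D _ => by ring
  rw [Finset.sum_congr rfl fun s _ => e1 s, Finset.sum_comm]
  rw [Finset.sum_eq_single (∅ : Finset (ZMod N))]
  · rw [hc0]
    refine Finset.sum_congr rfl fun s _ => ?_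
    simp
  · intro D _ hD
    rw [← Finset.mul_sum]
    by_cases h5 : #D < n
    · rw [hcs D (Finset.card_pos.2 (Finset.nonempty_iff_ne_empty.2 hD)) h5, zero_mul]
    · rw [inner_zero D A O (by omega), mul_zero]
  · intro h
    exact absurd (Finset.mem_univ _) h

open Classical in
/-- the tilt does not change the probability that fewer than `n` given sites are occupied -/
theorem prob_tl (N : ℕ) [NeZero N] {n : ℕ} (c : Finset (ZMod N) → ℝ) (hc0 : c ∅ = 1)
    (hcs : ∀ D, 1 ≤ #D → #D < n → c D = 0) {r : ℕ} (hn : r < n) (p : Fin r → Site N) :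
    ∑ s : Fin N → Site N, tl c s * (if ∀ i, ∃ j, s j = p i then (1 : ℝ) else 0) =
      ∑ s : Fin N → Site N, wP N s * (if ∀ i, ∃ j, s j = p i then (1 : ℝ) else 0) := by
  obtain ⟨A, hA⟩ : ∃ A : Finset (ZMod N), A = (univ.filter fun i => (p i).1 = false).image fun i => (p i).2 :=
    ⟨_, rfl⟩
  obtain ⟨O, hO⟩ : ∃ O : Finset (ZMod N), O = (univ.filter fun i => (p i).1 = true).image fun i => (p i).2 :=
    ⟨_, rfl⟩
  have hcard : #A + #O < n := by
    have e1 : #A ≤ #(univ.filter fun i => (p i).1 = false) := by rw [hA]; exact Finset.card_image_le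
    have e2 : #O ≤ #(univ.filter fun i => (p i).1 = true) := by rw [hO]; exact Finset.card_image_le
    have e3 : #(univ.filter fun i => (p i).1 = false) + #(univ.filter fun i => (p i).1 = true) = r := by
      rw [← Finset.card_union_of_disjoint]
      · have : (univ.filter fun i => (p i).1 = false) ∪ (univ.filter fun i => (p i).1 = true) =
            (univ : Finset (Fin r)) := by
          ext i
          simp only [mem_union, mem_filter, mem_univ, true_and, iff_true]
          cases (p i).1 <;> simp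
        rw [this]; simp
      · rw [Finset.disjoint_filter]
        intro i _ h1 h2
        rw [h1] at h2
        exact absurd h2 (by decide)
    omega
  have hiff : ∀ s : Fin N → Site N, (∀ i, ∃ j, s j = p i) ↔
      (∀ x ∈ A, ∃ j, s j = (false, x)) ∧ (∀ z ∈ O, ∃ j, s j = (true, z)) := by
    intro s
    constructor
    · intro h
      constructor
      · intro x hx
        rw [hA, mem_image] at hx
        obtain ⟨i, hi, rfl⟩ := hx
        obtain ⟨j, hj⟩ := h i
        refine ⟨j, ?_⟩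
        rw [hj]
        exact Prod.ext (mem_filter.1 hi).2 rfl
      · intro x hx
        rw [hO, mem_image] at hx
        obtain ⟨i, hi, rfl⟩ := hx
        obtain ⟨j, hj⟩ := h i
        refine ⟨j, ?_⟩
        rw [hj]
        exact Prod.ext (mem_filter.1 hi).2 rfl
    · rintro ⟨h1, h2⟩ i
      rcases hb : (p i).1 with _ | _
      · obtain ⟨j, hj⟩ := h1 (p i).2 (by
          rw [hA, mem_image]
          exact ⟨i, mem_filter.2 ⟨mem_univ _, hb⟩, rfl⟩)
        refine ⟨j, ?_⟩
        rw [hj]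
        exact Prod.ext hb.symm rfl
      · obtain ⟨j, hj⟩ := h2 (p i).2 (by
          rw [hO, mem_image]
          exact ⟨i, mem_filter.2 ⟨mem_univ _, hb⟩, rfl⟩)
        refine ⟨j, ?_⟩
        rw [hj]
        exact Prod.ext hb.symm rfl
  have := inv_tl c hc0 hcs A O hcard
  calc _ = ∑ s : Fin N → Site N, tl c s *
      (if (∀ x ∈ A, ∃ j, s j = (false, x)) ∧ (∀ z ∈ O, ∃ j, s j = (true, z)) then (1 : ℝ) else 0) :=
        Finset.sum_congr rfl fun s _ => by rw [if_congr (hiff s) rfl rfl]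
    _ = _ := this
    _ = _ := Finset.sum_congr rfl fun s _ => by rw [if_congr (hiff s) rfl rfl]

/-- the expected ring count of fewer than `n` sites, for the tilted measure -/
theorem avg_tl (N : ℕ) [NeZero N] {n : ℕ} (c : Finset (ZMod N) → ℝ) (hc0 : c ∅ = 1)
    (hcs : ∀ D, 1 ≤ #D → #D < n → c D = 0) {k : ℕ} (hk : k < n) (u : Fin k → ℤ)
    (hu2 : ∀ i j, i ≠ j → u i ≠ u j ∧ |u i - u j| < 2 * N) (D : Finset ℤ)
    (hD : ∀ d, d ∈ D ↔ ∃ i, u i = d) :
    ((((1 / (N : ℝ)) * ∑ s : Fin N → Site N, tl c s * (rcnt N (ocOf s) D : ℝ) : ℝ)) : ℂ) =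
      2 * (Matrix.of fun i j : Fin k => ker N (site N (u i)) (site N (u j))).det := by
  classical
  have hall : ∀ (s : Fin N → Site N) (t : ℤ), (∀ d ∈ D, ∃ j, s j = site N (t + d)) ↔
      ∀ i, ∃ j, s j = site N (u i + t) := by
    intro s t
    constructor
    · intro h i
      rw [add_comm]
      exact h _ ((hD _).2 ⟨i, rfl⟩)
    · intro h d hd
      obtain ⟨i, rfl⟩ := (hD d).1 hd
      rw [add_comm]
      exact h i
  have h1 : ((∑ s : Fin N → Site N, tl c s * (rcnt N (ocOf s) D : ℝ) : ℝ) : ℂ) =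
      ∑ _t ∈ range (2 * N), (Matrix.of fun i j : Fin k => ker N (site N (u i)) (site N (u j))).det := by
    have e1 : ∑ s : Fin N → Site N, tl c s * (rcnt N (ocOf s) D : ℝ) =
        ∑ t ∈ range (2 * N), ∑ s : Fin N → Site N, wP N s *
          (if ∀ i, ∃ j, s j = site N (u i + (t : ℤ)) then (1 : ℝ) else 0) := by
      simp only [rcnt_sum, Finset.mul_sum]
      rw [Finset.sum_comm]
      refine Finset.sum_congr rfl fun t _ => ?_
      rw [← prob_tl N c hc0 hcs hk (fun i => site N (u i + (t : ℤ)))]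
      refine Finset.sum_congr rfl fun s _ => ?_
      rw [if_congr (hall s t) rfl rfl]
    rw [e1]
    push_cast
    refine Finset.sum_congr rfl fun t _ => ?_
    rw [← prob_base N u hu2 (t : ℤ)]
    refine Finset.sum_congr rfl fun s _ => ?_
    congr 1
    split_ifs <;> simp
  have hN0 : (N : ℂ) ≠ 0 := by exact_mod_cast (NeZero.ne N)
  rw [Complex.ofReal_mul, h1, Finset.sum_const, Finset.card_range]
  simp only [nsmul_eq_mul]
  push_cast
  field_simp


end Pool.Agent.KS6_79.AH
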