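import Mathlib
import Pool.Agent.KS6_79.AH.G1
import Pool.Graph.R_seed8.H808R2.AH.D2

/-!
The tilt by an `n`-body interaction.
-/

set_option autoImplicit false
set_option linter.unusedSectionVars false

namespace Pool.Agent.KS6_79.AH
open Pool.Agent.H808R2.AH
open Finset MvPolynomial

section gen

variable {α : Type*} [DecidableEq α]

/-- the induction -/
theorem ind_n (n : ℕ) (hn : 1 ≤ n) (w c σ : Finset α → ℝ) (h0 : c ∅ = 1) (hσ0 : σ ∅ = 1)
    (hσ : ∀ D B, B ⊆ D → σ D = σ B * σ (D \ B)) (hσ1 : ∀ D, |σ D| = 1)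
    (hrec : ∀ D, ∀ x ∈ D, c D = ∑ B ∈ (D.powersetCard n).filter (fun B => x ∈ B),
      w B * c (D \ B))
    (hw : ∀ (Λ : Finset α), ∀ x ∈ Λ,
      ∑ B ∈ (Λ.powersetCard n).filter (fun B => x ∈ B), |w B| ≤ 1 / 2 ^ n)
    (Λ : Finset α) :
    0 < ∑ D ∈ Λ.powerset, c D * σ D ∧ ∀ x ∈ Λ,
      ∑ D ∈ (Λ.erase x).powerset, c D * σ D ≤ 2 * ∑ D ∈ Λ.powerset, c D * σ D := by
  set Z : Finset α → ℝ := fun Λ => ∑ D ∈ Λ.powerset, c D * σ D with hZ
  change 0 < Z Λ ∧ ∀ x ∈ Λ, Z (Λ.erase x) ≤ 2 * Z Λ
  induction Λ using Finset.strongInduction with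
  | H Λ ih =>
    have hdec : ∀ x ∈ Λ, Z Λ = Z (Λ.erase x) +
        ∑ B ∈ (Λ.powersetCard n).filter (fun B => x ∈ B), w B * σ B * Z (Λ \ B) := by
      intro x hx
      have h1 : Z Λ = ∑ D ∈ Λ.powerset.filter (fun D => ¬ x ∈ D), c D * σ D +
          ∑ D ∈ Λ.powerset.filter (fun D => x ∈ D), c D * σ D := by
        rw [add_comm]
        exact (Finset.sum_filter_add_sum_filter_not _ _ _).symm
      rw [h1]
      congr 1
      · refine Finset.sum_congr ?_ fun _ _ => rfl
        ext D
        rw [mem_filter, mem_powerset, mem_powerset, subset_erase]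
      · have h2 : ∀ D ∈ Λ.powerset.filter (fun D => x ∈ D), c D * σ D =
            ∑ B ∈ (D.powersetCard n).filter (fun B => x ∈ B),
              w B * σ B * (c (D \ B) * σ (D \ B)) := by
          intro D hD
          rw [mem_filter] at hD
          rw [hrec D x hD.2, Finset.sum_mul]
          refine Finset.sum_congr rfl fun B hB => ?_
          rw [mem_filter, mem_powersetCard] at hB
          rw [hσ D B hB.1.1]
          ring
        rw [Finset.sum_congr rfl h2]
        rw [Finset.sum_comm' (s' := fun B => Λ.powerset.filter (fun D => B ⊆ D))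
          (t' := (Λ.powersetCard n).filter (fun B => x ∈ B))]
        · refine Finset.sum_congr rfl fun B hB => ?_
          rw [mem_filter, mem_powersetCard] at hB
          rw [← Finset.mul_sum]
          congr 1
          refine Finset.sum_bij' (fun D _ => D \ B) (fun E _ => E ∪ B) ?_ ?_ ?_ ?_ ?_
          · intro D hD
            rw [mem_filter, mem_powerset] at hD
            rw [mem_powerset]
            exact sdiff_subset_sdiff hD.1 (subset_refl B)
          · intro E hE
            rw [mem_powerset] at hE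
            rw [mem_filter, mem_powerset]
            exact ⟨union_subset (hE.trans sdiff_subset) hB.1.1, subset_union_right⟩
          · intro D hD
            rw [mem_filter, mem_powerset] at hD
            exact sdiff_union_of_subset hD.2
          · intro E hE
            rw [mem_powerset] at hE
            ext y
            simp only [mem_sdiff, mem_union]
            constructor
            · rintro ⟨h3 | h3, h4⟩
              · exact h3
              · exact absurd h3 h4
            · intro h3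
              exact ⟨Or.inl h3, (mem_sdiff.1 (hE h3)).2⟩
          · intro D _
            rfl
        · intro D B
          simp only [mem_filter, mem_powerset, mem_powersetCard]
          constructor
          · rintro ⟨⟨h3, h4⟩, ⟨h5, h6⟩, h7⟩
            exact ⟨⟨h3, h5⟩, ⟨h5.trans h3, h6⟩, h7⟩
          · rintro ⟨⟨h3, h4⟩, ⟨h5, h6⟩, h7⟩
            exact ⟨⟨h3, h4 h7⟩, ⟨h4, h6⟩, h7⟩
    have hrem : ∀ Λ' ⊂ Λ, ∀ C ⊆ Λ', 0 < Z Λ' ∧ 0 < Z (Λ' \ C) ∧ Z (Λ' \ C) ≤ 2 ^ #C * Z Λ' := by
      intro Λ' hΛ' C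
      induction C using Finset.induction_on with
      | empty =>
        intro _
        have := (ih Λ' hΛ').1
        simp [this]
      | insert y C hy ihC =>
        intro hC
        have hC1 : C ⊆ Λ' := (subset_insert y C).trans hC
        obtain ⟨h1, h2, h3⟩ := ihC hC1
        have hy' : y ∈ Λ' \ C := mem_sdiff.2 ⟨hC (mem_insert_self y C), hy⟩
        have hss : Λ' \ C ⊂ Λ := lt_of_le_of_lt (show Λ' \ C ≤ Λ' from sdiff_subset) hΛ'
        have e1 : Λ' \ insert y C = (Λ' \ C).erase y := by
          ext z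
          simp only [mem_sdiff, mem_insert, mem_erase]
          tauto
        have hss2 : (Λ' \ C).erase y ⊂ Λ := lt_of_le_of_lt
          (show (Λ' \ C).erase y ≤ Λ' \ C from erase_subset _ _) hss
        rw [e1]
        refine ⟨h1, (ih _ hss2).1, ?_⟩
        rw [card_insert_of_notMem hy, pow_succ]
        have h4 := (ih _ hss).2 y hy'
        linarith
    rcases Λ.eq_empty_or_nonempty with rfl | ⟨x₀, hx₀⟩
    · refine ⟨?_, fun x hx => absurd hx (notMem_empty x)⟩
      simp [hZ, h0, hσ0]
    · have hmain : ∀ x ∈ Λ, 0 < Z (Λ.erase x) ∧ Z (Λ.erase x) ≤ 2 * Z Λ := by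
        intro x hx
        have hss : Λ.erase x ⊂ Λ := erase_ssubset hx
        have hpos : 0 < Z (Λ.erase x) := (ih _ hss).1
        refine ⟨hpos, ?_⟩
        have hb : |∑ B ∈ (Λ.powersetCard n).filter (fun B => x ∈ B), w B * σ B * Z (Λ \ B)| ≤
            (1 / 2 ^ n) * (2 ^ (n - 1) * Z (Λ.erase x)) := by
          refine (Finset.abs_sum_le_sum_abs _ _).trans ?_
          calc ∑ B ∈ (Λ.powersetCard n).filter (fun B => x ∈ B), |w B * σ B * Z (Λ \ B)|
              ≤ ∑ B ∈ (Λ.powersetCard n).filter (fun B => x ∈ B),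
                  |w B| * (2 ^ (n - 1) * Z (Λ.erase x)) := by
                refine Finset.sum_le_sum fun B hB => ?_
                rw [mem_filter, mem_powersetCard] at hB
                have e1 : Λ \ B = Λ.erase x \ B.erase x := by
                  ext z
                  simp only [mem_sdiff, mem_erase]
                  constructor
                  · rintro ⟨h3, h4⟩
                    exact ⟨⟨fun h => h4 (h ▸ hB.2), h3⟩, fun h => h4 h.2⟩
                  · rintro ⟨⟨h3, h4⟩, h5⟩
                    exact ⟨h4, fun h => h5 ⟨h3, h⟩⟩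
                obtain ⟨-, h3, h4⟩ := hrem _ hss (B.erase x) (erase_subset_erase x hB.1.1)
                rw [card_erase_of_mem hB.2, hB.1.2, ← e1] at h4
                rw [← e1] at h3
                rw [abs_mul, abs_mul, hσ1, mul_one, abs_of_pos h3]
                refine mul_le_mul_of_nonneg_left ?_ (abs_nonneg _)
                exact h4
            _ = (∑ B ∈ (Λ.powersetCard n).filter (fun B => x ∈ B), |w B|) *
                  (2 ^ (n - 1) * Z (Λ.erase x)) := by rw [Finset.sum_mul]
            _ ≤ _ := mul_le_mul_of_nonneg_right (hw Λ x hx) (by positivity)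
        rw [hdec x hx]
        have h7 : (1 / 2 ^ n : ℝ) * (2 ^ (n - 1) * Z (Λ.erase x)) = Z (Λ.erase x) / 2 := by
          obtain ⟨m, rfl⟩ : ∃ m, n = m + 1 := ⟨n - 1, by omega⟩
          rw [Nat.add_sub_cancel, pow_succ]
          have : (2 : ℝ) ^ m ≠ 0 := by positivity
          field_simp
        have := (abs_le.1 hb).1
        linarith
      refine ⟨?_, fun x hx => (hmain x hx).2⟩
      have h1 := hmain x₀ hx₀
      linarith [h1.1, h1.2]

end gen

section coef

variable {α : Type*} [Fintype α] [DecidableEq α]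

theorem sum_single_iff {ι : Type*} [Fintype ι] (x : ι → α) (B : Finset α) :
    (∑ a, Finsupp.single (x a) 1 : α →₀ ℕ) = d1_ind B ↔ Function.Injective x ∧ univ.image x = B := by
  classical
  constructor
  · intro h
    have h1 : ∀ y, ∑ a, (if x a = y then 1 else 0 : ℕ) = if y ∈ B then 1 else 0 := by
      intro y
      have h2 := DFunLike.congr_fun h y
      rw [d1_ind_apply, Finsupp.finsetSum_apply] at h2
      rw [← h2]
      refine Finset.sum_congr rfl fun a _ => ?_
      rw [Finsupp.single_apply]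
    constructor
    · intro a b hab
      by_contra hne
      have h3 := h1 (x a)
      have h4 : ∑ i ∈ ({a, b} : Finset ι), (if x i = x a then 1 else 0 : ℕ) ≤
          ∑ i, (if x i = x a then 1 else 0 : ℕ) :=
        Finset.sum_le_sum_of_subset (Finset.subset_univ _)
      rw [Finset.sum_pair hne, if_pos rfl, if_pos hab.symm, h3] at h4
      split_ifs at h4 <;> omega
    · ext y
      have h3 := h1 y
      rw [mem_image]
      constructor
      · rintro ⟨a, -, rfl⟩
        by_contra hB
        rw [if_neg hB, Finset.sum_eq_zero_iff] at h3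
        have := h3 a (mem_univ a)
        simp at this
      · intro hB
        by_contra hne
        push Not at hne
        rw [if_pos hB, Finset.sum_eq_zero] at h3
        · exact absurd h3 (by norm_num)
        · intro a _
          exact if_neg (hne a (mem_univ a))
  · rintro ⟨h1, rfl⟩
    unfold d1_ind
    rw [Finset.sum_image fun a _ b _ h => h1 h]

theorem coeff_prod_X {ι : Type*} [Fintype ι] (x : ι → α) (B : Finset α) : open Classical in
    coeff (d1_ind B) (∏ a, X (x a) : MvPolynomial α ℝ) =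
      if Function.Injective x ∧ univ.image x = B then 1 else 0 := by
  classical
  have hX : (∏ a, X (x a) : MvPolynomial α ℝ) = monomial (∑ a, Finsupp.single (x a) 1) 1 := by
    rw [monomial_sum_one]
    rfl
  rw [hX, coeff_monomial]
  exact if_congr (sum_single_iff x B) rfl rfl

theorem prod_L {n : ℕ} (a : Fin n → α → ℝ) : ∏ i, d1_L (a i) =
    ∑ x : Fin n → α, C (∏ i, a i (x i)) * ∏ i, X (x i) := by
  unfold d1_L
  rw [Finset.prod_univ_sum, Fintype.piFinset_univ]
  refine Finset.sum_congr rfl fun x _ => ?_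
  rw [Finset.prod_mul_distrib, map_prod]

end coef

section main

variable (N : ℕ) [NeZero N] {n : ℕ} (ε : ℝ) (g : Fin n → ZMod N → ℝ)

/-- the interaction `ε ∑_t ∏_i (∑_x g_i(x-t) X_x)` -/
noncomputable def Ps : MvPolynomial (ZMod N) ℝ := ∑ t : ZMod N, C ε * ∏ i, d1_L (fun x => g i (x - t))

/-- its exponential, truncated -/
noncomputable def Ep : MvPolynomial (ZMod N) ℝ :=
  ∑ m ∈ range (N + 1), C (1 / (m.factorial : ℝ)) * Ps N ε g ^ m

/-- the multilinear coefficients of the exponential -/
noncomputable def cf (D : Finset (ZMod N)) : ℝ := coeff (d1_ind D) (Ep N ε g)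

/-- the multilinear coefficients of the interaction -/
noncomputable def wt (D : Finset (ZMod N)) : ℝ := coeff (d1_ind D) (Ps N ε g)

theorem wt_eq (B : Finset (ZMod N)) : open Classical in wt N ε g B =
    ε * ∑ t : ZMod N, ∑ x : Fin n → ZMod N, (∏ i, g i (x i - t)) *
      if Function.Injective x ∧ univ.image x = B then 1 else 0 := by
  classical
  unfold wt Ps
  rw [coeff_sum, Finset.mul_sum]
  refine Finset.sum_congr rfl fun t _ => ?_
  rw [coeff_C_mul, prod_L, coeff_sum]
  congr 1
  refine Finset.sum_congr rfl fun x _ => ?_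
  rw [coeff_C_mul, coeff_prod_X]

theorem Ps_hom : (Ps N ε g).IsHomogeneous n := by
  unfold Ps
  refine IsHomogeneous.sum _ _ _ fun t _ => ?_
  have h1 : (∏ i, d1_L (fun x => g i (x - t))).IsHomogeneous (∑ _i : Fin n, 1) := by
    refine IsHomogeneous.prod _ _ _ fun i _ => ?_
    unfold d1_L
    refine IsHomogeneous.sum _ _ _ fun x _ => ?_
    exact isHomogeneous_C_mul_X _ _
  have h2 := (isHomogeneous_C (ZMod N) ε).mul h1
  simpa using h2

theorem Ps_const (hn : 1 ≤ n) : constantCoeff (Ps N ε g) = 0 := by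
  rw [constantCoeff_eq]
  refine (Ps_hom N ε g).coeff_eq_zero ?_
  simp
  omega

theorem wt_zero {B : Finset (ZMod N)} (h : #B ≠ n) : wt N ε g B = 0 := by
  refine (Ps_hom N ε g).coeff_eq_zero ?_
  rw [d1_ind_degree]
  exact h

theorem cf_empty (hn : 1 ≤ n) : cf N ε g ∅ = 1 := by
  unfold cf
  rw [d1_ind_empty, ← constantCoeff_eq]
  unfold Ep
  rw [map_sum, Finset.sum_range_succ', Finset.sum_eq_zero]
  · simp
  · intro m _
    rw [map_mul, map_pow, Ps_const N ε g hn]
    simp

theorem pderiv_Ep (x : ZMod N) : pderiv x (Ep N ε g) =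
    (Ep N ε g - C (1 / (N.factorial : ℝ)) * Ps N ε g ^ N) * pderiv x (Ps N ε g) := by
  have h1 : Ep N ε g - C (1 / (N.factorial : ℝ)) * Ps N ε g ^ N =
      ∑ m ∈ range N, C (1 / (m.factorial : ℝ)) * Ps N ε g ^ m := by
    unfold Ep
    rw [Finset.sum_range_succ]
    ring
  rw [h1]
  unfold Ep
  rw [map_sum, Finset.sum_range_succ', Finset.sum_mul]
  have h2 : pderiv x (C (1 / ((0 : ℕ).factorial : ℝ)) * Ps N ε g ^ 0) = 0 := by
    rw [pow_zero, mul_one, pderiv_C]
  rw [h2, add_zero]
  refine Finset.sum_congr rfl fun m _ => ?_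
  rw [Derivation.leibniz, pderiv_C, smul_zero, add_zero, pderiv_pow, smul_eq_mul]
  have h3 : (C (1 / ((m + 1).factorial : ℝ)) : MvPolynomial (ZMod N) ℝ) * ((m + 1 : ℕ) :
      MvPolynomial (ZMod N) ℝ) = C (1 / (m.factorial : ℝ)) := by
    rw [← map_natCast C, ← C_mul]
    congr 1
    rw [Nat.factorial_succ]
    push_cast
    have : (m.factorial : ℝ) ≠ 0 := by positivity
    field_simp
  rw [Nat.add_sub_cancel, ← h3]
  ring

theorem cf_rec (hn : 2 ≤ n) (D : Finset (ZMod N)) (x : ZMod N) (hx : x ∈ D) :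
    cf N ε g D = ∑ B ∈ (D.powersetCard n).filter (fun B => x ∈ B), wt N ε g B * cf N ε g (D \ B) := by
  have hN : 0 < N := Nat.pos_of_ne_zero (NeZero.ne N)
  have h0 : cf N ε g D = coeff (d1_ind D) (Ep N ε g) := rfl
  rw [h0, d1_coeff_pderiv _ hx, pderiv_Ep, d1_coeff_mul]
  have h1 : ∀ A ∈ (D.erase x).powerset,
      coeff (d1_ind A) (Ep N ε g - C (1 / (N.factorial : ℝ)) * Ps N ε g ^ N) *
        coeff (d1_ind (D.erase x \ A)) (pderiv x (Ps N ε g)) =
      if #(D \ A) = n then wt N ε g (D \ A) * cf N ε g A else 0 := by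
    intro A hA
    rw [mem_powerset] at hA
    have hxA : x ∉ A := fun h => (notMem_erase x D) (hA h)
    have hxD : x ∈ D \ A := mem_sdiff.2 ⟨hx, hxA⟩
    have e1 : D.erase x \ A = (D \ A).erase x := by
      ext y
      simp only [mem_sdiff, mem_erase]
      tauto
    rw [e1, ← d1_coeff_pderiv _ hxD]
    have e2 : coeff (d1_ind A) (Ps N ε g ^ N) = 0 := by
      refine ((Ps_hom N ε g).pow N).coeff_eq_zero ?_
      rw [d1_ind_degree]
      have := card_le_univ A
      rw [ZMod.card] at this
      have h2 : 2 * N ≤ n * N := Nat.mul_le_mul_right _ hn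
      omega
    rw [coeff_sub, coeff_C_mul, e2, mul_zero, sub_zero]
    by_cases h : #(D \ A) = n
    · rw [if_pos h]
      exact mul_comm _ _
    · rw [if_neg h]
      have := wt_zero N ε g h
      unfold wt at this
      rw [this, mul_zero]
  rw [Finset.sum_congr rfl h1, ← Finset.sum_filter]
  refine Finset.sum_bij' (fun A _ => D \ A) (fun B _ => D \ B) ?_ ?_ ?_ ?_ ?_
  · intro A hA
    rw [mem_filter, mem_powerset] at hA
    rw [mem_filter, mem_powersetCard]
    exact ⟨⟨sdiff_subset, hA.2⟩, mem_sdiff.2 ⟨hx, fun h => (notMem_erase x D) (hA.1 h)⟩⟩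
  · intro B hB
    rw [mem_filter, mem_powersetCard] at hB
    rw [mem_filter, mem_powerset, Finset.sdiff_sdiff_eq_self hB.1.1]
    refine ⟨fun y hy => ?_, hB.1.2⟩
    rw [mem_sdiff] at hy
    rw [mem_erase]
    refine ⟨?_, hy.1⟩
    rintro rfl
    exact hy.2 hB.2
  · intro A hA
    rw [mem_filter, mem_powerset] at hA
    exact Finset.sdiff_sdiff_eq_self (hA.1.trans (erase_subset x D))
  · intro B hB
    rw [mem_filter, mem_powersetCard] at hB
    exact Finset.sdiff_sdiff_eq_self hB.1.1
  · intro A hA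
    rw [mem_filter, mem_powerset] at hA
    rw [Finset.sdiff_sdiff_eq_self (hA.1.trans (erase_subset x D))]

theorem cf_small (hn : 2 ≤ n) (D : Finset (ZMod N)) (h1 : 1 ≤ #D) (h5 : #D < n) : cf N ε g D = 0 := by
  obtain ⟨x, hx⟩ := card_pos.1 h1
  rw [cf_rec N ε g hn D x hx, powersetCard_eq_empty.2 (by omega)]
  simp

theorem cf_top (hn : 2 ≤ n) (D : Finset (ZMod N)) (h6 : #D = n) : cf N ε g D = wt N ε g D := by
  obtain ⟨x, hx⟩ := card_pos.1 (show 0 < #D by omega)
  rw [cf_rec N ε g hn D x hx]
  have h : (D.powersetCard n).filter (fun B => x ∈ B) = {D} := by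
    rw [← h6, powersetCard_self]
    ext B
    simp only [mem_filter, mem_singleton]
    constructor
    · exact fun h => h.1
    · rintro rfl
      exact ⟨rfl, hx⟩
  rw [h, sum_singleton, sdiff_self]
  have : cf N ε g ∅ = 1 := cf_empty N ε g (by omega)
  rw [show (⊥ : Finset (ZMod N)) = ∅ from rfl, this, mul_one]

theorem wt_bound (C0 : ℝ) (hC0 : 0 ≤ C0) (hg : ∀ i, ∑ x, |g i x| ≤ C0) (Λ : Finset (ZMod N)) (x0 : ZMod N) :
    ∑ B ∈ (Λ.powersetCard n).filter (fun B => x0 ∈ B), |wt N ε g B| ≤ |ε| * (n * C0 ^ n) := by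
  classical
  have h1 : ∀ B ∈ (Λ.powersetCard n).filter (fun B => x0 ∈ B), |wt N ε g B| ≤
      |ε| * ∑ t : ZMod N, ∑ x : Fin n → ZMod N, (∏ i, |g i (x i - t)|) *
        (if univ.image x = B then if x0 ∈ univ.image x then 1 else 0 else 0) := by
    intro B hB
    rw [mem_filter] at hB
    rw [wt_eq, abs_mul]
    refine mul_le_mul_of_nonneg_left ?_ (abs_nonneg _)
    refine (Finset.abs_sum_le_sum_abs _ _).trans (Finset.sum_le_sum fun t _ => ?_)
    refine (Finset.abs_sum_le_sum_abs _ _).trans (Finset.sum_le_sum fun x _ => ?_)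
    rw [abs_mul, abs_prod]
    refine mul_le_mul_of_nonneg_left ?_ (prod_nonneg fun i _ => abs_nonneg _)
    by_cases hx : Function.Injective x ∧ univ.image x = B
    · rw [if_pos hx, if_pos hx.2, if_pos (by rw [hx.2]; exact hB.2)]
      simp
    · rw [if_neg hx]
      split_ifs <;> simp
  refine (Finset.sum_le_sum h1).trans ?_
  rw [← Finset.mul_sum]
  refine mul_le_mul_of_nonneg_left ?_ (abs_nonneg _)
  rw [Finset.sum_comm]
  have h2 : ∀ t : ZMod N, ∑ B ∈ (Λ.powersetCard n).filter (fun B => x0 ∈ B), ∑ x : Fin n → ZMod N,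
      (∏ i, |g i (x i - t)|) * (if univ.image x = B then if x0 ∈ univ.image x then 1 else 0 else 0) ≤
      ∑ i0 : Fin n, |g i0 (x0 - t)| * C0 ^ (n - 1) := by
    intro t
    rw [Finset.sum_comm]
    have h3 : ∀ x : Fin n → ZMod N, ∑ B ∈ (Λ.powersetCard n).filter (fun B => x0 ∈ B),
        (∏ i, |g i (x i - t)|) * (if univ.image x = B then if x0 ∈ univ.image x then 1 else 0 else 0) ≤
        ∑ i0 : Fin n, ∏ i, ((if i = i0 then if x i = x0 then 1 else 0 else 1) * |g i (x i - t)|) := by
      intro x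
      rw [← Finset.mul_sum]
      have h4 : ∑ B ∈ (Λ.powersetCard n).filter (fun B => x0 ∈ B),
          (if univ.image x = B then if x0 ∈ univ.image x then (1 : ℝ) else 0 else 0) ≤
          if x0 ∈ univ.image x then 1 else 0 := by
        rw [Finset.sum_ite_eq]
        split_ifs <;> simp
      refine (mul_le_mul_of_nonneg_left h4 (prod_nonneg fun i _ => abs_nonneg _)).trans ?_
      by_cases hx : x0 ∈ univ.image x
      · rw [if_pos hx, mul_one]
        obtain ⟨i0, -, hi0⟩ := mem_image.1 hx
        have h5 : ∏ i, |g i (x i - t)| = ∏ i, ((if i = i0 then if x i = x0 then 1 else 0 else 1) *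
            |g i (x i - t)|) := by
          refine Finset.prod_congr rfl fun i _ => ?_
          by_cases hi : i = i0
          · rw [if_pos hi, if_pos (by rw [hi, hi0]), one_mul]
          · rw [if_neg hi, one_mul]
        rw [h5]
        refine Finset.single_le_sum (f := fun i0 => ∏ i, ((if i = i0 then if x i = x0 then (1 : ℝ) else 0 else 1) *
            |g i (x i - t)|)) (fun i _ => prod_nonneg fun j _ => ?_) (mem_univ i0)
        refine mul_nonneg ?_ (abs_nonneg _)
        split_ifs <;> norm_num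
      · rw [if_neg hx, mul_zero]
        refine Finset.sum_nonneg fun i _ => prod_nonneg fun j _ => ?_
        refine mul_nonneg ?_ (abs_nonneg _)
        split_ifs <;> norm_num
    refine (Finset.sum_le_sum fun x _ => h3 x).trans ?_
    rw [Finset.sum_comm]
    refine Finset.sum_le_sum fun i0 _ => ?_
    have h6 : ∑ x : Fin n → ZMod N, ∏ i, ((if i = i0 then if x i = x0 then 1 else 0 else 1) * |g i (x i - t)|) =
        ∏ i, ∑ y : ZMod N, ((if i = i0 then if y = x0 then 1 else 0 else 1) * |g i (y - t)|) := by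
      rw [Finset.prod_univ_sum, Fintype.piFinset_univ]
    rw [h6, ← Finset.mul_prod_erase univ _ (mem_univ i0)]
    have h7 : ∑ y : ZMod N, ((if i0 = i0 then if y = x0 then (1 : ℝ) else 0 else 1) * |g i0 (y - t)|) =
        |g i0 (x0 - t)| := by
      simp
    rw [h7]
    refine mul_le_mul_of_nonneg_left ?_ (abs_nonneg _)
    have h8 : #(univ.erase i0) = n - 1 := by
      rw [card_erase_of_mem (mem_univ i0), card_univ, Fintype.card_fin]
    rw [← h8, ← Finset.prod_const]
    refine Finset.prod_le_prod (fun i _ => Finset.sum_nonneg fun y _ => ?_) fun i hi => ?_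
    · refine mul_nonneg ?_ (abs_nonneg _)
      split_ifs <;> norm_num
    · rw [mem_erase] at hi
      have h9 : ∑ y : ZMod N, ((if i = i0 then if y = x0 then (1 : ℝ) else 0 else 1) * |g i (y - t)|) =
          ∑ y, |g i y| := by
        simp only [if_neg hi.1, one_mul]
        exact Equiv.sum_comp (Equiv.subRight t) (fun y => |g i y|)
      rw [h9]
      exact hg i
  refine (Finset.sum_le_sum fun t _ => h2 t).trans ?_
  rw [Finset.sum_comm]
  have h10 : ∀ i0 : Fin n, ∑ t : ZMod N, |g i0 (x0 - t)| * C0 ^ (n - 1) ≤ C0 ^ n := by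
    intro i0
    rw [← Finset.sum_mul]
    have e1 : ∑ t : ZMod N, |g i0 (x0 - t)| = ∑ y, |g i0 y| :=
      Equiv.sum_comp (Equiv.subLeft x0) (fun y => |g i0 y|)
    rw [e1]
    have hpos : 0 < n := i0.pos
    obtain ⟨m, hm⟩ : ∃ m, n = m + 1 := ⟨n - 1, by omega⟩
    calc (∑ y, |g i0 y|) * C0 ^ (n - 1) ≤ C0 * C0 ^ (n - 1) :=
          mul_le_mul_of_nonneg_right (hg i0) (pow_nonneg hC0 _)
      _ = C0 ^ n := by rw [hm, Nat.add_sub_cancel, pow_succ]; ring
  refine (Finset.sum_le_sum fun i _ => h10 i).trans ?_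
  rw [sum_const, card_univ, Fintype.card_fin, nsmul_eq_mul]

theorem cf_nonneg (hn : 2 ≤ n) (C0 : ℝ) (hC0 : 0 ≤ C0) (hg : ∀ i, ∑ x, |g i x| ≤ C0)
    (h : |ε| * (n * C0 ^ n) ≤ 1 / 2 ^ n) (σ : ZMod N → ℝ) (hσ : ∀ x, σ x = 1 ∨ σ x = -1) :
    0 ≤ ∑ D : Finset (ZMod N), cf N ε g D * ∏ x ∈ D, σ x := by
  have key := ind_n n (by omega) (wt N ε g) (fun D => cf N ε g D)
    (fun D => ∏ x ∈ D, σ x) (cf_empty N ε g (by omega)) (by simp)
    (fun D B hB => by rw [mul_comm, prod_sdiff hB])
    (fun D => by
      rw [abs_prod]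
      refine prod_eq_one fun x _ => ?_
      rcases hσ x with h | h <;> rw [h] <;> simp)
    (fun D x hx => cf_rec N ε g hn D x hx)
    (fun Λ x hx => (wt_bound N ε g C0 hC0 hg Λ x).trans h)
    univ
  rw [powerset_univ] at key
  exact key.1.le

end main

end Pool.Agent.KS6_79.AH
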