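import Mathlib
import Pool.Agent.KS6_79.AH.G2
import Pool.Graph.R_seed8.H808R2.AH.Hpoi

/-!
The tilt by an `n`-body interaction of high frequency does not change the expectations of low
exponentials.
-/

set_option autoImplicit false

namespace Pool.Agent.KS6_79.AH
open Pool.Agent.H808R2.AH Pool.Agent.H808R2.AH.C5aux
open Finset

section
variable {N : ℕ} [NeZero N] {n : ℕ}

theorem Ps_pow (ε : ℝ) (g : Fin n → ZMod N → ℝ) (m : ℕ) :
    Ps N ε g ^ m = MvPolynomial.C (ε ^ m) * ∑ t : Fin m → ZMod N,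
      ∑ x : Fin m × Fin n → ZMod N, MvPolynomial.C (∏ a, g a.2 (x a - t a.1)) *
        ∏ a, MvPolynomial.X (x a) := by
  unfold Ps
  rw [← Finset.mul_sum, mul_pow, ← map_pow, Fintype.sum_pow]
  congr 1
  refine Finset.sum_congr rfl fun t _ => ?_
  have h1 : (∏ i : Fin m, ∏ j : Fin n, d1_L (fun x => g j (x - t i)) : MvPolynomial (ZMod N) ℝ) =
      ∏ a : Fin m × Fin n, ∑ x : ZMod N, MvPolynomial.C (g a.2 (x - t a.1)) * MvPolynomial.X x := by
    rw [Fintype.prod_prod_type]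
    rfl
  rw [h1, Finset.prod_univ_sum, Fintype.piFinset_univ]
  refine Finset.sum_congr rfl fun x _ => ?_
  rw [Finset.prod_mul_distrib, map_prod]

theorem lin_cf (ε : ℝ) (g : Fin n → ZMod N → ℝ) {R : Type*} [CommRing R] [Algebra ℝ R]
    (Q : Matrix (ZMod N) (ZMod N) R) :
    ∑ D : Finset (ZMod N), algebraMap ℝ R (cf N ε g D) *
        (Q.submatrix (fun x : {x // x ∈ D} => x.1) (fun x : {x // x ∈ D} => x.1)).det =
      ∑ m ∈ range (N + 1), algebraMap ℝ R (1 / (m.factorial : ℝ) * ε ^ m) *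
        ∑ t : Fin m → ZMod N, ∑ x : Fin m × Fin n → ZMod N,
          algebraMap ℝ R (∏ a, g a.2 (x a - t a.1)) * (Matrix.of fun a b => Q (x a) (x b)).det := by
  change lam Q (Ep N ε g) = _
  unfold Ep
  rw [lam_sum]
  refine Finset.sum_congr rfl fun m _ => ?_
  rw [lam_C_mul, Ps_pow, lam_C_mul, ← mul_assoc, ← map_mul, lam_sum]
  congr 1
  refine Finset.sum_congr rfl fun t _ => ?_
  rw [lam_sum]
  refine Finset.sum_congr rfl fun x _ => ?_
  rw [lam_C_mul, lam_prod_X]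

/-- the main estimate: the tilt changes generating functions only in order `≥ 2N` -/
theorem ord_cf (hn : 6 ≤ n) (ε : ℝ) (g : Fin n → ZMod N → ℝ) (hg : ∀ i, FarSupp N (g i)) {r : ℕ}
    (k : Fin r → ℤ) :
    Ordk k (2 * N) ((∑ D : Finset (ZMod N), algebraMap ℝ (MvPowerSeries (Fin r) ℂ) (cf N ε g D) *
        ((Qx N k).submatrix (fun x : {x // x ∈ D} => x.1) (fun x : {x // x ∈ D} => x.1)).det) - 1) := by
  rw [lin_cf, Finset.sum_range_succ']
  have h0 : algebraMap ℝ (MvPowerSeries (Fin r) ℂ) (1 / (Nat.factorial 0 : ℝ) * ε ^ 0) *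
        ∑ t : Fin 0 → ZMod N, ∑ x : Fin 0 × Fin n → ZMod N,
          algebraMap ℝ (MvPowerSeries (Fin r) ℂ) (∏ a, g a.2 (x a - t a.1)) *
            (Matrix.of fun a b => Qx N k (x a) (x b)).det = 1 := by
    simp
  rw [h0, add_sub_cancel_right]
  refine Ordk.sum _ fun m _ => ?_
  refine Ordk.mul_left _ (Ordk.sum _ fun t _ => ?_)
  have h1 := C6_far N k (Pm N k * (Sm N k)⁻¹) (Q_ord (dm N) (Pm N k) (Sm N k) (Pm_ord N k) (Sm_ord N k))
    (Qx N k) (Qx_apply N k) (ι := Fin (m + 1) × Fin n) (fun a x => g a.2 (x - t a.1)) (fun a => (hg a.2).shift _)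
  refine Ordk.mono ?_ (show (2 * (N : ℝ)) ≤ (Fintype.card (Fin (m + 1) × Fin n) : ℝ) * (N : ℝ) / 3 by
    rw [Fintype.card_prod, Fintype.card_fin, Fintype.card_fin]
    push_cast
    have h1 : (0 : ℝ) ≤ N := by positivity
    have h2 : (0 : ℝ) ≤ m := by positivity
    have h3 : (6 : ℝ) ≤ n := by exact_mod_cast hn
    have h4 : (6 : ℝ) ≤ ((m : ℝ) + 1) * n := by nlinarith
    nlinarith)
  convert h1 using 1
  refine Finset.sum_congr rfl fun x _ => ?_
  congr 1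
  rw [← Complex.ofReal_prod]
  exact IsScalarTower.algebraMap_apply ℝ ℂ (MvPowerSeries (Fin r) ℂ) _

end

section
variable (N : ℕ) [NeZero N] {n : ℕ}

/-- the tilted weights are nonnegative -/
theorem tl_nonneg (hn : 2 ≤ n) (ε : ℝ) (g : Fin n → ZMod N → ℝ) (C0 : ℝ) (hC0 : 0 ≤ C0)
    (hg : ∀ i, ∑ x, |g i x| ≤ C0) (h : |ε| * (n * C0 ^ n) ≤ 1 / 2 ^ n) (s : Fin N → Site N) :
    0 ≤ tl (cf N ε g) s := by
  unfold tl
  refine mul_nonneg (A1_nonneg N s) (cf_nonneg N ε g hn C0 hC0 hg h (sg s) fun x => ?_)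
  unfold sg
  split_ifs
  · exact Or.inl rfl
  · exact Or.inr rfl

/-- the averages of periodised test functions are those of the base measure -/
theorem perf_cf (hn : 6 ≤ n) (ε : ℝ) (g : Fin n → ZMod N → ℝ) (hg : ∀ i, FarSupp N (g i)) {m : ℕ}
    {f : (Fin (m + 1) → ℝ) → ℝ} {F : (Fin m → ℝ) → ℂ} (h : TestPair f F) :
    ∑ s : Fin N → Site N, tl (cf N ε g) s * ∑ j : Fin (m + 1) ↪ Fin N, perf f N (fun i => s (j i)) =
      ∑ s : Fin N → Site N, wP N s * ∑ j : Fin (m + 1) ↪ Fin N, perf f N (fun i => s (j i)) :=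
  J4_tl N (cf N ε g) (fun k h0 h1 => orth_tl N (cf N ε g) k (ord_cf hn ε g hg k) h0 h1) h
    (fun y => H_poisson h (N : ℝ) (by exact_mod_cast Nat.pos_of_ne_zero (NeZero.ne N)) y)

end

end Pool.Agent.KS6_79.AH
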