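import Mathlib
import Pool.Agent.KS6_79.AH.G3

/-!
The change of the probability that `n` given sites are occupied.
-/

set_option autoImplicit false

namespace Pool.Agent.KS6_79.AH
open Pool.Agent.H808R2.AH Pool.Agent.H808R2.AH.EPat Pool.Agent.Y773.SM
open Finset

section
variable {N : ℕ} [NeZero N]

theorem hZ : HZero N := fun _ _ hmn y hy z hz => E1_zero N hmn y hy z hz

theorem hE : HEq N := fun _ y hy z hz => E1_eq N y hy z hz

/-- the contribution of a set `D` of the critical size -/
theorem inner_top (D A O : Finset (ZMod N)) (h : #D = #A + #O) :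
    ∑ s : Fin N → Site N, wP N s * (∏ x ∈ D, sg s x) *
      ((∏ x ∈ A, (1 + sg s x) / 2) * ∏ z ∈ O, occ s z) =
      if A ⊆ D then (1 / 2) ^ #A * EE (D \ A) O else 0 := by
  classical
  have hexp : ∀ s : Fin N → Site N, wP N s * (∏ x ∈ D, sg s x) *
      ((∏ x ∈ A, (1 + sg s x) / 2) * ∏ z ∈ O, occ s z) =
      ∑ A' ∈ A.powerset, (1 / 2) ^ #A * (wP N s * (∏ x ∈ symmDiff D A', sg s x) * ∏ z ∈ O, occ s z) := by
    intro s
    have e1 : ∏ x ∈ A, (1 + sg s x) / 2 = (1 / 2) ^ #A * ∑ A' ∈ A.powerset, ∏ x ∈ A', sg s x := by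
      have e2 : ∏ x ∈ A, (1 + sg s x) / 2 = ∏ x ∈ A, (1 / 2 * (sg s x + 1)) :=
        Finset.prod_congr rfl fun x _ => by ring
      rw [e2, Finset.prod_mul_distrib, Finset.prod_const, Finset.prod_add]
      simp
    rw [e1, Finset.mul_sum, Finset.sum_mul, Finset.mul_sum]
    refine Finset.sum_congr rfl fun A' _ => ?_
    rw [← prod_symmDiff s D A']
    ring
  rw [Finset.sum_congr rfl fun s _ => hexp s, Finset.sum_comm]
  have hz : ∀ A' ∈ A.powerset, A' ≠ A ∨ ¬ A ⊆ D → ∑ s : Fin N → Site N,
      (1 / 2) ^ #A * (wP N s * (∏ x ∈ symmDiff D A', sg s x) * ∏ z ∈ O, occ s z) = 0 := by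
    intro A' hA' hor
    rw [← Finset.mul_sum]
    have hcard : #O < #(symmDiff D A') := by
      rw [card_symm]
      have e1 : #A' ≤ #A := Finset.card_le_card (Finset.mem_powerset.1 hA')
      have e2 : #D ≤ #(D \ A') + #A' := by
        have := Finset.card_le_card_sdiff_add_card (s := D) (t := A')
        omega
      rcases hor with h1 | h1
      · have e3 : #A' < #A := Finset.card_lt_card
          (lt_of_le_of_ne (Finset.mem_powerset.1 hA') h1)
        omega
      · by_cases h2 : A' = A
        · have e3 : 0 < #(A' \ D) := by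
            rw [Finset.card_pos, h2]
            by_contra h3
            rw [Finset.not_nonempty_iff_eq_empty, Finset.sdiff_eq_empty_iff_subset] at h3
            exact h1 h3
          omega
        · have e3 : #A' < #A := Finset.card_lt_card
            (lt_of_le_of_ne (Finset.mem_powerset.1 hA') h2)
          omega
    have := EE_zero hZ hcard
    unfold EE at this
    rw [this, mul_zero]
  by_cases hAD : A ⊆ D
  · rw [if_pos hAD, Finset.sum_eq_single A]
    · rw [← Finset.mul_sum]
      have : symmDiff D A = D \ A := by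
        rw [symmDiff_def, Finset.sdiff_eq_empty_iff_subset.2 hAD]
        simp
      rw [this]
      rfl
    · intro A' h1 h2
      exact hz A' h1 (Or.inl h2)
    · intro h1
      exact absurd (Finset.mem_powerset_self A) h1
  · rw [if_neg hAD]
    exact Finset.sum_eq_zero fun A' h1 => hz A' h1 (Or.inr hAD)

open Classical in
/-- the response of the event to the tilt -/
noncomputable def Om {n : ℕ} (A O : Finset (ZMod N)) (x : Fin n → ZMod N) : ℝ :=
  if Function.Injective x ∧ A ⊆ univ.image x then EE (univ.image x \ A) O else 0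

theorem resp {n : ℕ} (hn : 2 ≤ n) (ε : ℝ) (g : Fin n → ZMod N → ℝ) (A O : Finset (ZMod N))
    (h : #A + #O = n) : open Classical in
    ∑ s : Fin N → Site N, tl (cf N ε g) s *
      (if (∀ x ∈ A, ∃ j, s j = (false, x)) ∧ (∀ z ∈ O, ∃ j, s j = (true, z)) then (1 : ℝ) else 0) =
    ∑ s : Fin N → Site N, wP N s *
      (if (∀ x ∈ A, ∃ j, s j = (false, x)) ∧ (∀ z ∈ O, ∃ j, s j = (true, z)) then (1 : ℝ) else 0) +
    ε * ((1 / 2) ^ #A * ∑ t : ZMod N, ∑ x : Fin n → ZMod N, (∏ i, g i (x i - t)) * Om A O x) := by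
  classical
  simp only [ind_prod]
  have e1 : ∀ s : Fin N → Site N, tl (cf N ε g) s * ((∏ x ∈ A, (1 + sg s x) / 2) * ∏ z ∈ O, occ s z) =
      ∑ D : Finset (ZMod N), cf N ε g D * (wP N s * (∏ x ∈ D, sg s x) *
        ((∏ x ∈ A, (1 + sg s x) / 2) * ∏ z ∈ O, occ s z)) := by
    intro s
    unfold tl
    rw [Finset.mul_sum, Finset.sum_mul]
    exact Finset.sum_congr rfl fun D _ => by ring
  rw [Finset.sum_congr rfl fun s _ => e1 s, Finset.sum_comm]
  have e2 : ∀ D : Finset (ZMod N), ∑ s : Fin N → Site N, cf N ε g D * (wP N s * (∏ x ∈ D, sg s x) *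
        ((∏ x ∈ A, (1 + sg s x) / 2) * ∏ z ∈ O, occ s z)) =
      (if D = ∅ then ∑ s : Fin N → Site N, wP N s * ((∏ x ∈ A, (1 + sg s x) / 2) * ∏ z ∈ O, occ s z) else 0) +
      wt N ε g D * (if #D = n ∧ A ⊆ D then (1 / 2) ^ #A * EE (D \ A) O else 0) := by
    intro D
    rw [← Finset.mul_sum]
    by_cases hD : D = ∅
    · subst hD
      rw [if_pos rfl, cf_empty N ε g (by omega), if_neg, mul_zero, add_zero, one_mul]
      · refine Finset.sum_congr rfl fun s _ => ?_
        simp
      · rintro ⟨h1, -⟩
        simp at h1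
        omega
    · rw [if_neg hD, zero_add]
      rcases lt_trichotomy #D n with h5 | h5 | h5
      · rw [cf_small N ε g hn D (Finset.card_pos.2 (Finset.nonempty_iff_ne_empty.2 hD)) h5, zero_mul,
          if_neg (fun h => by omega), mul_zero]
      · rw [cf_top N ε g hn D h5, inner_top D A O (by omega)]
        by_cases hA : A ⊆ D
        · rw [if_pos hA, if_pos ⟨h5, hA⟩]
        · rw [if_neg hA, if_neg (fun h => hA h.2)]
      · rw [inner_zero D A O (by omega), mul_zero, if_neg (fun h => by omega), mul_zero]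
  rw [Finset.sum_congr rfl fun D _ => e2 D, Finset.sum_add_distrib]
  congr 1
  · rw [Finset.sum_ite_eq' univ ∅]
    simp
  · have e3 : ∀ D : Finset (ZMod N), wt N ε g D * (if #D = n ∧ A ⊆ D then (1 / 2) ^ #A * EE (D \ A) O else 0) =
        ε * ∑ t : ZMod N, ∑ x : Fin n → ZMod N, (∏ i, g i (x i - t)) *
          (if univ.image x = D then (1 / 2) ^ #A * Om A O x else 0) := by
      intro D
      rw [wt_eq, mul_assoc]
      congr 1
      rw [Finset.sum_mul]
      refine Finset.sum_congr rfl fun t _ => ?_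
      rw [Finset.sum_mul]
      refine Finset.sum_congr rfl fun x _ => ?_
      rw [mul_assoc]
      congr 1
      unfold Om
      by_cases hx : univ.image x = D
      · by_cases hinj : Function.Injective x
        · have hc : #D = n := by
            rw [← hx, Finset.card_image_of_injective _ hinj, card_univ, Fintype.card_fin]
          rw [if_pos ⟨hinj, hx⟩, if_pos hx, hx]
          by_cases hA : A ⊆ D
          · rw [if_pos ⟨hc, hA⟩, if_pos ⟨hinj, hA⟩, one_mul]
          · rw [if_neg (fun h => hA h.2), if_neg (fun h => hA h.2), mul_zero, mul_zero]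
        · simp [hinj]
      · rw [if_neg (fun h => hx h.2), if_neg hx, zero_mul]
    rw [Finset.sum_congr rfl fun D _ => e3 D, ← Finset.mul_sum]
    congr 1
    rw [Finset.sum_comm, Finset.mul_sum]
    refine Finset.sum_congr rfl fun t _ => ?_
    rw [Finset.sum_comm, Finset.mul_sum]
    refine Finset.sum_congr rfl fun x _ => ?_
    rw [← Finset.mul_sum, Finset.sum_ite_eq univ]
    simp only [mem_univ, if_true]
    ring

end

end Pool.Agent.KS6_79.AH
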