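import Mathlib
import Pool.Agent.KS6_79.AH.G4

/-!
The response as a multilinear form: reduction to determinants.
-/

set_option autoImplicit false

namespace Pool.Agent.KS6_79.AH
open Pool.Agent.H808R2.AH Pool.Agent.H808R2.AH.EPat Pool.Agent.Y773.SM
open Finset

section
variable {N : ℕ} [NeZero N] {p q n : ℕ}

/-- the bijections with prescribed values on the left summand -/
theorem torsor (β0 : Fin p ⊕ Fin q ≃ Fin n) (F : (Fin p ⊕ Fin q ≃ Fin n) → ℂ) : open Classical in
    ∑ β : Fin p ⊕ Fin q ≃ Fin n, (if ∀ i, β (Sum.inl i) = β0 (Sum.inl i) then F β else 0) =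
      ∑ σ : Equiv.Perm (Fin q), F ((Equiv.sumCongr (Equiv.refl (Fin p)) σ).trans β0) := by
  classical
  rw [← Finset.sum_filter]
  symm
  refine Finset.sum_bij (fun σ _ => (Equiv.sumCongr (Equiv.refl (Fin p)) σ).trans β0) ?_ ?_ ?_ ?_
  · intro σ _
    rw [mem_filter]
    exact ⟨mem_univ _, fun i => by simp⟩
  · intro σ _ τ _ h
    ext j
    have h1 := DFunLike.congr_fun h (Sum.inr j)
    simp only [Equiv.trans_apply, Equiv.sumCongr_apply, Sum.map_inr] at h1
    have h2 := β0.injective h1
    exact congrArg Fin.val (Sum.inr_injective h2)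
  · intro β hβ
    rw [mem_filter] at hβ
    have h1 : ∀ i, (β.trans β0.symm) (Sum.inl i) = Sum.inl i := by
      intro i
      rw [Equiv.trans_apply, hβ.2 i, Equiv.symm_apply_apply]
    obtain ⟨⟨σ1, σ2⟩, h2⟩ := Equiv.Perm.mem_sumCongrHom_range_of_perm_mapsTo_inl (σ := β.trans β0.symm) (by
      rintro _ ⟨i, rfl⟩
      exact ⟨i, (h1 i).symm⟩)
    refine ⟨σ2, mem_univ _, ?_⟩
    have h3 : ∀ s, (β.trans β0.symm) s = Sum.map σ1 σ2 s := by
      intro s
      rw [← h2]
      rfl
    ext s
    congr 1
    rw [Equiv.trans_apply]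
    have h4 : Equiv.sumCongr (Equiv.refl (Fin p)) σ2 s = (β.trans β0.symm) s := by
      rcases s with i | j
      · rw [h1]
        rfl
      · rw [h3]
        rfl
    rw [h4]
    simp
  · intro σ _
    rfl

/-- the summand of a bijection -/
noncomputable def Tm (a : Fin p → ZMod N) (b : Fin q → ZMod N) (x : Fin n → ZMod N)
    (β : Fin p ⊕ Fin q ≃ Fin n) : ℂ :=
  open Classical in
  (if ∀ i, x (β (Sum.inl i)) = a i then
    (Matrix.of fun j' j : Fin q => (starRingEnd ℂ) (Umat N (x (β (Sum.inr j))) (b j'))).det *
      ∏ j, ((if x (β (Sum.inr j)) ∈ univ.image a then 0 else 1) * Umat N (x (β (Sum.inr j))) (b j)) else 0)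

theorem Om_eq (hpq : p + q = n) (a : Fin p → ZMod N) (ha : Function.Injective a) (b : Fin q → ZMod N)
    (hb : Function.Injective b) (x : Fin n → ZMod N) :
    (Om (univ.image a) (univ.image b) x : ℂ) = (-1 / 2) ^ q * ∑ β : Fin p ⊕ Fin q ≃ Fin n, Tm a b x β := by
  classical
  by_cases hx : Function.Injective x ∧ univ.image a ⊆ univ.image x
  · have hOm : Om (univ.image a) (univ.image b) x = EE (univ.image x \ univ.image a) (univ.image b) := by
      unfold Om
      rw [if_pos (by convert hx)]
    obtain ⟨hx1, hx2⟩ := hx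
    -- a bijection adapted to `x`
    have hex : ∀ i, ∃ e, x e = a i := by
      intro i
      obtain ⟨e, -, he⟩ := mem_image.1 (hx2 (mem_image_of_mem a (mem_univ i)))
      exact ⟨e, he⟩
    choose e he using hex
    have heinj : Function.Injective e := fun i j h => ha (by rw [← he i, ← he j, h])
    have hcard : Fintype.card (Fin q) = Fintype.card {i : Fin n // i ∉ univ.image e} := by
      rw [Fintype.card_fin, Fintype.card_subtype_compl]
      simp only [Fintype.card_fin, Fintype.card_coe]
      rw [Finset.card_image_of_injective _ heinj, card_univ, Fintype.card_fin]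
      omega
    obtain ⟨f⟩ : Nonempty (Fin q ≃ {i : Fin n // i ∉ univ.image e}) := ⟨Fintype.equivOfCardEq hcard⟩
    obtain ⟨β0, hβl, hβr⟩ : ∃ β0 : Fin p ⊕ Fin q ≃ Fin n, (∀ i, β0 (Sum.inl i) = e i) ∧
        ∀ j, β0 (Sum.inr j) = (f j : Fin n) := by
      refine ⟨Equiv.ofBijective (Sum.elim e fun j => (f j : Fin n)) ?_, fun i => rfl, fun j => rfl⟩
      rw [Fintype.bijective_iff_injective_and_card]
      constructor
      · refine Function.Injective.sumElim heinj (fun i j h => f.injective (Subtype.ext h)) fun i j h => ?_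
        exact (f j).2 (h ▸ mem_image_of_mem e (mem_univ i))
      · simp [hpq]
    set y : Fin q → ZMod N := fun j => x (β0 (Sum.inr j)) with hy
    have hyinj : Function.Injective y := by
      intro i j h
      exact Sum.inr_injective (β0.injective (hx1 h))
    have hya : ∀ j, y j ∉ univ.image a := by
      intro j hj
      obtain ⟨i, -, hi⟩ := mem_image.1 hj
      rw [← he i, ← hβl i] at hi
      have := β0.injective (hx1 hi)
      simp at this
    have himg : univ.image x \ univ.image a = univ.image y := by
      ext w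
      simp only [mem_sdiff, mem_image, mem_univ, true_and]
      constructor
      · rintro ⟨⟨i, rfl⟩, h2⟩
        obtain ⟨s, rfl⟩ := β0.surjective i
        rcases s with i | j
        · exact absurd ⟨i, by rw [hβl, he]⟩ h2
        · exact ⟨j, rfl⟩
      · rintro ⟨j, rfl⟩
        exact ⟨⟨_, rfl⟩, fun h => hya j (by simpa using h)⟩
    rw [hOm, himg, EE_image hE y b hyinj hb]
    push_cast
    congr 1
    have h1 : ∀ β : Fin p ⊕ Fin q ≃ Fin n, Tm a b x β =
        if ∀ i, β (Sum.inl i) = β0 (Sum.inl i) then Tm a b x β else 0 := by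
      intro β
      by_cases h : ∀ i, β (Sum.inl i) = β0 (Sum.inl i)
      · rw [if_pos h]
      · rw [if_neg h]
        unfold Tm
        rw [if_neg]
        intro h2
        apply h
        intro i
        apply hx1
        rw [h2 i, hβl, he]
    rw [Finset.sum_congr rfl fun β _ => h1 β, torsor β0]
    have h2 : ∀ σ : Equiv.Perm (Fin q), Tm a b x ((Equiv.sumCongr (Equiv.refl (Fin p)) σ).trans β0) =
        (starRingEnd ℂ) (Matrix.of fun i j : Fin q => Umat N (y i) (b j)).det *
          (((Equiv.Perm.sign σ : ℤ) : ℂ) * ∏ j, Umat N (y (σ j)) (b j)) := by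
      intro σ
      unfold Tm
      rw [if_pos (fun i => by
        show x (β0 (Sum.inl i)) = a i
        rw [hβl, he])]
      have e1 : (Matrix.of fun j' j : Fin q => (starRingEnd ℂ)
          (Umat N (x (((Equiv.sumCongr (Equiv.refl (Fin p)) σ).trans β0) (Sum.inr j))) (b j'))).det =
          ((Equiv.Perm.sign σ : ℤ) : ℂ) * (starRingEnd ℂ) (Matrix.of fun i j : Fin q => Umat N (y i) (b j)).det := by
        have e2 : (Matrix.of fun j' j : Fin q => (starRingEnd ℂ)
          (Umat N (x (((Equiv.sumCongr (Equiv.refl (Fin p)) σ).trans β0) (Sum.inr j))) (b j'))) =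
          ((Matrix.of fun j' j : Fin q => (starRingEnd ℂ) (Umat N (y j) (b j'))).submatrix id σ) := rfl
        rw [e2, Matrix.det_permute']
        congr 1
        rw [← Matrix.det_transpose, RingHom.map_det]
        rfl
      rw [e1]
      have e3 : ∀ j, (if x (((Equiv.sumCongr (Equiv.refl (Fin p)) σ).trans β0) (Sum.inr j)) ∈ univ.image a
          then (0 : ℂ) else 1) = 1 := fun j => if_neg (hya (σ j))
      have e4 : ∏ j, ((if x (((Equiv.sumCongr (Equiv.refl (Fin p)) σ).trans β0) (Sum.inr j)) ∈ univ.image a
          then (0 : ℂ) else 1) * Umat N (x (((Equiv.sumCongr (Equiv.refl (Fin p)) σ).trans β0) (Sum.inr j))) (b j)) =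
          ∏ j, Umat N (y (σ j)) (b j) := by
        refine Finset.prod_congr rfl fun j _ => ?_
        rw [e3 j, one_mul]
        rfl
      rw [e4]
      ring
    rw [Finset.sum_congr rfl fun σ _ => h2 σ, ← Finset.mul_sum]
    have h3 : ∑ σ : Equiv.Perm (Fin q), ((Equiv.Perm.sign σ : ℤ) : ℂ) * ∏ j, Umat N (y (σ j)) (b j) =
        (Matrix.of fun i j : Fin q => Umat N (y i) (b j)).det := by
      rw [Matrix.det_apply']
      rfl
    rw [h3, mul_comm, Complex.mul_conj, Complex.normSq_eq_norm_sq]
    push_cast
    rfl
  · have hOm : Om (univ.image a) (univ.image b) x = 0 := by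
      unfold Om
      rw [if_neg (by convert hx)]
    rw [hOm, Finset.sum_eq_zero, mul_zero, Complex.ofReal_zero]
    intro β _
    unfold Tm
    split_ifs with h
    · have hsub : univ.image a ⊆ univ.image x := by
        intro w hw
        obtain ⟨i, -, rfl⟩ := mem_image.1 hw
        rw [← h i]
        exact mem_image_of_mem x (mem_univ _)
      have hninj : ¬ Function.Injective x := fun hinj => hx ⟨hinj, hsub⟩
      have hninj2 : ¬ Function.Injective (fun s => x (β s)) := fun hinj => hninj (by
        intro i j hij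
        have := @hinj (β.symm i) (β.symm j) (by simpa using hij)
        exact β.symm.injective this)
      rw [Function.Injective] at hninj2
      push Not at hninj2
      obtain ⟨s, s', hss, hne⟩ := hninj2
      have hzero : ∀ i j, x (β (Sum.inl i)) = x (β (Sum.inr j)) →
          ∏ j, ((if x (β (Sum.inr j)) ∈ univ.image a then (0 : ℂ) else 1) *
            Umat N (x (β (Sum.inr j))) (b j)) = 0 := by
        intro i j hij
        refine Finset.prod_eq_zero (mem_univ j) ?_
        rw [if_pos (by
          rw [← hij, h i]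
          exact mem_image_of_mem a (mem_univ i)), zero_mul]
      rcases s with i | j <;> rcases s' with i' | j'
      · exfalso
        apply hne
        rw [h i, h i'] at hss
        rw [ha hss]
      · rw [hzero i j' hss, mul_zero]
      · rw [hzero i' j hss.symm, mul_zero]
      · rw [Matrix.det_zero_of_column_eq (i := j) (j := j') (fun h => hne (by rw [h])), zero_mul]
        intro k
        simp only [Matrix.of_apply]
        rw [hss]
    · rfl

end

end Pool.Agent.KS6_79.AH
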