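import Mathlib
import Pool.Agent.KS6_79.AH.G5

/-!
The response to a product of exponentials.
-/

set_option autoImplicit false

namespace Pool.Agent.KS6_79.AH
open Pool.Agent.H808R2.AH Pool.Agent.H808R2.AH.EPat Pool.Agent.Y773.SM
open Finset

section
variable {N : ℕ} [NeZero N] {p q n : ℕ}

open Classical in
/-- the entries of the determinants -/
noncomputable def Vm (a : Fin p → ZMod N) (z : ZMod N → ℂ) (u v : ZMod N) : ℂ :=
  ∑ y : ZMod N, (starRingEnd ℂ) (Umat N y u) * ((if y ∈ univ.image a then 0 else 1) * Umat N y v * z y)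

/-- the reduced form of the response -/
noncomputable def RS (a : Fin p → ZMod N) (b : Fin q → ZMod N) (z : Fin n → ZMod N → ℂ) : ℂ :=
  ∑ β : Fin p ⊕ Fin q ≃ Fin n, (∏ i, z (β (Sum.inl i)) (a i)) *
    (Matrix.of fun j' j : Fin q => Vm a (z (β (Sum.inr j))) (b j') (b j)).det

theorem sum_Tm (a : Fin p → ZMod N) (b : Fin q → ZMod N) (z : Fin n → ZMod N → ℂ) :
    ∑ x : Fin n → ZMod N, (∏ i, z i (x i)) * ∑ β : Fin p ⊕ Fin q ≃ Fin n, Tm a b x β = RS a b z := by
  classical
  unfold RS
  simp only [Finset.mul_sum]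
  rw [Finset.sum_comm]
  refine Finset.sum_congr rfl fun β _ => ?_
  -- reindex by the values on the two summands
  have h1 : ∑ x : Fin n → ZMod N, (∏ i, z i (x i)) * Tm a b x β =
      ∑ w : Fin p ⊕ Fin q → ZMod N, (∏ s, z (β s) (w s)) * Tm a b (fun i => w (β.symm i)) β := by
    refine Fintype.sum_equiv (Equiv.arrowCongr β.symm (Equiv.refl (ZMod N))) _ _ fun x => ?_
    have e1 : (Equiv.arrowCongr β.symm (Equiv.refl (ZMod N))) x = fun s => x (β s) := by
      funext s
      rfl
    rw [e1]
    simp only [Equiv.apply_symm_apply]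
    congr 1
    exact (Equiv.prod_comp β (fun i => z i (x i))).symm
  have h2 : ∑ w : Fin p ⊕ Fin q → ZMod N, (∏ s, z (β s) (w s)) * Tm a b (fun i => w (β.symm i)) β =
      ∑ u : Fin p → ZMod N, ∑ y : Fin q → ZMod N, (∏ s, z (β s) (Sum.elim u y s)) *
        Tm a b (fun i => Sum.elim u y (β.symm i)) β := by
    rw [← Fintype.sum_prod_type' (f := fun (u : Fin p → ZMod N) (y : Fin q → ZMod N) =>
      (∏ s, z (β s) (Sum.elim u y s)) * Tm a b (fun i => Sum.elim u y (β.symm i)) β)]
    refine Fintype.sum_equiv (Equiv.sumArrowEquivProdArrow _ _ _) _ _ fun w => ?_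
    have e1 : Sum.elim ((Equiv.sumArrowEquivProdArrow (Fin p) (Fin q) (ZMod N)) w).1
        ((Equiv.sumArrowEquivProdArrow (Fin p) (Fin q) (ZMod N)) w).2 = w := by
      funext s
      rcases s with i | j <;> rfl
    rw [e1]
  rw [h1, h2, Finset.sum_eq_single a]
  · have h3 : ∀ y : Fin q → ZMod N, (∏ s, z (β s) (Sum.elim a y s)) *
        Tm a b (fun i => Sum.elim a y (β.symm i)) β =
        (∏ i, z (β (Sum.inl i)) (a i)) * ((Matrix.of fun j' j : Fin q =>
          (starRingEnd ℂ) (Umat N (y j) (b j'))).det *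
          ∏ j, ((if y j ∈ univ.image a then 0 else 1) * Umat N (y j) (b j) * z (β (Sum.inr j)) (y j))) := by
      intro y
      rw [Fintype.prod_sum_type]
      unfold Tm
      rw [if_pos (fun i => by simp)]
      simp only [Equiv.symm_apply_apply, Sum.elim_inl, Sum.elim_inr]
      have e1 : ∏ j, ((if y j ∈ univ.image a then (0 : ℂ) else 1) * Umat N (y j) (b j) * z (β (Sum.inr j)) (y j)) =
          (∏ j, ((if y j ∈ univ.image a then (0 : ℂ) else 1) * Umat N (y j) (b j))) *
            ∏ j, z (β (Sum.inr j)) (y j) := by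
        rw [← Finset.prod_mul_distrib]
      rw [e1]
      ring
    rw [Finset.sum_congr rfl fun y _ => h3 y, ← Finset.mul_sum]
    congr 1
    have h4 := A1Aux.half (ι := Fin q) (σ := ZMod N) (R := ℂ)
      (fun j' y => (starRingEnd ℂ) (Umat N y (b j')))
      (fun j y => (if y ∈ univ.image a then 0 else 1) * Umat N y (b j) * z (β (Sum.inr j)) y)
    rw [h4]
    congr 1
  · intro u _ hu
    refine Finset.sum_eq_zero fun y _ => ?_
    unfold Tm
    rw [if_neg, mul_zero]
    intro h
    apply hu
    funext i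
    have := h i
    simpa using this
  · intro h
    exact absurd (mem_univ a) h

/-- the response to a product of functions -/
theorem resp_RS (hpq : p + q = n) (a : Fin p → ZMod N) (ha : Function.Injective a) (b : Fin q → ZMod N)
    (hb : Function.Injective b) (z : Fin n → ZMod N → ℂ) : open Classical in
    ∑ x : Fin n → ZMod N, (∏ i, z i (x i)) * (Om (univ.image a) (univ.image b) x : ℂ) =
      (-1 / 2) ^ q * RS a b z := by
  classical
  rw [← sum_Tm, Finset.mul_sum]
  refine Finset.sum_congr rfl fun x _ => ?_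
  have h := Om_eq hpq a ha b hb x
  rw [show (Om (univ.image a) (univ.image b) x : ℂ) = (-1 / 2) ^ q * ∑ β : Fin p ⊕ Fin q ≃ Fin n, Tm a b x β by
    rw [← h]]
  ring

end

section
variable (N : ℕ) [NeZero N] {p : ℕ}

theorem Vm_eq (a : Fin p → ZMod N) (ha : Function.Injective a) (z : ZMod N → ℂ) (u v : ZMod N) :
    Vm a z u v = (∑ y : ZMod N, (starRingEnd ℂ) (Umat N y u) * (Umat N y v * z y)) -
      ∑ i, (starRingEnd ℂ) (Umat N (a i) u) * (Umat N (a i) v * z (a i)) := by
  classical
  unfold Vm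
  have h1 : ∀ y : ZMod N, (starRingEnd ℂ) (Umat N y u) * ((if y ∈ univ.image a then 0 else 1) * Umat N y v * z y) =
      (starRingEnd ℂ) (Umat N y u) * (Umat N y v * z y) -
        if y ∈ univ.image a then (starRingEnd ℂ) (Umat N y u) * (Umat N y v * z y) else 0 := by
    intro y
    split_ifs <;> ring
  have h2 : ∑ y : ZMod N, (if y ∈ univ.image a then (starRingEnd ℂ) (Umat N y u) * (Umat N y v * z y) else 0) =
      ∑ i, (starRingEnd ℂ) (Umat N (a i) u) * (Umat N (a i) v * z (a i)) := by
    rw [Finset.sum_ite_mem, univ_inter, Finset.sum_image fun i _ j _ h => ha h]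
  rw [← h2, ← Finset.sum_sub_distrib]
  refine Finset.sum_congr rfl fun y _ => ?_
  rw [← h1]

end

end Pool.Agent.KS6_79.AH
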