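import Mathlib
import Pool.Agent.KS6_79.AH.G6
import Pool.Graph.R_seed8.H808R2.AH.F1

/-!
Closed formula for the entries, and their limits.
-/

set_option autoImplicit false

namespace Pool.Agent.KS6_79.AH
open Pool.Agent.H808R2.AH
open Finset Filter Topology

/-- the additive character as an exponential -/
theorem psi_eq (N : ℕ) [NeZero N] (k y : ℤ) :
    (ZMod.stdAddChar ((k : ZMod N) * (y : ZMod N)) : ℂ) =
      Complex.exp (2 * Real.pi * Complex.I * ((k : ℂ) * y) / N) := by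
  have h : ((k : ZMod N) * (y : ZMod N)) = ((k * y : ℤ) : ZMod N) := by push_cast; rfl
  rw [h, ZMod.stdAddChar_coe]
  congr 1
  push_cast
  ring

theorem zeta_eq (N : ℕ) [NeZero N] (k : ℕ) :
    zeta N ^ k = Complex.exp (Real.pi * Complex.I * (k : ℂ) / N) := by
  unfold zeta
  rw [← Complex.exp_nat_mul]
  congr 1
  ring

section
variable (N : ℕ) [NeZero N]

/-- the signed sum of characters -/
noncomputable def Tk (k : ℕ) (m : ZMod N) : ℂ :=
  ∑ a : Fin N, (if k ≤ (a : ℕ) then 1 else -1) * (ZMod.stdAddChar (((a : ℕ) : ZMod N) * m) : ℂ)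

theorem Vfull (k : ℕ) (hk : k ≤ N) (u v : ZMod N) :
    ∑ y : ZMod N, (starRingEnd ℂ) (Umat N y u) * (Umat N y v * ZMod.stdAddChar ((k : ZMod N) * y)) =
      (1 / (N : ℂ)) * (zeta N ^ k * ZMod.stdAddChar ((k : ZMod N) * u) * Tk N k (v - u)) := by
  have hN : (N : ℂ) ≠ 0 := by exact_mod_cast NeZero.ne N
  have hζ : zeta N ≠ 0 := zeta_ne N
  have hζN : zeta N ^ N = -1 := zeta_pow_N N
  have h1 : ∀ y : ZMod N, (starRingEnd ℂ) (Umat N y u) * (Umat N y v * ZMod.stdAddChar ((k : ZMod N) * y)) =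
      (1 / (N : ℂ)) ^ 2 * ∑ a : Fin N, ∑ a' : Fin N, (zeta N ^ (a : ℕ) * (zeta N)⁻¹ ^ (a' : ℕ) *
        ZMod.stdAddChar (((a : ℕ) : ZMod N) * v - ((a' : ℕ) : ZMod N) * u)) *
        (ZMod.stdAddChar ((((a' : ℕ) : ZMod N) + (k : ZMod N) - ((a : ℕ) : ZMod N)) * y) : ℂ) := by
    intro y
    unfold Umat
    rw [map_mul, map_sum]
    have e0 : (starRingEnd ℂ) (1 / (N : ℂ)) = 1 / (N : ℂ) := by simp
    rw [e0]
    have e1 : ∀ a' : Fin N, (starRingEnd ℂ) (zeta N ^ (a' : ℕ) * ZMod.stdAddChar (((a' : ℕ) : ZMod N) * (u - y))) =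
        (zeta N)⁻¹ ^ (a' : ℕ) * ZMod.stdAddChar (-(((a' : ℕ) : ZMod N) * (u - y))) := by
      intro a'
      rw [map_mul, map_pow, conj_zeta, conj_char]
    rw [Finset.sum_congr rfl fun a' _ => e1 a']
    have e2 : (1 / (N : ℂ) * ∑ a' : Fin N, (zeta N)⁻¹ ^ (a' : ℕ) * ZMod.stdAddChar (-(((a' : ℕ) : ZMod N) * (u - y)))) *
        (1 / (N : ℂ) * (∑ a : Fin N, zeta N ^ (a : ℕ) * ZMod.stdAddChar (((a : ℕ) : ZMod N) * (v - y))) *
          ZMod.stdAddChar ((k : ZMod N) * y)) =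
        (1 / (N : ℂ)) ^ 2 * ((∑ a : Fin N, zeta N ^ (a : ℕ) * ZMod.stdAddChar (((a : ℕ) : ZMod N) * (v - y))) *
          (∑ a' : Fin N, (zeta N)⁻¹ ^ (a' : ℕ) * ZMod.stdAddChar (-(((a' : ℕ) : ZMod N) * (u - y)))) *
          ZMod.stdAddChar ((k : ZMod N) * y)) := by ring
    rw [e2, Finset.sum_mul_sum, Finset.sum_mul]
    congr 1
    refine Finset.sum_congr rfl fun a _ => ?_
    rw [Finset.sum_mul]
    refine Finset.sum_congr rfl fun a' _ => ?_
    have e3 : (ZMod.stdAddChar (((a : ℕ) : ZMod N) * v - ((a' : ℕ) : ZMod N) * u) : ℂ) *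
        ZMod.stdAddChar ((((a' : ℕ) : ZMod N) + (k : ZMod N) - ((a : ℕ) : ZMod N)) * y) =
        ZMod.stdAddChar (((a : ℕ) : ZMod N) * (v - y)) * ZMod.stdAddChar (-(((a' : ℕ) : ZMod N) * (u - y))) *
          ZMod.stdAddChar ((k : ZMod N) * y) := by
      rw [← AddChar.map_add_eq_mul, ← AddChar.map_add_eq_mul, ← AddChar.map_add_eq_mul]
      congr 1
      ring
    linear_combination (-(zeta N ^ (a : ℕ) * (zeta N)⁻¹ ^ (a' : ℕ))) * e3
  rw [Finset.sum_congr rfl fun y _ => h1 y, ← Finset.mul_sum, Finset.sum_comm]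
  have h2 : ∀ a : Fin N, ∑ y : ZMod N, ∑ a' : Fin N, (zeta N ^ (a : ℕ) * (zeta N)⁻¹ ^ (a' : ℕ) *
        ZMod.stdAddChar (((a : ℕ) : ZMod N) * v - ((a' : ℕ) : ZMod N) * u)) *
        (ZMod.stdAddChar ((((a' : ℕ) : ZMod N) + (k : ZMod N) - ((a : ℕ) : ZMod N)) * y) : ℂ) =
      (N : ℂ) * (zeta N ^ k * ZMod.stdAddChar ((k : ZMod N) * u) *
        ((if k ≤ (a : ℕ) then 1 else -1) * ZMod.stdAddChar (((a : ℕ) : ZMod N) * (v - u)))) := by
    intro a
    have ha := a.isLt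
    rw [Finset.sum_comm]
    have e1 : ∀ a' : Fin N, ∑ y : ZMod N, (zeta N ^ (a : ℕ) * (zeta N)⁻¹ ^ (a' : ℕ) *
        ZMod.stdAddChar (((a : ℕ) : ZMod N) * v - ((a' : ℕ) : ZMod N) * u)) *
        (ZMod.stdAddChar ((((a' : ℕ) : ZMod N) + (k : ZMod N) - ((a : ℕ) : ZMod N)) * y) : ℂ) =
        (zeta N ^ (a : ℕ) * (zeta N)⁻¹ ^ (a' : ℕ) *
        ZMod.stdAddChar (((a : ℕ) : ZMod N) * v - ((a' : ℕ) : ZMod N) * u)) *
          (if (((a' : ℕ) : ZMod N) + (k : ZMod N) - ((a : ℕ) : ZMod N)) = 0 then (N : ℂ) else 0) := by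
      intro a'
      rw [← Finset.mul_sum]
      congr 1
      have := sum_char N ((((a' : ℕ) : ZMod N) + (k : ZMod N) - ((a : ℕ) : ZMod N)))
      rw [← this]
      refine Finset.sum_congr rfl fun y _ => ?_
      rw [mul_comm]
    rw [Finset.sum_congr rfl fun a' _ => e1 a']
    obtain ⟨r, hr1, hr2⟩ : ∃ r : Fin N, (k ≤ (a : ℕ) → (r : ℕ) + k = a) ∧ (¬ k ≤ (a : ℕ) → (r : ℕ) + k = a + N) := by
      by_cases hka : k ≤ (a : ℕ)
      · exact ⟨⟨a - k, by omega⟩, fun _ => by show (a : ℕ) - k + k = a; omega, fun h => absurd hka h⟩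
      · exact ⟨⟨a + N - k, by omega⟩, fun h => absurd h hka, fun _ => by show (a : ℕ) + N - k + k = a + N; omega⟩
    have hr : ((r : ℕ) : ZMod N) + (k : ZMod N) - ((a : ℕ) : ZMod N) = 0 := by
      by_cases hka : k ≤ (a : ℕ)
      · rw [← Nat.cast_add, hr1 hka, sub_self]
      · rw [← Nat.cast_add, hr2 hka]
        simp
    rw [Finset.sum_eq_single r]
    · rw [if_pos hr]
      have e2 : (ZMod.stdAddChar (((a : ℕ) : ZMod N) * v - ((r : ℕ) : ZMod N) * u) : ℂ) =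
          ZMod.stdAddChar ((k : ZMod N) * u) * ZMod.stdAddChar (((a : ℕ) : ZMod N) * (v - u)) := by
        rw [← AddChar.map_add_eq_mul]
        congr 1
        linear_combination (-u) * hr
      rw [e2]
      have e3 : zeta N ^ (a : ℕ) * (zeta N)⁻¹ ^ (r : ℕ) = zeta N ^ k * (if k ≤ (a : ℕ) then 1 else -1) := by
        rw [inv_pow]
        have hζr : zeta N ^ (r : ℕ) ≠ 0 := pow_ne_zero _ hζ
        by_cases hka : k ≤ (a : ℕ)
        · rw [if_pos hka, mul_one, ← hr1 hka, pow_add]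
          field_simp
        · rw [if_neg hka]
          have h5 : zeta N ^ (r : ℕ) * zeta N ^ k = zeta N ^ (a : ℕ) * zeta N ^ N := by
            rw [← pow_add, ← pow_add, hr2 hka]
          rw [hζN] at h5
          field_simp
          linear_combination h5
      rw [e3]
      ring
    · intro a' _ ha'
      rw [if_neg, mul_zero]
      intro h
      apply ha'
      apply fin_cast_inj N
      linear_combination h - hr
    · intro h
      exact absurd (mem_univ r) h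
  rw [Finset.sum_congr rfl fun a _ => h2 a, ← Finset.mul_sum, ← Finset.mul_sum]
  unfold Tk
  field_simp

theorem Tk_zero (k : ℕ) (hk : k ≤ N) : Tk N k 0 = N - 2 * k := by
  unfold Tk
  simp only [mul_zero, AddChar.map_zero_eq_one, mul_one]
  rw [Fin.sum_univ_eq_sum_range (fun a => if k ≤ a then (1 : ℂ) else -1) N]
  obtain ⟨m, rfl⟩ := Nat.exists_eq_add_of_le hk
  rw [Finset.sum_range_add]
  have h1 : ∑ x ∈ range k, (if k ≤ x then (1 : ℂ) else -1) = -k := by
    rw [Finset.sum_congr rfl fun x hx => if_neg (by rw [mem_range] at hx; omega)]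
    simp
  have h2 : ∑ x ∈ range m, (if k ≤ k + x then (1 : ℂ) else -1) = m := by
    rw [Finset.sum_congr rfl fun x hx => if_pos (by omega)]
    simp
  rw [h1, h2]
  push_cast
  ring

theorem Tk_ne (k : ℕ) (hk : k ≤ N) (m : ZMod N) (hm : m ≠ 0) :
    Tk N k m = -2 * ((ZMod.stdAddChar ((k : ZMod N) * m) : ℂ) - 1) / ((ZMod.stdAddChar m : ℂ) - 1) := by
  set w : ℂ := ZMod.stdAddChar m with hw
  have hw1 : w ≠ 1 := by
    intro h
    apply hm
    exact ZMod.injective_stdAddChar (by rw [AddChar.map_zero_eq_one]; exact h)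
  have hpow : ∀ a : ℕ, (ZMod.stdAddChar ((a : ZMod N) * m) : ℂ) = w ^ a := by
    intro a
    rw [hw, ← AddChar.map_nsmul_eq_pow, nsmul_eq_mul]
  have hwN : w ^ N = 1 := by
    rw [← hpow]
    simp
  unfold Tk
  have h1 : ∀ a : Fin N, (if k ≤ (a : ℕ) then 1 else -1) * (ZMod.stdAddChar (((a : ℕ) : ZMod N) * m) : ℂ) =
      (fun b : ℕ => (if k ≤ b then 1 else -1) * w ^ b) (a : ℕ) := by
    intro a
    rw [hpow]
  rw [Finset.sum_congr rfl fun a _ => h1 a, Fin.sum_univ_eq_sum_range (fun b : ℕ => (if k ≤ b then 1 else -1) * w ^ b) N]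
  have h2 : ∑ b ∈ range N, (if k ≤ b then 1 else -1) * w ^ b = ∑ b ∈ range N, w ^ b - 2 * ∑ b ∈ range k, w ^ b := by
    obtain ⟨r, hr⟩ := Nat.exists_eq_add_of_le hk
    rw [hr, Finset.sum_range_add, Finset.sum_range_add]
    have e1 : ∑ x ∈ range k, (if k ≤ x then (1 : ℂ) else -1) * w ^ x = -∑ x ∈ range k, w ^ x := by
      rw [← Finset.sum_neg_distrib]
      refine Finset.sum_congr rfl fun x hx => ?_
      rw [if_neg (by rw [mem_range] at hx; omega)]
      ring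
    have e2 : ∑ x ∈ range r, (if k ≤ k + x then (1 : ℂ) else -1) * w ^ (k + x) = ∑ x ∈ range r, w ^ (k + x) := by
      refine Finset.sum_congr rfl fun x hx => ?_
      rw [if_pos (by omega), one_mul]
    rw [e1, e2]
    ring
  rw [h2, geom_sum_eq hw1, geom_sum_eq hw1, hwN, hpow]
  have : w - 1 ≠ 0 := sub_ne_zero.2 hw1
  field_simp
  ring

end

end Pool.Agent.KS6_79.AH
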