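import Mathlib
import Pool.Agent.KS6_79.AH.G7

/-!
Limits of the response to exponentials.
-/

set_option autoImplicit false

namespace Pool.Agent.KS6_79.AH
open Pool.Agent.H808R2.AH
open Finset Filter Topology

/-- limit of the entries of the unitary matrix -/
noncomputable def uu (y : ℤ) (j : ℕ) : ℂ := Complex.I / (Real.pi * ((j : ℂ) - (y : ℂ) + 1 / 2))

/-- limit of the sums over all sites -/
noncomputable def SS (ξ : ℂ) (m : ℤ) : ℂ :=
  if m = 0 then 1 - 2 * ξ else (1 - Complex.exp (2 * Real.pi * Complex.I * (ξ * m))) / (Real.pi * Complex.I * m)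

/-- limit of the entries -/
noncomputable def Ent (p : ℕ) (s : ℤ) (ξ : ℂ) (j' j : ℕ) : ℂ :=
  Complex.exp (2 * Real.pi * Complex.I * (ξ * (j' + 1 / 2))) * SS ξ ((j : ℤ) - (j' : ℤ)) -
    ∑ i : Fin p, (starRingEnd ℂ) (uu (((i : ℕ) : ℤ) + s) j') * (uu (((i : ℕ) : ℤ) + s) j *
      Complex.exp (2 * Real.pi * Complex.I * (ξ * ((((i : ℕ) : ℤ) + s : ℤ) : ℂ))))

/-- limit of the response -/
noncomputable def fp (p q : ℕ) (s : ℤ) {n : ℕ} (ξ : Fin n → ℂ) : ℂ :=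
  ∑ β : Fin p ⊕ Fin q ≃ Fin n,
    (∏ i : Fin p, Complex.exp (2 * Real.pi * Complex.I * (ξ (β (Sum.inl i)) * ((((i : ℕ) : ℤ) + s : ℤ) : ℂ)))) *
    (Matrix.of fun j' j : Fin q => Ent p s (ξ (β (Sum.inr j))) j' j).det

theorem lim_N (m : ℤ) : Tendsto (fun M : ℕ => ((M : ℂ) + 1) *
    (Complex.exp (2 * Real.pi * Complex.I * m / ((M : ℂ) + 1)) - 1)) atTop (𝓝 (2 * Real.pi * Complex.I * m)) := by
  set c : ℂ := 2 * Real.pi * Complex.I * m with hc
  have h : HasDerivAt (fun t : ℂ => Complex.exp (c * t)) c 0 := by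
    have h1 := ((hasDerivAt_id (0 : ℂ)).const_mul c).cexp
    simpa using h1
  have h1 := h.tendsto_slope_zero
  have h2 : Tendsto (fun M : ℕ => (1 : ℂ) / ((M : ℂ) + 1)) atTop (𝓝[≠] 0) := by
    rw [tendsto_nhdsWithin_iff]
    refine ⟨tendsto_one_div_add_atTop_nhds_zero_nat, Eventually.of_forall fun M => ?_⟩
    have : (M : ℂ) + 1 ≠ 0 := by exact_mod_cast Nat.succ_ne_zero M
    simp only [Set.mem_compl_iff, Set.mem_singleton_iff]
    exact one_div_ne_zero this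
  refine (h1.comp h2).congr fun M => ?_
  simp only [Function.comp, zero_add, mul_zero, Complex.exp_zero, smul_eq_mul, one_div, inv_inv]
  rw [div_eq_mul_inv]

section
variable {X : Type*} {l : Filter X} (M : X → ℕ) (hM : Tendsto M l atTop)

include hM

theorem lim_U (y : ℤ) (j : ℕ) : Tendsto (fun x => Umat (M x + 1) ((y : ℤ) : ZMod (M x + 1))
    (((j : ℕ) : ZMod (M x + 1)))) l (𝓝 (uu y j)) :=
  (F1.entry_limit y j).comp hM

variable (κ : X → ℤ) (ξ : ℝ) (hκ : Tendsto (fun x => (κ x : ℝ) / ((M x : ℝ) + 1)) l (𝓝 ξ))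

omit hM in
include hκ in
theorem lim_ratio : Tendsto (fun x => (κ x : ℂ) / ((M x : ℂ) + 1)) l (𝓝 (ξ : ℂ)) := by
  have h := (Complex.continuous_ofReal.tendsto ξ).comp hκ
  refine h.congr fun x => ?_
  simp

omit hM in
include hκ in
theorem lim_exp (w : ℂ) : Tendsto (fun x => Complex.exp (2 * Real.pi * Complex.I *
    ((κ x : ℂ) / ((M x : ℂ) + 1) * w))) l (𝓝 (Complex.exp (2 * Real.pi * Complex.I * (ξ * w)))) := by
  refine (Complex.continuous_exp.tendsto _).comp ?_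
  exact ((lim_ratio M κ ξ hκ).mul_const w).const_mul _

omit hM in
include hκ in
theorem lim_psi (y : ℤ) : Tendsto (fun x => (ZMod.stdAddChar ((κ x : ZMod (M x + 1)) * (y : ZMod (M x + 1))) : ℂ))
    l (𝓝 (Complex.exp (2 * Real.pi * Complex.I * (ξ * y)))) := by
  refine (lim_exp M κ ξ hκ y).congr fun x => ?_
  rw [psi_eq]
  congr 1
  push_cast
  ring

include hκ in
theorem lim_full (h0 : 0 < ξ) (h1 : ξ < 1) (u v : ℕ) :
    Tendsto (fun x => ∑ y : ZMod (M x + 1), (starRingEnd ℂ) (Umat (M x + 1) y ((u : ℕ) : ZMod (M x + 1))) *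
      (Umat (M x + 1) y ((v : ℕ) : ZMod (M x + 1)) * ZMod.stdAddChar ((κ x : ZMod (M x + 1)) * y))) l
      (𝓝 (Complex.exp (2 * Real.pi * Complex.I * (ξ * (u + 1 / 2))) * SS ξ ((v : ℤ) - (u : ℤ)))) := by
  have hpos : ∀ x, (0 : ℝ) < (M x : ℝ) + 1 := fun x => by positivity
  have ev0 : ∀ᶠ x in l, 0 ≤ κ x := by
    filter_upwards [(tendsto_order.1 hκ).1 0 h0] with x hx
    have := (div_pos_iff_of_pos_right (hpos x)).1 hx
    exact_mod_cast this.le
  have ev1 : ∀ᶠ x in l, κ x ≤ (M x : ℤ) + 1 := by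
    filter_upwards [(tendsto_order.1 hκ).2 1 h1] with x hx
    rw [div_lt_one (hpos x)] at hx
    exact_mod_cast hx.le
  have evN : ∀ᶠ x in l, ((v : ℤ) - (u : ℤ)).natAbs < M x + 1 := by
    filter_upwards [hM.eventually (eventually_ge_atTop ((v : ℤ) - (u : ℤ)).natAbs)] with x hx
    omega
  have hS : Tendsto (fun x => if (v : ℤ) - (u : ℤ) = 0 then 1 - 2 * ((κ x : ℂ) / ((M x : ℂ) + 1)) else
      (1 - Complex.exp (2 * Real.pi * Complex.I * ((κ x : ℂ) / ((M x : ℂ) + 1) * (((v : ℤ) - (u : ℤ) : ℤ) : ℂ)))) * 2 /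
        (((M x : ℂ) + 1) * (Complex.exp (2 * Real.pi * Complex.I * (((v : ℤ) - (u : ℤ) : ℤ) : ℂ) /
          ((M x : ℂ) + 1)) - 1))) l (𝓝 (SS ξ ((v : ℤ) - (u : ℤ)))) := by
    unfold SS
    by_cases h : (v : ℤ) - (u : ℤ) = 0
    · simp only [if_pos h]
      exact ((lim_ratio M κ ξ hκ).const_mul 2).const_sub 1
    · simp only [if_neg h]
      have hm : (((v : ℤ) - (u : ℤ) : ℤ) : ℂ) ≠ 0 := by exact_mod_cast h
      have e1 := ((lim_exp M κ ξ hκ (((v : ℤ) - (u : ℤ) : ℤ) : ℂ)).const_sub 1).mul_const 2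
      have e2 := (lim_N ((v : ℤ) - (u : ℤ))).comp hM
      have hne : (2 * Real.pi * Complex.I * (((v : ℤ) - (u : ℤ) : ℤ) : ℂ)) ≠ 0 := by
        refine mul_ne_zero (mul_ne_zero (mul_ne_zero two_ne_zero ?_) Complex.I_ne_zero) hm
        exact_mod_cast Real.pi_ne_zero
      have e3 := e1.div e2 hne
      refine Tendsto.congr (fun x => rfl) ?_
      have hpi : (Real.pi : ℂ) ≠ 0 := by exact_mod_cast Real.pi_ne_zero
      have e4 : (1 - Complex.exp (2 * Real.pi * Complex.I * (ξ * (((v : ℤ) - (u : ℤ) : ℤ) : ℂ)))) /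
          (Real.pi * Complex.I * (((v : ℤ) - (u : ℤ) : ℤ) : ℂ)) =
          (1 - Complex.exp (2 * Real.pi * Complex.I * (ξ * (((v : ℤ) - (u : ℤ) : ℤ) : ℂ)))) * 2 /
          (2 * Real.pi * Complex.I * (((v : ℤ) - (u : ℤ) : ℤ) : ℂ)) := by
        have := Complex.I_ne_zero
        field_simp
      rw [e4]
      exact e3
  have hprod := (lim_exp M κ ξ hκ ((u : ℂ) + 1 / 2)).mul hS
  refine hprod.congr' ?_
  filter_upwards [ev0, ev1, evN] with x hx0 hx1 hxN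
  obtain ⟨k, hk⟩ := Int.eq_ofNat_of_zero_le hx0
  have hkN : k ≤ M x + 1 := by
    rw [hk] at hx1
    exact_mod_cast hx1
  have hNC : ((M x + 1 : ℕ) : ℂ) = (M x : ℂ) + 1 := by push_cast; ring
  have hN0 : (M x : ℂ) + 1 ≠ 0 := by
    rw [← hNC]
    exact_mod_cast Nat.succ_ne_zero (M x)
  have hcast : (κ x : ZMod (M x + 1)) = (k : ZMod (M x + 1)) := by rw [hk]; simp
  rw [hcast, Vfull (M x + 1) k hkN]
  have hκk : (κ x : ℂ) = (k : ℂ) := by rw [hk]; simp
  have hz : zeta (M x + 1) ^ k * (ZMod.stdAddChar ((k : ZMod (M x + 1)) * ((u : ℕ) : ZMod (M x + 1))) : ℂ) =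
      Complex.exp (2 * Real.pi * Complex.I * ((κ x : ℂ) / ((M x : ℂ) + 1) * ((u : ℂ) + 1 / 2))) := by
    have e1 := psi_eq (M x + 1) (k : ℤ) (u : ℤ)
    push_cast at e1
    rw [e1, zeta_eq, ← Complex.exp_add, hκk]
    congr 1
    push_cast
    field_simp
    ring
  rw [hz]
  have hT : (1 / ((M x + 1 : ℕ) : ℂ)) * Tk (M x + 1) k (((v : ℕ) : ZMod (M x + 1)) - ((u : ℕ) : ZMod (M x + 1))) =
      if (v : ℤ) - (u : ℤ) = 0 then 1 - 2 * ((κ x : ℂ) / ((M x : ℂ) + 1)) else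
      (1 - Complex.exp (2 * Real.pi * Complex.I * ((κ x : ℂ) / ((M x : ℂ) + 1) * (((v : ℤ) - (u : ℤ) : ℤ) : ℂ)))) * 2 /
        (((M x : ℂ) + 1) * (Complex.exp (2 * Real.pi * Complex.I * (((v : ℤ) - (u : ℤ) : ℤ) : ℂ) /
          ((M x : ℂ) + 1)) - 1)) := by
    by_cases h : (v : ℤ) - (u : ℤ) = 0
    · rw [if_pos h]
      have hvu : v = u := by omega
      rw [hvu, sub_self, Tk_zero _ _ hkN, hκk]
      push_cast
      field_simp
    · rw [if_neg h]
      have hne : ((v : ℕ) : ZMod (M x + 1)) - ((u : ℕ) : ZMod (M x + 1)) ≠ 0 := by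
        intro hz
        have h2 : ((((v : ℤ) - (u : ℤ) : ℤ)) : ZMod (M x + 1)) = 0 := by push_cast; exact hz
        rw [ZMod.intCast_zmod_eq_zero_iff_dvd] at h2
        apply h
        apply Int.eq_zero_of_abs_lt_dvd h2
        rw [Int.abs_eq_natAbs]
        exact_mod_cast hxN
      rw [Tk_ne _ _ hkN _ hne]
      have e1 := psi_eq (M x + 1) (k : ℤ) ((v : ℤ) - (u : ℤ))
      have e2 := psi_eq (M x + 1) 1 ((v : ℤ) - (u : ℤ))
      push_cast at e1 e2
      rw [one_mul, one_mul] at e2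
      rw [e1, e2, hκk]
      push_cast
      have e3 : 2 * (Real.pi : ℂ) * Complex.I * ((k : ℂ) * ((v : ℂ) - u)) / ((M x : ℂ) + 1) =
          2 * Real.pi * Complex.I * ((k : ℂ) / ((M x : ℂ) + 1) * ((v : ℂ) - u)) := by ring
      rw [e3]
      rw [div_mul_eq_mul_div, one_mul, div_div]
      rw [mul_comm (Complex.exp _ - 1) ((M x : ℂ) + 1)]
      congr 1
      ring
  rw [← hT]
  ring

end

end Pool.Agent.KS6_79.AH
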