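import Mathlib
import Pool.Agent.KS6_79.AH.G8

/-!
Limit of the response to exponentials: assembly.
-/

set_option autoImplicit false

namespace Pool.Agent.KS6_79.AH
open Pool.Agent.H808R2.AH
open Finset Filter Topology

/-- the even sites of the block -/
def ae (N p : ℕ) (s : ℤ) (i : Fin p) : ZMod N := ((((i : ℕ) : ℤ) + s : ℤ) : ZMod N)

/-- the odd sites of the block -/
def bo (N q : ℕ) (j : Fin q) : ZMod N := ((j : ℕ) : ZMod N)

theorem ae_inj {N p : ℕ} (h : p ≤ N) (s : ℤ) : Function.Injective (ae N p s) := by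
  intro i j hij
  unfold ae at hij
  have h1 : ((((i : ℕ) : ℤ) - ((j : ℕ) : ℤ) : ℤ) : ZMod N) = 0 := by
    push_cast at hij ⊢
    linear_combination hij
  rw [ZMod.intCast_zmod_eq_zero_iff_dvd] at h1
  have h2 := Int.eq_zero_of_abs_lt_dvd h1 (by
    have := i.isLt
    have := j.isLt
    rw [abs_lt]
    omega)
  exact Fin.ext (by omega)

theorem bo_inj {N q : ℕ} (h : q ≤ N) : Function.Injective (bo N q) := by
  intro i j hij
  have h1 : ae N q 0 i = ae N q 0 j := by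
    unfold ae
    unfold bo at hij
    push_cast
    rw [hij]
  exact ae_inj h 0 h1

/-- the exponential of frequency `k` -/
noncomputable def ex (N : ℕ) [NeZero N] (k : ℤ) (y : ZMod N) : ℂ := ZMod.stdAddChar ((k : ZMod N) * y)

section
variable {X : Type*} {l : Filter X} (M : X → ℕ) (hM : Tendsto M l atTop)

include hM

theorem lim_V (κ : X → ℤ) (ξ : ℝ) (hκ : Tendsto (fun x => (κ x : ℝ) / ((M x : ℝ) + 1)) l (𝓝 ξ))
    (h0 : 0 < ξ) (h1 : ξ < 1) (p : ℕ) (s : ℤ) (u v : ℕ) :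
    Tendsto (fun x => Vm (ae (M x + 1) p s) (ex (M x + 1) (κ x)) ((u : ℕ) : ZMod (M x + 1))
      ((v : ℕ) : ZMod (M x + 1))) l (𝓝 (Ent p s ξ u v)) := by
  have hev : ∀ᶠ x in l, p ≤ M x + 1 := by
    filter_upwards [hM.eventually (eventually_ge_atTop p)] with x hx
    omega
  have hfin : Tendsto (fun x => ∑ i : Fin p, (starRingEnd ℂ) (Umat (M x + 1) (ae (M x + 1) p s i)
      ((u : ℕ) : ZMod (M x + 1))) * (Umat (M x + 1) (ae (M x + 1) p s i) ((v : ℕ) : ZMod (M x + 1)) *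
        ex (M x + 1) (κ x) (ae (M x + 1) p s i))) l
      (𝓝 (∑ i : Fin p, (starRingEnd ℂ) (uu (((i : ℕ) : ℤ) + s) u) * (uu (((i : ℕ) : ℤ) + s) v *
      Complex.exp (2 * Real.pi * Complex.I * (ξ * ((((i : ℕ) : ℤ) + s : ℤ) : ℂ)))))) := by
    refine tendsto_finsetSum _ fun i _ => ?_
    refine Tendsto.mul ((Complex.continuous_conj.tendsto _).comp (lim_U M hM _ u)) ?_
    exact (lim_U M hM _ v).mul (lim_psi M κ ξ hκ _)
  refine ((lim_full M hM κ ξ hκ h0 h1 u v).sub hfin).congr' ?_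
  filter_upwards [hev] with x hx
  rw [Vm_eq (M x + 1) _ (ae_inj hx s)]
  rfl

theorem lim_RS {n : ℕ} (κ : X → Fin n → ℤ) (ξ : Fin n → ℝ)
    (hκ : ∀ i, Tendsto (fun x => (κ x i : ℝ) / ((M x : ℝ) + 1)) l (𝓝 (ξ i)))
    (h0 : ∀ i, 0 < ξ i) (h1 : ∀ i, ξ i < 1) (p q : ℕ) (s : ℤ) :
    Tendsto (fun x => RS (ae (M x + 1) p s) (bo (M x + 1) q) (fun i => ex (M x + 1) (κ x i))) l
      (𝓝 (fp p q s fun i => (ξ i : ℂ))) := by
  unfold RS fp
  refine tendsto_finsetSum _ fun β _ => Tendsto.mul ?_ ?_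
  · refine tendsto_finsetProd _ fun i _ => ?_
    exact lim_psi M (fun x => κ x (β (Sum.inl i))) _ (hκ _) _
  · have hc : Continuous fun A : Matrix (Fin q) (Fin q) ℂ => A.det := continuous_id.matrix_det
    refine (hc.tendsto _).comp ?_
    refine tendsto_pi_nhds.2 fun j' => tendsto_pi_nhds.2 fun j => ?_
    exact lim_V M hM (fun x => κ x (β (Sum.inr j))) _ (hκ _) (h0 _) (h1 _) p s j' j

end

end Pool.Agent.KS6_79.AH
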