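import Mathlib
import Pool.Agent.KS6_79.AH.G9

/-!
The limit of the response along a line, at the even integers.
-/

set_option autoImplicit false

namespace Pool.Agent.KS6_79.AH
open Pool.Agent.H808R2.AH
open Finset Filter Topology

section
variable {n : ℕ}

/-- a complex line of frequencies -/
noncomputable def ln (θ : Fin n → ℝ) (v : Fin n → ℤ) (τ : ℂ) (i : Fin n) : ℂ := θ i + τ * v i

theorem exp_int (z : ℂ) (m : ℤ) : Complex.exp (2 * Real.pi * Complex.I * (z + m)) =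
    Complex.exp (2 * Real.pi * Complex.I * z) := by
  rw [mul_add, Complex.exp_add]
  have : Complex.exp (2 * Real.pi * Complex.I * (m : ℂ)) = 1 := by
    rw [Complex.exp_eq_one_iff]
    exact ⟨m, by ring⟩
  rw [this, mul_one]

/-- the coefficient of the entry -/
noncomputable def cfc (θ : ℝ) (v : ℤ) (j : ℕ) : ℂ :=
  -2 * v * Complex.exp (2 * Real.pi * Complex.I * (θ * ((j : ℂ) + 1 / 2)))

theorem SS_shift (z : ℂ) (w m : ℤ) : SS (z + 2 * w) m = SS z m - (if m = 0 then 4 * (w : ℂ) else 0) := by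
  unfold SS
  by_cases hm : m = 0
  · simp only [if_pos hm]
    ring
  · simp only [if_neg hm, sub_zero]
    have h : (z + 2 * (w : ℂ)) * (m : ℂ) = z * m + ((2 * w * m : ℤ) : ℂ) := by
      push_cast
      ring
    rw [h, exp_int]

theorem Ent_shift (p : ℕ) (s : ℤ) (θ : ℝ) (v : ℤ) (M : ℕ) (j' j : ℕ) :
    Ent p s ((θ : ℂ) + 2 * (M : ℂ) * v) j' j = Ent p s θ j' j +
      (2 * M : ℂ) * (if j' = j then cfc θ v j else 0) := by
  unfold Ent
  have h1 : Complex.exp (2 * Real.pi * Complex.I * (((θ : ℂ) + 2 * (M : ℂ) * v) * (j' + 1 / 2))) =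
      Complex.exp (2 * Real.pi * Complex.I * ((θ : ℂ) * (j' + 1 / 2))) := by
    have h : ((θ : ℂ) + 2 * (M : ℂ) * v) * ((j' : ℂ) + 1 / 2) =
        (θ : ℂ) * (j' + 1 / 2) + ((M * v * (2 * j' + 1) : ℤ) : ℂ) := by
      push_cast
      ring
    rw [h, exp_int]
  have h2 : ∀ i : Fin p, Complex.exp (2 * Real.pi * Complex.I * (((θ : ℂ) + 2 * (M : ℂ) * v) *
      ((((i : ℕ) : ℤ) + s : ℤ) : ℂ))) = Complex.exp (2 * Real.pi * Complex.I * ((θ : ℂ) *
      ((((i : ℕ) : ℤ) + s : ℤ) : ℂ))) := by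
    intro i
    have h : ((θ : ℂ) + 2 * (M : ℂ) * v) * ((((i : ℕ) : ℤ) + s : ℤ) : ℂ) =
        (θ : ℂ) * ((((i : ℕ) : ℤ) + s : ℤ) : ℂ) + ((2 * M * v * (((i : ℕ) : ℤ) + s) : ℤ) : ℂ) := by
      push_cast
      ring
    rw [h, exp_int]
  have h3 : SS ((θ : ℂ) + 2 * (M : ℂ) * v) ((j : ℤ) - (j' : ℤ)) = SS θ ((j : ℤ) - (j' : ℤ)) -
      (if j' = j then 4 * ((M : ℂ) * v) else 0) := by
    have h := SS_shift (θ : ℂ) (M * v) ((j : ℤ) - (j' : ℤ))
    push_cast at h
    rw [show (θ : ℂ) + 2 * (M : ℂ) * v = (θ : ℂ) + 2 * ((M : ℂ) * v) by ring, h]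
    congr 1
    by_cases hj : j' = j
    · rw [if_pos hj, if_pos (by omega)]
    · rw [if_neg hj, if_neg (by omega)]
  rw [h1, h3]
  simp only [h2]
  by_cases hj : j' = j
  · subst hj
    simp only [if_true]
    unfold cfc
    ring
  · simp only [if_neg hj]
    ring

/-- the leading coefficient -/
noncomputable def Gp (p q : ℕ) (s : ℤ) (θ : Fin n → ℝ) (v : Fin n → ℤ) : ℂ :=
  ∑ β : Fin p ⊕ Fin q ≃ Fin n,
    (∏ i : Fin p, Complex.exp (2 * Real.pi * Complex.I * (θ (β (Sum.inl i)) * ((((i : ℕ) : ℤ) + s : ℤ) : ℂ)))) *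
    ∏ j : Fin q, cfc (θ (β (Sum.inr j))) (v (β (Sum.inr j))) j

theorem lim_M : Tendsto (fun M : ℕ => ((2 * (M : ℂ)))⁻¹) atTop (𝓝 0) := by
  have h : Tendsto (fun M : ℕ => ((M : ℂ))⁻¹) atTop (𝓝 0) := tendsto_inv_atTop_nhds_zero_nat
  have h2 := h.const_mul (2⁻¹ : ℂ)
  rw [mul_zero] at h2
  refine h2.congr fun M => ?_
  rw [mul_inv]

theorem lim_fp (p q : ℕ) (s : ℤ) (θ : Fin n → ℝ) (v : Fin n → ℤ) :
    Tendsto (fun M : ℕ => fp p q s (ln θ v (2 * (M : ℂ))) * (((2 * (M : ℂ)))⁻¹) ^ q) atTop (𝓝 (Gp p q s θ v)) := by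
  unfold fp Gp
  simp only [Finset.sum_mul]
  refine tendsto_finsetSum _ fun β _ => ?_
  simp only [mul_assoc (∏ i : Fin p, _)]
  refine Tendsto.mul ?_ ?_
  · refine tendsto_finsetProd _ fun i _ => ?_
    refine Tendsto.congr (fun M => ?_) tendsto_const_nhds
    symm
    unfold ln
    have h : ((θ (β (Sum.inl i)) : ℂ) + 2 * (M : ℂ) * v (β (Sum.inl i))) * ((((i : ℕ) : ℤ) + s : ℤ) : ℂ) =
        (θ (β (Sum.inl i)) : ℂ) * ((((i : ℕ) : ℤ) + s : ℤ) : ℂ) +
          ((2 * M * v (β (Sum.inl i)) * (((i : ℕ) : ℤ) + s) : ℤ) : ℂ) := by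
      push_cast
      ring
    rw [h, exp_int]
  · have hdet : ∀ M : ℕ, (Matrix.of fun j' j : Fin q => Ent p s (ln θ v (2 * (M : ℂ)) (β (Sum.inr j))) j' j).det *
        (((2 * (M : ℂ)))⁻¹) ^ q =
        ((((2 * (M : ℂ)))⁻¹) • (Matrix.of fun j' j : Fin q =>
          Ent p s (ln θ v (2 * (M : ℂ)) (β (Sum.inr j))) j' j)).det := by
      intro M
      rw [Matrix.det_smul, Fintype.card_fin, mul_comm]
    simp only [hdet]
    have hdiag : ∏ j : Fin q, cfc (θ (β (Sum.inr j))) (v (β (Sum.inr j))) j =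
        (Matrix.diagonal fun j : Fin q => cfc (θ (β (Sum.inr j))) (v (β (Sum.inr j))) j).det := by
      rw [Matrix.det_diagonal]
    rw [hdiag]
    have hc : Continuous fun A : Matrix (Fin q) (Fin q) ℂ => A.det := continuous_id.matrix_det
    refine (hc.tendsto _).comp ?_
    refine tendsto_pi_nhds.2 fun j' => tendsto_pi_nhds.2 fun j => ?_
    have h1 : Tendsto (fun M : ℕ => ((2 * (M : ℂ)))⁻¹ * Ent p s (θ (β (Sum.inr j))) j' j +
        (if (j' : ℕ) = j then cfc (θ (β (Sum.inr j))) (v (β (Sum.inr j))) j else 0)) atTop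
        (𝓝 (0 * Ent p s (θ (β (Sum.inr j))) j' j +
          (if (j' : ℕ) = j then cfc (θ (β (Sum.inr j))) (v (β (Sum.inr j))) j else 0))) :=
      (lim_M.mul_const _).add_const _
    have h2 : (Matrix.diagonal fun j : Fin q => cfc (θ (β (Sum.inr j))) (v (β (Sum.inr j))) j) j' j =
        0 * Ent p s (θ (β (Sum.inr j))) j' j +
          (if (j' : ℕ) = j then cfc (θ (β (Sum.inr j))) (v (β (Sum.inr j))) j else 0) := by
      rw [zero_mul, zero_add]
      by_cases hj : j' = j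
      · subst hj
        simp
      · rw [Matrix.diagonal_apply_ne _ hj, if_neg (fun h => hj (Fin.ext h))]
    rw [h2]
    refine h1.congr' ?_
    filter_upwards [eventually_gt_atTop 0] with M hM
    have hM0 : (2 * (M : ℂ)) ≠ 0 := by
      have : (M : ℂ) ≠ 0 := by exact_mod_cast hM.ne'
      exact mul_ne_zero two_ne_zero this
    rw [Matrix.smul_apply, Matrix.of_apply, smul_eq_mul]
    unfold ln
    rw [Ent_shift, mul_add, inv_mul_cancel_left₀ hM0]

end

end Pool.Agent.KS6_79.AH
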