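import Mathlib
import Pool.Agent.KS6_79.AH.G10

/-!
The leading coefficient does not vanish.
-/

set_option autoImplicit false

namespace Pool.Agent.KS6_79.AH
open Pool.Agent.H808R2.AH
open Finset Filter Topology

section
variable {n : ℕ}

/-- the common value of the nonzero summands of the leading coefficient -/
noncomputable def Gc (p Q : ℕ) (s : ℤ) (a b : ℝ) (Pv : ℂ) : ℂ :=
  (∏ i : Fin p, Complex.exp (2 * Real.pi * Complex.I * ((b : ℂ) * ((((i : ℕ) : ℤ) + s : ℤ) : ℂ)))) *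
    (((-2) ^ Q * Pv) * ∏ j : Fin Q, Complex.exp (2 * Real.pi * Complex.I * ((a : ℂ) * (((j : ℕ) : ℂ) + 1 / 2))))

/-- the bijections sending the right summand to the first `Q` indices -/
def good (p Q : ℕ) (β : Fin p ⊕ Fin Q ≃ Fin n) : Prop := ∀ j, ((β (Sum.inr j) : Fin n) : ℕ) < Q

theorem Gp_eq (p Q : ℕ) (s : ℤ) (a b : ℝ) (θ : Fin n → ℝ) (v : Fin n → ℤ)
    (hθ1 : ∀ i : Fin n, (i : ℕ) < Q → θ i = a) (hθ2 : ∀ i : Fin n, Q ≤ (i : ℕ) → θ i = b)
    (hv : ∀ i : Fin n, Q ≤ (i : ℕ) → v i = 0) : open Classical in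
    Gp p Q s θ v = (#{β : Fin p ⊕ Fin Q ≃ Fin n | good p Q β} : ℂ) *
      Gc p Q s a b (∏ i : Fin n, if (i : ℕ) < Q then (v i : ℂ) else 1) := by
  classical
  unfold Gp
  rw [← nsmul_eq_mul, ← Finset.sum_const, Finset.sum_filter]
  refine Finset.sum_congr rfl fun β _ => ?_
  by_cases hβ : good p Q β
  · rw [if_pos hβ]
    have hl : ∀ i, Q ≤ ((β (Sum.inl i) : Fin n) : ℕ) := by
      intro i
      by_contra hlt
      push Not at hlt
      have h1 : Function.Surjective fun j : Fin Q => (⟨(β (Sum.inr j) : Fin n), hβ j⟩ : Fin Q) := by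
        apply Finite.surjective_of_injective
        intro j j' h
        have h2 : ((β (Sum.inr j) : Fin n) : ℕ) = ((β (Sum.inr j') : Fin n) : ℕ) := by
          simpa using h
        exact Sum.inr_injective (β.injective (Fin.ext h2))
      obtain ⟨j, hj⟩ := h1 ⟨_, hlt⟩
      have h2 : ((β (Sum.inr j) : Fin n) : ℕ) = ((β (Sum.inl i) : Fin n) : ℕ) := by
        simpa using hj
      have h3 := β.injective (Fin.ext h2)
      simp at h3
    unfold Gc
    congr 1
    · refine Finset.prod_congr rfl fun i _ => ?_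
      rw [hθ2 _ (hl i)]
    · have h1 : ∀ j : Fin Q, cfc (θ (β (Sum.inr j))) (v (β (Sum.inr j))) j =
          (-2 * (v (β (Sum.inr j)) : ℂ)) * Complex.exp (2 * Real.pi * Complex.I * ((a : ℂ) * (((j : ℕ) : ℂ) + 1 / 2))) := by
        intro j
        unfold cfc
        rw [hθ1 _ (hβ j)]
      rw [Finset.prod_congr rfl fun j _ => h1 j, Finset.prod_mul_distrib, Finset.prod_mul_distrib,
        Finset.prod_const, card_univ, Fintype.card_fin]
      congr 2
      rw [← Equiv.prod_comp β (fun i => if ((i : Fin n) : ℕ) < Q then (v i : ℂ) else 1), Fintype.prod_sum_type]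
      have h2 : ∏ i : Fin p, (if ((β (Sum.inl i) : Fin n) : ℕ) < Q then (v (β (Sum.inl i)) : ℂ) else 1) = 1 :=
        Finset.prod_eq_one fun i _ => if_neg (by have := hl i; omega)
      rw [h2, one_mul]
      refine Finset.prod_congr rfl fun j _ => ?_
      rw [if_pos (hβ j)]
  · rw [if_neg hβ]
    unfold good at hβ
    push Not at hβ
    obtain ⟨j, hj⟩ := hβ
    rw [Finset.prod_eq_zero (mem_univ j), mul_zero]
    unfold cfc
    rw [hv _ hj]
    simp

theorem good_pos (p Q : ℕ) (hpQ : p + Q = n) : open Classical in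
    0 < #{β : Fin p ⊕ Fin Q ≃ Fin n | good p Q β} := by
  classical
  rw [Finset.card_pos]
  refine ⟨((Equiv.sumComm (Fin p) (Fin Q)).trans finSumFinEquiv).trans (finCongr (by omega)), ?_⟩
  rw [mem_filter]
  refine ⟨mem_univ _, fun j => ?_⟩
  simp

theorem Gc_ne (p Q : ℕ) (s : ℤ) (a b : ℝ) (Pv : ℂ) (hP : Pv ≠ 0) : Gc p Q s a b Pv ≠ 0 := by
  unfold Gc
  refine mul_ne_zero (Finset.prod_ne_zero_iff.2 fun i _ => Complex.exp_ne_zero _) (mul_ne_zero
    (mul_ne_zero (pow_ne_zero _ (by norm_num)) hP) (Finset.prod_ne_zero_iff.2 fun i _ => Complex.exp_ne_zero _))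

theorem Gc_shift (p Q : ℕ) (s : ℤ) (a b : ℝ) (Pv : ℂ) :
    Gc p Q (s + 1) a b Pv = Complex.exp (2 * Real.pi * Complex.I * ((b : ℂ) * p)) * Gc p Q s a b Pv := by
  unfold Gc
  have h1 : ∀ i : Fin p, Complex.exp (2 * Real.pi * Complex.I * ((b : ℂ) * ((((i : ℕ) : ℤ) + (s + 1) : ℤ) : ℂ))) =
      Complex.exp (2 * Real.pi * Complex.I * (b : ℂ)) *
        Complex.exp (2 * Real.pi * Complex.I * ((b : ℂ) * ((((i : ℕ) : ℤ) + s : ℤ) : ℂ))) := by
    intro i
    rw [← Complex.exp_add]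
    congr 1
    push_cast
    ring
  rw [Finset.prod_congr rfl fun i _ => h1 i, Finset.prod_mul_distrib, Finset.prod_const, card_univ,
    Fintype.card_fin, ← Complex.exp_nat_mul]
  have h2 : (p : ℂ) * (2 * Real.pi * Complex.I * (b : ℂ)) = 2 * Real.pi * Complex.I * ((b : ℂ) * p) := by ring
  rw [h2]
  ring

end

end Pool.Agent.KS6_79.AH
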