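import Mathlib
import Pool.Agent.KS6_79.AH.G11

/-!
A rational point at which the limit of the response does not vanish.
-/

set_option autoImplicit false

namespace Pool.Agent.KS6_79.AH
open Pool.Agent.H808R2.AH
open Finset Filter Topology

theorem an_SS (m : ℤ) {f : ℂ → ℂ} {z : ℂ} (hf : AnalyticAt ℂ f z) : AnalyticAt ℂ (fun τ => SS (f τ) m) z := by
  unfold SS
  by_cases hm : m = 0
  · simp only [if_pos hm]
    exact analyticAt_const.sub (analyticAt_const.mul hf)
  · simp only [if_neg hm]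
    refine AnalyticAt.div_const (analyticAt_const.sub ?_)
    exact (analyticAt_const.mul (hf.mul analyticAt_const)).cexp

theorem an_Ent (p : ℕ) (s : ℤ) (j' j : ℕ) {f : ℂ → ℂ} {z : ℂ} (hf : AnalyticAt ℂ f z) :
    AnalyticAt ℂ (fun τ => Ent p s (f τ) j' j) z := by
  unfold Ent
  refine AnalyticAt.sub (AnalyticAt.mul (analyticAt_const.mul (hf.mul analyticAt_const)).cexp (an_SS _ hf)) ?_
  refine Finset.analyticAt_fun_sum _ fun i _ => ?_
  exact analyticAt_const.mul (analyticAt_const.mul (analyticAt_const.mul (hf.mul analyticAt_const)).cexp)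

theorem an_ln {n : ℕ} (θ : Fin n → ℝ) (v : Fin n → ℤ) (z : ℂ) (i : Fin n) :
    AnalyticAt ℂ (fun τ => ln θ v τ i) z := by
  unfold ln
  exact analyticAt_const.add (analyticAt_id.mul analyticAt_const)

theorem an_fp (p q : ℕ) (s : ℤ) {n : ℕ} (θ : Fin n → ℝ) (v : Fin n → ℤ) (z : ℂ) :
    AnalyticAt ℂ (fun τ => fp p q s (ln θ v τ)) z := by
  unfold fp
  refine Finset.analyticAt_fun_sum _ fun β _ => AnalyticAt.mul ?_ ?_
  · refine Finset.analyticAt_fun_prod _ fun i _ => ?_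
    exact (analyticAt_const.mul ((an_ln θ v z _).mul analyticAt_const)).cexp
  · simp only [Matrix.det_apply', Matrix.of_apply]
    refine Finset.analyticAt_fun_sum _ fun σ _ => analyticAt_const.mul ?_
    refine Finset.analyticAt_fun_prod _ fun j _ => ?_
    exact an_Ent p s _ _ (an_ln θ v z _)

/-- the limit of the response of `n` consecutive sites -/
noncomputable def ftot (n : ℕ) (ξ : Fin n → ℂ) : ℂ :=
  (-1) ^ (n / 2) * fp ((n + 1) / 2) (n / 2) 0 ξ + (-1) ^ ((n + 1) / 2) * fp (n / 2) ((n + 1) / 2) 1 ξ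

/-- the direction -/
def vd (w i : ℕ) : ℤ := if i < w then 1 else if i = w then -(w : ℤ) else 0

theorem vd_sum (w r : ℕ) : ∑ i ∈ range (w + 1 + r), vd w i = 0 := by
  rw [Finset.sum_range_add, Finset.sum_range_succ]
  have h1 : ∑ i ∈ range w, vd w i = w := by
    rw [Finset.sum_congr rfl (g := fun _ => (1 : ℤ)) fun i hi => by
      unfold vd
      rw [if_pos (mem_range.1 hi)]]
    simp
  have h2 : ∑ i ∈ range r, vd w (w + 1 + i) = 0 := by
    refine Finset.sum_eq_zero fun i _ => ?_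
    unfold vd
    rw [if_neg (by omega), if_neg (by omega)]
  rw [h1, h2]
  unfold vd
  rw [if_neg (lt_irrefl w), if_pos rfl]
  ring

theorem td_sum (Q r : ℕ) (a b : ℤ) : ∑ i ∈ range (Q + r), (if i < Q then a else b) = Q * a + r * b := by
  rw [Finset.sum_range_add]
  have h1 : ∑ i ∈ range Q, (if i < Q then a else b) = Q * a := by
    rw [Finset.sum_congr rfl fun i hi => if_pos (mem_range.1 hi)]
    simp
  have h2 : ∑ i ∈ range r, (if Q + i < Q then a else b) = r * b := by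
    rw [Finset.sum_congr rfl fun i hi => if_neg (by omega)]
    simp
  rw [h1, h2]

theorem vd_prod_ne (n w : ℕ) (hw : 1 ≤ w) :
    (∏ i : Fin n, if (i : ℕ) < w + 1 then (vd w i : ℂ) else 1) ≠ 0 := by
  refine Finset.prod_ne_zero_iff.2 fun i _ => ?_
  unfold vd
  by_cases h1 : (i : ℕ) < w
  · rw [if_pos (by omega), if_pos h1]
    norm_num
  · by_cases h2 : (i : ℕ) = w
    · rw [if_pos (by omega), if_neg h1, if_pos h2]
      have : (w : ℂ) ≠ 0 := by exact_mod_cast (by omega : w ≠ 0)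
      push_cast
      exact neg_ne_zero.2 this
    · rw [if_neg (by omega)]
      exact one_ne_zero

/-- a function with a nonzero limit at infinity (after division by a power) is nonzero near `0`
except at `0` -/
theorem near_zero {F : ℂ → ℂ} (hF : ∀ z, AnalyticAt ℂ F z) (Q : ℕ) (L : ℂ) (hL : L ≠ 0)
    (hlim : Tendsto (fun M : ℕ => F (2 * (M : ℂ)) * (((2 * (M : ℂ)))⁻¹) ^ Q) atTop (𝓝 L)) :
    ∀ᶠ z in 𝓝[≠] (0 : ℂ), F z ≠ 0 := by
  by_contra hcon
  have hfreq : ∃ᶠ z in 𝓝[≠] (0 : ℂ), F z = 0 := by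
    intro h
    exact hcon h
  have hA : AnalyticOnNhd ℂ F Set.univ := fun z _ => hF z
  have h0 := hA.eqOn_zero_of_preconnected_of_frequently_eq_zero isPreconnected_univ (Set.mem_univ 0) hfreq
  apply hL
  refine tendsto_nhds_unique hlim ?_
  refine Tendsto.congr (fun M => ?_) tendsto_const_nhds
  rw [h0 (Set.mem_univ _)]
  simp

theorem lead_even (r : ℕ) (hr : 3 ≤ r) : ∃ L : ℂ, L ≠ 0 ∧ Tendsto (fun M : ℕ =>
    ftot (2 * r) (ln (fun i : Fin (2 * r) => (((if (i : ℕ) < r then 2 * r - 1 else 2 * r + 1 : ℤ) : ℝ)) / (4 * r))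
      (fun i => vd (r - 1) i) (2 * (M : ℂ))) * (((2 * (M : ℂ)))⁻¹) ^ r) atTop (𝓝 L) := by
  classical
  set θ : Fin (2 * r) → ℝ := fun i => (((if (i : ℕ) < r then 2 * r - 1 else 2 * r + 1 : ℤ) : ℝ)) / (4 * r) with hθ
  set v : Fin (2 * r) → ℤ := fun i => vd (r - 1) i with hv
  have e1 : (2 * r + 1) / 2 = r := by omega
  have e2 : (2 * r) / 2 = r := by omega
  refine ⟨(-1) ^ r * (Gp r r 0 θ v + Gp r r 1 θ v), ?_, ?_⟩
  · set a : ℝ := (2 * r - 1) / (4 * r) with ha
    set b : ℝ := (2 * r + 1) / (4 * r) with hb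
    have hθ1 : ∀ i : Fin (2 * r), (i : ℕ) < r → θ i = a := by
      intro i hi
      rw [hθ]
      simp only
      rw [if_pos hi]
      push_cast
      rfl
    have hθ2 : ∀ i : Fin (2 * r), r ≤ (i : ℕ) → θ i = b := by
      intro i hi
      rw [hθ]
      simp only
      rw [if_neg (by omega)]
      push_cast
      rfl
    have hv2 : ∀ i : Fin (2 * r), r ≤ (i : ℕ) → v i = 0 := by
      intro i hi
      show vd (r - 1) i = 0
      unfold vd
      rw [if_neg (by omega), if_neg (by omega)]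
    rw [Gp_eq r r 0 a b θ v hθ1 hθ2 hv2, Gp_eq r r 1 a b θ v hθ1 hθ2 hv2]
    have h1 : Gc r r 1 a b (∏ i : Fin (2 * r), if (i : ℕ) < r then (v i : ℂ) else 1) =
        Complex.exp (2 * Real.pi * Complex.I * ((b : ℂ) * r)) *
          Gc r r 0 a b (∏ i : Fin (2 * r), if (i : ℕ) < r then (v i : ℂ) else 1) := by
      have := Gc_shift r r 0 a b (∏ i : Fin (2 * r), if (i : ℕ) < r then (v i : ℂ) else 1)
      rwa [zero_add] at this
    rw [h1]
    have hP : (∏ i : Fin (2 * r), if (i : ℕ) < r then (v i : ℂ) else 1) ≠ 0 := by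
      have := vd_prod_ne (2 * r) (r - 1) (by omega)
      rw [show r - 1 + 1 = r by omega] at this
      exact this
    have hG := Gc_ne r r 0 a b _ hP
    have hc : (#{β : Fin r ⊕ Fin r ≃ Fin (2 * r) | good r r β} : ℂ) ≠ 0 := by
      have := good_pos (n := 2 * r) r r (by omega)
      exact_mod_cast this.ne'
    have hE : (1 : ℂ) + Complex.exp (2 * Real.pi * Complex.I * ((b : ℂ) * r)) ≠ 0 := by
      intro h
      have h2 : Complex.exp (2 * Real.pi * Complex.I * ((b : ℂ) * r)) = -1 := by linear_combination h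
      have h3 : Complex.exp (2 * Real.pi * Complex.I * ((b : ℂ) * r)) ^ 2 = 1 := by rw [h2]; norm_num
      rw [← Complex.exp_nat_mul] at h3
      have hr0 : (r : ℂ) ≠ 0 := by exact_mod_cast (by omega : r ≠ 0)
      have h4 : ((2 : ℕ) : ℂ) * (2 * Real.pi * Complex.I * ((b : ℂ) * r)) =
          (r : ℕ) * (2 * Real.pi * Complex.I) + Real.pi * Complex.I := by
        rw [hb]
        push_cast
        field_simp
        ring
      rw [h4, Complex.exp_add, Complex.exp_nat_mul, Complex.exp_two_pi_mul_I, one_pow, Complex.exp_pi_mul_I] at h3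
      norm_num at h3
    have h5 : (-1 : ℂ) ^ r * ((#{β : Fin r ⊕ Fin r ≃ Fin (2 * r) | good r r β} : ℂ) *
        Gc r r 0 a b (∏ i : Fin (2 * r), if (i : ℕ) < r then (v i : ℂ) else 1) +
        (#{β : Fin r ⊕ Fin r ≃ Fin (2 * r) | good r r β} : ℂ) * (Complex.exp (2 * Real.pi * Complex.I * ((b : ℂ) * r)) *
          Gc r r 0 a b (∏ i : Fin (2 * r), if (i : ℕ) < r then (v i : ℂ) else 1))) =
        (-1 : ℂ) ^ r * ((#{β : Fin r ⊕ Fin r ≃ Fin (2 * r) | good r r β} : ℂ) *
          Gc r r 0 a b (∏ i : Fin (2 * r), if (i : ℕ) < r then (v i : ℂ) else 1) *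
          (1 + Complex.exp (2 * Real.pi * Complex.I * ((b : ℂ) * r)))) := by ring
    rw [h5]
    exact mul_ne_zero (pow_ne_zero _ (by norm_num)) (mul_ne_zero (mul_ne_zero hc hG) hE)
  · have h := ((lim_fp r r 0 θ v).add (lim_fp r r 1 θ v)).const_mul ((-1 : ℂ) ^ r)
    refine h.congr fun M => ?_
    unfold ftot
    rw [e1, e2]
    ring

theorem lead_odd (r : ℕ) (hr : 3 ≤ r) : ∃ L : ℂ, L ≠ 0 ∧ Tendsto (fun M : ℕ =>
    ftot (2 * r + 1) (ln (fun _ : Fin (2 * r + 1) => (r : ℝ) / (2 * r + 1))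
      (fun i => vd r i) (2 * (M : ℂ))) * (((2 * (M : ℂ)))⁻¹) ^ (r + 1)) atTop (𝓝 L) := by
  classical
  set θ : Fin (2 * r + 1) → ℝ := fun _ => (r : ℝ) / (2 * r + 1) with hθ
  set v : Fin (2 * r + 1) → ℤ := fun i => vd r i with hv
  have e1 : (2 * r + 1 + 1) / 2 = r + 1 := by omega
  have e2 : (2 * r + 1) / 2 = r := by omega
  refine ⟨(-1) ^ r * (Gp (r + 1) r 0 θ v * 0) + (-1) ^ (r + 1) * Gp r (r + 1) 1 θ v, ?_, ?_⟩
  · rw [mul_zero, mul_zero, zero_add]
    set a : ℝ := (r : ℝ) / (2 * r + 1) with ha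
    have hv2 : ∀ i : Fin (2 * r + 1), r + 1 ≤ (i : ℕ) → v i = 0 := by
      intro i hi
      show vd r i = 0
      unfold vd
      rw [if_neg (by omega), if_neg (by omega)]
    rw [Gp_eq r (r + 1) 1 a a θ v (fun _ _ => rfl) (fun _ _ => rfl) hv2]
    have hP : (∏ i : Fin (2 * r + 1), if (i : ℕ) < r + 1 then (v i : ℂ) else 1) ≠ 0 :=
      vd_prod_ne (2 * r + 1) r (by omega)
    have hG := Gc_ne r (r + 1) 1 a a _ hP
    have hc : (#{β : Fin r ⊕ Fin (r + 1) ≃ Fin (2 * r + 1) | good r (r + 1) β} : ℂ) ≠ 0 := by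
      have := good_pos (n := 2 * r + 1) r (r + 1) (by omega)
      exact_mod_cast this.ne'
    exact mul_ne_zero (pow_ne_zero _ (by norm_num)) (mul_ne_zero hc hG)
  · have h := (((lim_fp (r + 1) r 0 θ v).mul lim_M).const_mul ((-1 : ℂ) ^ r)).add
      ((lim_fp r (r + 1) 1 θ v).const_mul ((-1 : ℂ) ^ (r + 1)))
    refine h.congr fun M => ?_
    unfold ftot
    rw [e1, e2]
    ring

/-- from the limit along the even integers to a rational point -/
theorem point_of (n Q : ℕ) (hn : 6 ≤ n) (t : Fin n → ℤ) (ht1 : ∀ i, (n : ℤ) - 1 ≤ t i) (ht2 : ∀ i, t i ≤ (n : ℤ) + 1)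
    (hts : (2 * n : ℤ) ∣ ∑ i, t i) (v : Fin n → ℤ) (hvb : ∀ i, |v i| ≤ n) (hvs : ∑ i, v i = 0) (L : ℂ) (hL : L ≠ 0)
    (hlim : Tendsto (fun M : ℕ => ftot n (ln (fun i => (t i : ℝ) / (2 * n)) v (2 * (M : ℂ))) *
      (((2 * (M : ℂ)))⁻¹) ^ Q) atTop (𝓝 L)) :
    ∃ (D0 : ℕ) (P : Fin n → ℤ), 0 < D0 ∧ (∀ i, (D0 : ℤ) < 3 * P i) ∧ (∀ i, 3 * P i < 2 * D0) ∧
      ((D0 : ℤ) ∣ ∑ i, P i) ∧ ftot n (fun i => (((P i : ℝ) / D0 : ℝ) : ℂ)) ≠ 0 := by
  have hF : ∀ z, AnalyticAt ℂ (fun τ => ftot n (ln (fun i => (t i : ℝ) / (2 * n)) v τ)) z := by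
    intro z
    unfold ftot
    exact (analyticAt_const.mul (an_fp _ _ _ _ _ z)).add (analyticAt_const.mul (an_fp _ _ _ _ _ z))
  have hnz := near_zero hF Q L hL hlim
  have hseq : Tendsto (fun k : ℕ => (1 : ℂ) / ((k : ℂ) + 1)) atTop (𝓝[≠] 0) := by
    rw [tendsto_nhdsWithin_iff]
    refine ⟨tendsto_one_div_add_atTop_nhds_zero_nat, Eventually.of_forall fun M => ?_⟩
    have : (M : ℂ) + 1 ≠ 0 := by exact_mod_cast Nat.succ_ne_zero M
    simp only [Set.mem_compl_iff, Set.mem_singleton_iff]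
    exact one_div_ne_zero this
  obtain ⟨k, hk1, hk2⟩ := ((hseq.eventually hnz).and (eventually_ge_atTop (2 * n * n))).exists
  have hkZ : (2 * n * n : ℤ) ≤ k := by exact_mod_cast hk2
  have hnZ : (6 : ℤ) ≤ n := by exact_mod_cast hn
  refine ⟨2 * n * (k + 1), fun i => t i * (k + 1) + 2 * n * v i, by positivity, ?_, ?_, ?_, ?_⟩
  · intro i
    have h1 := ht1 i
    have h2 := (abs_le.1 (hvb i)).1
    push_cast
    have h3 : (0 : ℤ) ≤ (3 * t i - 2 * n - 3) * (k + 1) := by
      apply mul_nonneg <;> omega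
    nlinarith
  · intro i
    have h1 := ht2 i
    have h2 := (abs_le.1 (hvb i)).2
    push_cast
    have h3 : (0 : ℤ) ≤ (4 * n - 3 * t i - 3) * (k + 1) := by
      apply mul_nonneg <;> omega
    nlinarith
  · rw [Finset.sum_add_distrib, ← Finset.sum_mul, ← Finset.mul_sum, hvs, mul_zero, add_zero]
    push_cast
    exact mul_dvd_mul_right hts _
  · convert hk1 using 2
    funext i
    unfold ln
    have hk0 : (k : ℂ) + 1 ≠ 0 := by exact_mod_cast Nat.succ_ne_zero k
    have hn0 : (n : ℂ) ≠ 0 := by exact_mod_cast (by omega : n ≠ 0)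
    push_cast
    field_simp

theorem exists_point (n : ℕ) (hn : 6 ≤ n) : ∃ (D0 : ℕ) (P : Fin n → ℤ), 0 < D0 ∧ (∀ i, (D0 : ℤ) < 3 * P i) ∧
    (∀ i, 3 * P i < 2 * D0) ∧ ((D0 : ℤ) ∣ ∑ i, P i) ∧ ftot n (fun i => (((P i : ℝ) / D0 : ℝ) : ℂ)) ≠ 0 := by
  rcases Nat.even_or_odd' n with ⟨r, rfl | rfl⟩
  · obtain ⟨L, hL, hlim⟩ := lead_even r (by omega)
    refine point_of (2 * r) r hn (fun i => if (i : ℕ) < r then 2 * r - 1 else 2 * r + 1) ?_ ?_ ?_
      (fun i => vd (r - 1) i) ?_ ?_ L hL ?_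
    · intro i
      split_ifs <;> push_cast <;> omega
    · intro i
      split_ifs <;> push_cast <;> omega
    · rw [Fin.sum_univ_eq_sum_range (fun i => if i < r then (2 * r - 1 : ℤ) else 2 * r + 1) (2 * r)]
      rw [show 2 * r = r + r by ring]
      rw [td_sum]
      exact ⟨r, by push_cast; ring⟩
    · intro i
      have := i.isLt
      unfold vd
      rw [abs_le]
      push_cast
      split_ifs <;> constructor <;> omega
    · rw [Fin.sum_univ_eq_sum_range (fun i => vd (r - 1) i) (2 * r)]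
      rw [show 2 * r = r - 1 + 1 + r by omega]
      exact vd_sum _ _
    · refine hlim.congr fun M => ?_
      congr 3
      funext i
      push_cast
      ring
  · obtain ⟨L, hL, hlim⟩ := lead_odd r (by omega)
    refine point_of (2 * r + 1) (r + 1) hn (fun i => 2 * r) ?_ ?_ ?_
      (fun i => vd r i) ?_ ?_ L hL ?_
    · intro i
      push_cast
      omega
    · intro i
      push_cast
      omega
    · simp only [sum_const, card_univ, Fintype.card_fin, nsmul_eq_mul]
      exact ⟨r, by push_cast; ring⟩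
    · intro i
      have := i.isLt
      unfold vd
      rw [abs_le]
      push_cast
      split_ifs <;> constructor <;> omega
    · rw [Fin.sum_univ_eq_sum_range (fun i => vd r i) (2 * r + 1)]
      rw [show 2 * r + 1 = r + 1 + r by omega]
      exact vd_sum _ _
    · refine hlim.congr fun M => ?_
      congr 3
      funext i
      push_cast
      have : (2 * (r : ℝ) + 1) ≠ 0 := by positivity
      field_simp

end Pool.Agent.KS6_79.AH
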