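import Mathlib
import Pool.Agent.KS6_79.AH.G12
import Pool.Graph.R_seed8.H808R2.AH.F2

/-!
Averages over windows of frequencies.
-/

set_option autoImplicit false
set_option linter.unusedSectionVars false

namespace Pool.Agent.KS6_79.AH
open Pool.Agent.H808R2.AH
open Finset Filter Topology

section
variable (N : ℕ) [NeZero N]

/-- an exponential times a Fejér kernel -/
noncomputable def hF (K : ℕ) (k : ℤ) (x : ZMod N) : ℂ := ex N k x * (fejer N K x : ℂ)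

theorem ex_add (k : ℤ) (x y : ZMod N) : ex N k (x + y) = ex N k x * ex N k y := by
  unfold ex
  rw [mul_add, AddChar.map_add_eq_mul]

theorem prod_ex {n : ℕ} (κ : Fin n → ℤ) (y : ZMod N) : ∏ i, ex N (κ i) y = ex N (∑ i, κ i) y := by
  classical
  have h : ∀ s : Finset (Fin n), ∏ i ∈ s, ex N (κ i) y = ex N (∑ i ∈ s, κ i) y := by
    intro s
    induction s using Finset.induction_on with
    | empty => simp [ex]
    | insert i s hi ih =>
      rw [Finset.prod_insert hi, Finset.sum_insert hi, ih]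
      unfold ex
      rw [← AddChar.map_add_eq_mul]
      congr 1
      push_cast
      ring
  exact h univ

theorem hF_eq (K : ℕ) (k : ℤ) (x : ZMod N) : hF N K k x =
    (1 / (K : ℂ) ^ 2) * ∑ P ∈ range K ×ˢ range K, ex N (k + (P.1 : ℤ) - (P.2 : ℤ)) x := by
  unfold hF fejer
  have h1 : ((‖∑ j ∈ range K, (ZMod.stdAddChar ((j : ZMod N) * x) : ℂ)‖ ^ 2 : ℝ) : ℂ) =
      ∑ P ∈ range K ×ˢ range K, (ZMod.stdAddChar ((P.1 : ZMod N) * x) : ℂ) *
        ZMod.stdAddChar (-((P.2 : ZMod N) * x)) := by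
    rw [← Complex.normSq_eq_norm_sq, ← Complex.mul_conj, map_sum, Finset.sum_mul_sum, ← Finset.sum_product']
    refine Finset.sum_congr rfl fun P _ => ?_
    rw [conj_char]
  push_cast at h1 ⊢
  rw [h1, mul_left_comm, Finset.mul_sum]
  congr 1
  refine Finset.sum_congr rfl fun P _ => ?_
  unfold ex
  rw [← AddChar.map_add_eq_mul, ← AddChar.map_add_eq_mul]
  congr 1
  push_cast
  ring

/-- the weight of a choice of frequencies -/
noncomputable def wJ {n : ℕ} (κ : Fin n → ℤ) : ℝ := if ((∑ i, κ i : ℤ) : ZMod N) = 0 then N else 0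

theorem wJ_nonneg {n : ℕ} (κ : Fin n → ℤ) : 0 ≤ wJ N κ := by
  unfold wJ
  split_ifs <;> positivity

theorem R_expand {n : ℕ} (K : ℕ) (k : Fin n → ℤ) (Ω : (Fin n → ZMod N) → ℂ) :
    ∑ t : ZMod N, ∑ x : Fin n → ZMod N, (∏ i, hF N K (k i) (x i - t)) * Ω x =
      (1 / (K : ℂ) ^ 2) ^ n * ∑ J ∈ Fintype.piFinset (fun _ : Fin n => range K ×ˢ range K),
        (wJ N (fun i => k i + ((J i).1 : ℤ) - ((J i).2 : ℤ)) : ℂ) *
          ∑ x : Fin n → ZMod N, (∏ i, ex N (k i + ((J i).1 : ℤ) - ((J i).2 : ℤ)) (x i)) * Ω x := by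
  have h1 : ∀ (t : ZMod N) (x : Fin n → ZMod N), (∏ i, hF N K (k i) (x i - t)) * Ω x =
      (1 / (K : ℂ) ^ 2) ^ n * ∑ J ∈ Fintype.piFinset (fun _ : Fin n => range K ×ˢ range K),
        (∏ i, ex N (k i + ((J i).1 : ℤ) - ((J i).2 : ℤ)) (-t)) *
          ((∏ i, ex N (k i + ((J i).1 : ℤ) - ((J i).2 : ℤ)) (x i)) * Ω x) := by
    intro t x
    have e1 : ∏ i, hF N K (k i) (x i - t) = (1 / (K : ℂ) ^ 2) ^ n *
        ∑ J ∈ Fintype.piFinset (fun _ : Fin n => range K ×ˢ range K),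
          ∏ i, ex N (k i + ((J i).1 : ℤ) - ((J i).2 : ℤ)) (x i - t) := by
      rw [Finset.prod_congr rfl fun i _ => hF_eq N K (k i) (x i - t), Finset.prod_mul_distrib, Finset.prod_const,
        card_univ, Fintype.card_fin, Finset.prod_univ_sum]
    rw [e1, mul_assoc, Finset.sum_mul]
    congr 1
    refine Finset.sum_congr rfl fun J _ => ?_
    rw [← mul_assoc, ← Finset.prod_mul_distrib]
    congr 1
    refine Finset.prod_congr rfl fun i _ => ?_
    rw [show x i - t = x i + -t from sub_eq_add_neg _ _, ex_add, mul_comm]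
  rw [Finset.sum_congr rfl fun t _ => Finset.sum_congr rfl fun x _ => h1 t x]
  simp only [← Finset.mul_sum]
  congr 1
  have h2 : ∀ t : ZMod N, ∑ x : Fin n → ZMod N, ∑ J ∈ Fintype.piFinset (fun _ : Fin n => range K ×ˢ range K),
        (∏ i, ex N (k i + ((J i).1 : ℤ) - ((J i).2 : ℤ)) (-t)) *
          ((∏ i, ex N (k i + ((J i).1 : ℤ) - ((J i).2 : ℤ)) (x i)) * Ω x) =
      ∑ J ∈ Fintype.piFinset (fun _ : Fin n => range K ×ˢ range K),
        (∏ i, ex N (k i + ((J i).1 : ℤ) - ((J i).2 : ℤ)) (-t)) *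
          ∑ x : Fin n → ZMod N, ((∏ i, ex N (k i + ((J i).1 : ℤ) - ((J i).2 : ℤ)) (x i)) * Ω x) := by
    intro t
    rw [Finset.sum_comm]
    refine Finset.sum_congr rfl fun J _ => ?_
    rw [Finset.mul_sum]
  rw [Finset.sum_congr rfl fun t _ => h2 t, Finset.sum_comm]
  refine Finset.sum_congr rfl fun J _ => ?_
  rw [← Finset.sum_mul]
  congr 1
  set κ : Fin n → ℤ := fun i => k i + ((J i).1 : ℤ) - ((J i).2 : ℤ) with hκ
  have h3 : ∀ t : ZMod N, ∏ i, ex N (κ i) (-t) = ZMod.stdAddChar ((-t) * ((∑ i, κ i : ℤ) : ZMod N)) := by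
    intro t
    rw [prod_ex]
    unfold ex
    rw [mul_comm]
  rw [Finset.sum_congr rfl fun t _ => h3 t]
  have h4 := Equiv.sum_comp (Equiv.neg (ZMod N)) (fun t => (ZMod.stdAddChar (t * ((∑ i, κ i : ℤ) : ZMod N)) : ℂ))
  simp only [Equiv.neg_apply] at h4
  rw [h4, sum_char]
  unfold wJ
  split_ifs <;> simp

theorem fejer_zero (K : ℕ) (hK : 1 ≤ K) : fejer N K 0 = 1 := by
  unfold fejer
  simp only [mul_zero, AddChar.map_zero_eq_one, sum_const, card_range, nsmul_eq_mul, mul_one]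
  rw [Complex.norm_natCast]
  have : (K : ℝ) ≠ 0 := by exact_mod_cast (by omega : K ≠ 0)
  field_simp

/-- the total weight -/
theorem W_ge {n : ℕ} (K : ℕ) (hK : 1 ≤ K) (k : Fin n → ℤ) (hk : ((∑ i, k i : ℤ) : ZMod N) = 0) :
    1 ≤ (1 / (K : ℝ) ^ 2) ^ n * ∑ J ∈ Fintype.piFinset (fun _ : Fin n => range K ×ˢ range K),
        wJ N (fun i => k i + ((J i).1 : ℤ) - ((J i).2 : ℤ)) := by
  classical
  have h1 := R_expand N K k (fun x => if x = 0 then 1 else 0)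
  have h2 : ∀ κ : Fin n → ℤ, ∑ x : Fin n → ZMod N, (∏ i, ex N (κ i) (x i)) * (if x = 0 then (1 : ℂ) else 0) = 1 := by
    intro κ
    rw [Finset.sum_eq_single (0 : Fin n → ZMod N)]
    · simp [ex]
    · intro x _ hx
      rw [if_neg hx, mul_zero]
    · intro h
      exact absurd (mem_univ _) h
  have h3 : ∀ t : ZMod N, ∑ x : Fin n → ZMod N, (∏ i, hF N K (k i) (x i - t)) * (if x = 0 then (1 : ℂ) else 0) =
      ((fejer N K (-t) ^ n : ℝ) : ℂ) := by
    intro t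
    rw [Finset.sum_eq_single (0 : Fin n → ZMod N)]
    · rw [if_pos rfl, mul_one]
      simp only [Pi.zero_apply, zero_sub]
      unfold hF
      rw [Finset.prod_mul_distrib, Finset.prod_const, card_univ, Fintype.card_fin]
      have e1 : ∏ i, ex N (k i) (-t) = 1 := by
        rw [prod_ex]
        unfold ex
        rw [hk, zero_mul, AddChar.map_zero_eq_one]
      rw [e1, one_mul]
      push_cast
      rfl
    · intro x _ hx
      rw [if_neg hx, mul_zero]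
    · intro h
      exact absurd (mem_univ _) h
  rw [Finset.sum_congr rfl fun t _ => h3 t] at h1
  simp only [h2, mul_one] at h1
  have h4 : ∑ t : ZMod N, fejer N K (-t) ^ n = (1 / (K : ℝ) ^ 2) ^ n *
      ∑ J ∈ Fintype.piFinset (fun _ : Fin n => range K ×ˢ range K),
        wJ N (fun i => k i + ((J i).1 : ℤ) - ((J i).2 : ℤ)) := by
    have : ((∑ t : ZMod N, fejer N K (-t) ^ n : ℝ) : ℂ) = (((1 / (K : ℝ) ^ 2) ^ n *
      ∑ J ∈ Fintype.piFinset (fun _ : Fin n => range K ×ˢ range K),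
        wJ N (fun i => k i + ((J i).1 : ℤ) - ((J i).2 : ℤ)) : ℝ) : ℂ) := by
      push_cast
      rw [← h1]
      push_cast
      rfl
    exact_mod_cast this
  rw [← h4]
  have h5 : fejer N K (-0) ^ n ≤ ∑ t : ZMod N, fejer N K (-t) ^ n :=
    Finset.single_le_sum (f := fun t : ZMod N => fejer N K (-t) ^ n)
      (fun t _ => pow_nonneg (F2_range N K hK (-t)).1 n) (mem_univ 0)
  rw [neg_zero, fejer_zero N K hK, one_pow] at h5
  exact h5

/-- lower bound of the response to a window of frequencies -/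
theorem R_lower {n : ℕ} (K : ℕ) (hK : 1 ≤ K) (k : Fin n → ℤ) (hk : ((∑ i, k i : ℤ) : ZMod N) = 0)
    (Ω : (Fin n → ZMod N) → ℂ) (F : ℂ) (η : ℝ) (hη : η ≤ ‖F‖)
    (hρ : ∀ κ : Fin n → ℤ, (∀ i, |κ i - k i| < K) →
      ‖∑ x : Fin n → ZMod N, (∏ i, ex N (κ i) (x i)) * Ω x - F‖ ≤ η) :
    ‖F‖ - η ≤ ‖∑ t : ZMod N, ∑ x : Fin n → ZMod N, (∏ i, hF N K (k i) (x i - t)) * Ω x‖ := by
  have hW := W_ge N K hK k hk
  rw [R_expand]
  set PJ := Fintype.piFinset (fun _ : Fin n => range K ×ˢ range K) with hPJ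
  set c : ℝ := (1 / (K : ℝ) ^ 2) ^ n with hc
  have hc0 : 0 ≤ c := by positivity
  have hcC : (1 / (K : ℂ) ^ 2) ^ n = (c : ℂ) := by rw [hc]; push_cast; rfl
  rw [hcC]
  set w : (Fin n → ℕ × ℕ) → ℝ := fun J => wJ N (fun i => k i + ((J i).1 : ℤ) - ((J i).2 : ℤ)) with hw
  set ρ : (Fin n → ℕ × ℕ) → ℂ := fun J => ∑ x : Fin n → ZMod N,
    (∏ i, ex N (k i + ((J i).1 : ℤ) - ((J i).2 : ℤ)) (x i)) * Ω x with hρd
  change 1 ≤ c * ∑ J ∈ PJ, w J at hW
  change ‖F‖ - η ≤ ‖(c : ℂ) * ∑ J ∈ PJ, (w J : ℂ) * ρ J‖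
  have h1 : (c : ℂ) * ∑ J ∈ PJ, (w J : ℂ) * ρ J = ((c * ∑ J ∈ PJ, w J : ℝ) : ℂ) * F +
      (c : ℂ) * ∑ J ∈ PJ, (w J : ℂ) * (ρ J - F) := by
    simp only [mul_sub, Finset.sum_sub_distrib]
    rw [← Finset.sum_mul]
    push_cast
    ring
  have h2 : ‖(c : ℂ) * ∑ J ∈ PJ, (w J : ℂ) * (ρ J - F)‖ ≤ (c * ∑ J ∈ PJ, w J) * η := by
    rw [norm_mul, Complex.norm_real, Real.norm_of_nonneg hc0, mul_assoc]
    refine mul_le_mul_of_nonneg_left ?_ hc0
    refine (norm_sum_le _ _).trans ?_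
    rw [Finset.sum_mul]
    refine Finset.sum_le_sum fun J hJ => ?_
    rw [norm_mul, Complex.norm_real, Real.norm_of_nonneg (wJ_nonneg N _)]
    refine mul_le_mul_of_nonneg_left ?_ (wJ_nonneg N _)
    refine hρ (fun i => k i + ((J i).1 : ℤ) - ((J i).2 : ℤ)) fun i => ?_
    rw [hPJ, Fintype.mem_piFinset] at hJ
    have := hJ i
    rw [mem_product, mem_range, mem_range] at this
    rw [abs_lt]
    constructor <;> omega
  have hW0 : 0 ≤ c * ∑ J ∈ PJ, w J := by linarith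
  have h3 : ‖((c * ∑ J ∈ PJ, w J : ℝ) : ℂ) * F‖ = (c * ∑ J ∈ PJ, w J) * ‖F‖ := by
    rw [norm_mul, Complex.norm_real, Real.norm_of_nonneg hW0]
  have h4 : ‖((c * ∑ J ∈ PJ, w J : ℝ) : ℂ) * F‖ - ‖(c : ℂ) * ∑ J ∈ PJ, (w J : ℂ) * (ρ J - F)‖ ≤
      ‖(c : ℂ) * ∑ J ∈ PJ, (w J : ℂ) * ρ J‖ := by
    rw [h1]
    have := norm_sub_le_norm_add (((c * ∑ J ∈ PJ, w J : ℝ) : ℂ) * F) ((c : ℂ) * ∑ J ∈ PJ, (w J : ℂ) * (ρ J - F))
    linarith
  rw [h3] at h4
  nlinarith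

end

end Pool.Agent.KS6_79.AH
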