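import Mathlib
import Pool.Agent.KS6_79.AH.G13

/-!
Real functions of high frequency with a response bounded from below.
-/

set_option autoImplicit false
set_option linter.unusedSectionVars false

namespace Pool.Agent.KS6_79.AH
open Pool.Agent.H808R2.AH
open Finset Filter Topology

section
variable (N : ℕ) [NeZero N]

theorem far_hF (K : ℕ) (k : ℤ) (h1 : (N : ℤ) + 3 * K ≤ 3 * k) (h2 : 3 * k + 3 * K ≤ 2 * (N : ℤ)) (m : ℤ)
    (hm : 3 * |m| < N) : ∑ x : ZMod N, hF N K k x * ZMod.stdAddChar ((m : ZMod N) * x) = 0 := by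
  have e1 : ∀ x : ZMod N, hF N K k x * ZMod.stdAddChar ((m : ZMod N) * x) =
      (1 / (K : ℂ) ^ 2) * ∑ P ∈ range K ×ˢ range K,
        (ZMod.stdAddChar (x * ((k + (P.1 : ℤ) - (P.2 : ℤ) + m : ℤ) : ZMod N)) : ℂ) := by
    intro x
    rw [hF_eq, mul_assoc, Finset.sum_mul]
    congr 1
    refine Finset.sum_congr rfl fun P _ => ?_
    unfold ex
    rw [← AddChar.map_add_eq_mul]
    congr 1
    push_cast
    ring
  rw [Finset.sum_congr rfl fun x _ => e1 x, ← Finset.mul_sum, Finset.sum_comm, Finset.sum_eq_zero, mul_zero]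
  intro P hP
  rw [mem_product, mem_range, mem_range] at hP
  rw [sum_char, if_neg]
  intro h
  rw [ZMod.intCast_zmod_eq_zero_iff_dvd] at h
  have h3 := abs_le.1 (le_refl |m|)
  have h4 : (0 : ℤ) < k + (P.1 : ℤ) - (P.2 : ℤ) + m := by omega
  have h5 : k + (P.1 : ℤ) - (P.2 : ℤ) + m < N := by omega
  have := Int.le_of_dvd h4 h
  omega

theorem far_re_im (z : ZMod N → ℂ) (hz : ∀ m : ℤ, 3 * |m| < N →
    ∑ x : ZMod N, z x * ZMod.stdAddChar ((m : ZMod N) * x) = 0) :
    FarSupp N (fun x => (z x).re) ∧ FarSupp N (fun x => (z x).im) := by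
  have hconj : ∀ m : ℤ, 3 * |m| < N →
      ∑ x : ZMod N, (starRingEnd ℂ) (z x) * ZMod.stdAddChar ((m : ZMod N) * x) = 0 := by
    intro m hm
    have h := hz (-m) (by rwa [abs_neg])
    have h2 := congrArg (starRingEnd ℂ) h
    rw [map_sum, map_zero] at h2
    rw [← h2]
    refine Finset.sum_congr rfl fun x _ => ?_
    rw [(starRingEnd ℂ).map_mul, conj_char]
    congr 2
    push_cast
    ring
  constructor
  · intro m hm
    have h1 := hz m hm
    have h2 := hconj m hm
    have h3 : ∀ x : ZMod N, (((z x).re : ℝ) : ℂ) * ZMod.stdAddChar ((m : ZMod N) * x) =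
        (1 / 2) * (z x * ZMod.stdAddChar ((m : ZMod N) * x)) +
          (1 / 2) * ((starRingEnd ℂ) (z x) * ZMod.stdAddChar ((m : ZMod N) * x)) := by
      intro x
      rw [Complex.re_eq_add_conj]
      ring
    simp only [h3]
    rw [Finset.sum_add_distrib, ← Finset.mul_sum, ← Finset.mul_sum, h1, h2]
    simp
  · intro m hm
    have h1 := hz m hm
    have h2 := hconj m hm
    have h3 : ∀ x : ZMod N, (((z x).im : ℝ) : ℂ) * ZMod.stdAddChar ((m : ZMod N) * x) =
        (1 / (2 * Complex.I)) * (z x * ZMod.stdAddChar ((m : ZMod N) * x)) -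
          (1 / (2 * Complex.I)) * ((starRingEnd ℂ) (z x) * ZMod.stdAddChar ((m : ZMod N) * x)) := by
      intro x
      rw [Complex.im_eq_sub_conj]
      ring
    simp only [h3]
    rw [Finset.sum_sub_distrib, ← Finset.mul_sum, ← Finset.mul_sum, h1, h2]
    simp

theorem l1_hF (L K : ℕ) (hL : 1 ≤ L) (hK : 1 ≤ K) (hN : N = L * K) (k : ℤ) :
    ∑ x : ZMod N, ‖hF N K k x‖ = L := by
  subst hN
  have h1 : ∀ x : ZMod (L * K), ‖hF (L * K) K k x‖ = fejer (L * K) K x := by
    intro x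
    unfold hF ex
    rw [norm_mul, Complex.norm_real, Real.norm_of_nonneg (F2_range (L * K) K hK x).1]
    have : ‖(ZMod.stdAddChar ((k : ZMod (L * K)) * x) : ℂ)‖ = 1 := F2.norm_e _
    rw [this, one_mul]
  rw [Finset.sum_congr rfl fun x _ => h1 x]
  exact F2_sum L K hK hL

/-- the response form -/
noncomputable def Rf {n : ℕ} (Ω : (Fin n → ZMod N) → ℝ) (z : Fin n → ZMod N → ℂ) : ℂ :=
  ∑ t : ZMod N, ∑ x : Fin n → ZMod N, (∏ i, z i (x i - t)) * (Ω x : ℂ)

/-- replacing complex functions by real or imaginary parts -/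
theorem re_im {n : ℕ} (Ω : (Fin n → ZMod N) → ℝ) (z : Fin n → ZMod N → ℂ) :
    ∃ g : Fin n → ZMod N → ℝ, (∀ i, (g i = fun x => (z i x).re) ∨ g i = fun x => (z i x).im) ∧
      ‖Rf N Ω z‖ ≤ 2 ^ n * |∑ t : ZMod N, ∑ x : Fin n → ZMod N, (∏ i, g i (x i - t)) * Ω x| := by
  classical
  let G : (Fin n → Bool) → Fin n → ZMod N → ℝ := fun c i x => if c i then (z i x).re else (z i x).im
  let u : (Fin n → Bool) → ℂ := fun c => ∏ i, if c i then 1 else Complex.I
  have hexp : Rf N Ω z = ∑ c : Fin n → Bool, u c *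
      ((∑ t : ZMod N, ∑ x : Fin n → ZMod N, (∏ i, G c i (x i - t)) * Ω x : ℝ) : ℂ) := by
    have h1 : ∀ (t : ZMod N) (x : Fin n → ZMod N), (∏ i, z i (x i - t)) * (Ω x : ℂ) =
        ∑ c : Fin n → Bool, u c * (((∏ i, G c i (x i - t)) * Ω x : ℝ) : ℂ) := by
      intro t x
      have e1 : ∏ i, z i (x i - t) = ∑ c : Fin n → Bool, ∏ i, ((if c i then 1 else Complex.I) *
          ((G c i (x i - t) : ℝ) : ℂ)) := by
        have e2 : ∀ i, z i (x i - t) = ∑ b : Bool, (if b then 1 else Complex.I) *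
            (((if b then (z i (x i - t)).re else (z i (x i - t)).im : ℝ)) : ℂ) := by
          intro i
          rw [Fintype.sum_bool]
          simp only [if_true, Bool.false_eq_true, if_false, one_mul]
          rw [mul_comm Complex.I]
          exact (Complex.re_add_im _).symm
        rw [Finset.prod_congr rfl fun i _ => e2 i, Finset.prod_univ_sum, Fintype.piFinset_univ]
      rw [e1, Finset.sum_mul]
      refine Finset.sum_congr rfl fun c _ => ?_
      rw [Finset.prod_mul_distrib]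
      push_cast
      ring
    unfold Rf
    rw [Finset.sum_congr rfl fun t _ => Finset.sum_congr rfl fun x _ => h1 t x]
    rw [Finset.sum_congr rfl fun t _ => Finset.sum_comm, Finset.sum_comm]
    refine Finset.sum_congr rfl fun c _ => ?_
    rw [Complex.ofReal_sum, Finset.mul_sum]
    refine Finset.sum_congr rfl fun t _ => ?_
    rw [Complex.ofReal_sum, Finset.mul_sum]
  have hu : ∀ c, ‖u c‖ = 1 := by
    intro c
    show ‖∏ i, (if c i then (1 : ℂ) else Complex.I)‖ = 1
    rw [norm_prod]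
    refine Finset.prod_eq_one fun i _ => ?_
    split_ifs <;> simp
  obtain ⟨c, -, hc⟩ := Finset.exists_max_image (univ : Finset (Fin n → Bool))
    (fun c => |∑ t : ZMod N, ∑ x : Fin n → ZMod N, (∏ i, G c i (x i - t)) * Ω x|) univ_nonempty
  refine ⟨G c, ?_, ?_⟩
  · intro i
    by_cases h : c i
    · left
      funext x
      show (if c i then (z i x).re else (z i x).im) = _
      rw [if_pos h]
    · right
      funext x
      show (if c i then (z i x).re else (z i x).im) = _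
      rw [if_neg h]
  · rw [hexp]
    refine (norm_sum_le _ _).trans ?_
    have h2 : ∀ c' ∈ (univ : Finset (Fin n → Bool)), ‖u c' *
        ((∑ t : ZMod N, ∑ x : Fin n → ZMod N, (∏ i, G c' i (x i - t)) * Ω x : ℝ) : ℂ)‖ ≤
        |∑ t : ZMod N, ∑ x : Fin n → ZMod N, (∏ i, G c i (x i - t)) * Ω x| := by
      intro c' _
      rw [norm_mul, hu, one_mul, Complex.norm_real]
      exact hc c' (mem_univ _)
    refine (Finset.sum_le_card_nsmul _ _ _ h2).trans ?_
    rw [card_univ, nsmul_eq_mul]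
    simp

/-- the response of `n` consecutive sites, both parities of the starting site -/
noncomputable def Omt (n : ℕ) (x : Fin n → ZMod N) : ℝ := open Classical in
  (1 / 2) ^ ((n + 1) / 2) * Om (univ.image (ae N ((n + 1) / 2) 0)) (univ.image (bo N (n / 2))) x +
  (1 / 2) ^ (n / 2) * Om (univ.image (ae N (n / 2) 1)) (univ.image (bo N ((n + 1) / 2))) x

theorem Omt_RS (n : ℕ) (hN : (n + 1) / 2 ≤ N) (z : Fin n → ZMod N → ℂ) :
    ∑ x : Fin n → ZMod N, (∏ i, z i (x i)) * (Omt N n x : ℂ) = (1 / 2) ^ n *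
      ((-1) ^ (n / 2) * RS (ae N ((n + 1) / 2) 0) (bo N (n / 2)) z +
        (-1) ^ ((n + 1) / 2) * RS (ae N (n / 2) 1) (bo N ((n + 1) / 2)) z) := by
  classical
  have h1 := resp_RS (n := n) (p := (n + 1) / 2) (q := n / 2) (by omega) (ae N ((n + 1) / 2) 0) (ae_inj hN 0)
    (bo N (n / 2)) (bo_inj (by omega)) z
  have h2 := resp_RS (n := n) (p := n / 2) (q := (n + 1) / 2) (by omega) (ae N (n / 2) 1) (ae_inj (by omega) 1)
    (bo N ((n + 1) / 2)) (bo_inj hN) z
  have h3 : ∀ x : Fin n → ZMod N, (∏ i, z i (x i)) * (Omt N n x : ℂ) =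
      (1 / 2) ^ ((n + 1) / 2) * ((∏ i, z i (x i)) *
        (Om (univ.image (ae N ((n + 1) / 2) 0)) (univ.image (bo N (n / 2))) x : ℂ)) +
      (1 / 2) ^ (n / 2) * ((∏ i, z i (x i)) *
        (Om (univ.image (ae N (n / 2) 1)) (univ.image (bo N ((n + 1) / 2))) x : ℂ)) := by
    intro x
    unfold Omt
    push_cast
    ring
  rw [Finset.sum_congr rfl fun x _ => h3 x, Finset.sum_add_distrib, ← Finset.mul_sum, ← Finset.mul_sum]
  have h4 : ∑ x : Fin n → ZMod N, (∏ i, z i (x i)) *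
        (Om (univ.image (ae N ((n + 1) / 2) 0)) (univ.image (bo N (n / 2))) x : ℂ) =
      (-1 / 2) ^ (n / 2) * RS (ae N ((n + 1) / 2) 0) (bo N (n / 2)) z := by
    rw [← h1]
  have h5 : ∑ x : Fin n → ZMod N, (∏ i, z i (x i)) *
        (Om (univ.image (ae N (n / 2) 1)) (univ.image (bo N ((n + 1) / 2))) x : ℂ) =
      (-1 / 2) ^ ((n + 1) / 2) * RS (ae N (n / 2) 1) (bo N ((n + 1) / 2)) z := by
    rw [← h2]
  rw [h4, h5]
  have h6 : (1 / 2 : ℂ) ^ n = (1 / 2) ^ ((n + 1) / 2) * (1 / 2) ^ (n / 2) := by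
    rw [← pow_add]
    congr 1
    omega
  have h7 : ∀ q : ℕ, (-1 / 2 : ℂ) ^ q = (-1) ^ q * (1 / 2) ^ q := by
    intro q
    rw [← mul_pow]
    norm_num
  rw [h6, h7, h7]
  ring

end

end Pool.Agent.KS6_79.AH
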