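import Mathlib
import Pool.Agent.KS6_79.AH.G14

/-!
Existence of interactions of high frequency that change the probability of `n` consecutive occupied
sites by an amount bounded from below.
-/

set_option autoImplicit false

namespace Pool.Agent.KS6_79.AH
open Pool.Agent.H808R2.AH
open Finset Filter Topology

/-- uniform version of the limit of the response to exponentials -/
theorem unif {n : ℕ} (ξ : Fin n → ℝ) (h0 : ∀ i, 0 < ξ i) (h1 : ∀ i, ξ i < 1) (η : ℝ) (hη : 0 < η) :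
    ∃ (M0 : ℕ) (δ : ℝ), 0 < δ ∧ ∀ (M : ℕ) (κ : Fin n → ℤ), M0 ≤ M →
      (∀ i, |(κ i : ℝ) / ((M : ℝ) + 1) - ξ i| < δ) →
      ‖∑ x : Fin n → ZMod (M + 1), (∏ i, ex (M + 1) (κ i) (x i)) * (Omt (M + 1) n x : ℂ) -
        (1 / 2) ^ n * ftot n (fun i => (ξ i : ℂ))‖ ≤ η := by
  set l : Filter (ℕ × (Fin n → ℤ)) := (atTop.comap Prod.fst) ⊓
    ((𝓝 ξ).comap fun w i => (w.2 i : ℝ) / ((w.1 : ℝ) + 1)) with hl
  have hM : Tendsto (Prod.fst : ℕ × (Fin n → ℤ) → ℕ) l atTop := tendsto_comap.mono_left inf_le_left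
  have hκ : Tendsto (fun (w : ℕ × (Fin n → ℤ)) i => (w.2 i : ℝ) / ((w.1 : ℝ) + 1)) l (𝓝 ξ) :=
    tendsto_comap.mono_left inf_le_right
  have hκi : ∀ i, Tendsto (fun w : ℕ × (Fin n → ℤ) => (w.2 i : ℝ) / ((w.1 : ℝ) + 1)) l (𝓝 (ξ i)) :=
    fun i => (tendsto_pi_nhds.1 hκ) i
  have hlim : Tendsto (fun w : ℕ × (Fin n → ℤ) => (1 / 2 : ℂ) ^ n *
      ((-1) ^ (n / 2) * RS (ae (w.1 + 1) ((n + 1) / 2) 0) (bo (w.1 + 1) (n / 2)) (fun i => ex (w.1 + 1) (w.2 i)) +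
        (-1) ^ ((n + 1) / 2) * RS (ae (w.1 + 1) (n / 2) 1) (bo (w.1 + 1) ((n + 1) / 2))
          (fun i => ex (w.1 + 1) (w.2 i)))) l (𝓝 ((1 / 2) ^ n * ftot n (fun i => (ξ i : ℂ)))) := by
    refine Tendsto.const_mul _ ?_
    exact ((lim_RS Prod.fst hM Prod.snd ξ hκi h0 h1 _ _ 0).const_mul _).add
      ((lim_RS Prod.fst hM Prod.snd ξ hκi h0 h1 _ _ 1).const_mul _)
  have hev : ∀ᶠ w in l, ‖(1 / 2 : ℂ) ^ n *
      ((-1) ^ (n / 2) * RS (ae (w.1 + 1) ((n + 1) / 2) 0) (bo (w.1 + 1) (n / 2)) (fun i => ex (w.1 + 1) (w.2 i)) +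
        (-1) ^ ((n + 1) / 2) * RS (ae (w.1 + 1) (n / 2) 1) (bo (w.1 + 1) ((n + 1) / 2))
          (fun i => ex (w.1 + 1) (w.2 i))) - (1 / 2) ^ n * ftot n (fun i => (ξ i : ℂ))‖ < η := by
    have h := Metric.tendsto_nhds.1 hlim η hη
    simpa only [dist_eq_norm] using h
  have hbas : l.HasBasis (fun i : ℕ × ℝ => True ∧ 0 < i.2) (fun i => (Prod.fst ⁻¹' Set.Ici i.1) ∩
      ((fun (w : ℕ × (Fin n → ℤ)) i => (w.2 i : ℝ) / ((w.1 : ℝ) + 1)) ⁻¹' Metric.ball ξ i.2)) :=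
    (atTop_basis.comap Prod.fst).inf (Metric.nhds_basis_ball.comap _)
  obtain ⟨⟨M0, δ⟩, ⟨-, hδ⟩, h⟩ := hbas.eventually_iff.1 hev
  refine ⟨max M0 ((n + 1) / 2), δ, hδ, fun M κ hM1 hκ1 => ?_⟩
  have hmem : ((M, κ) : ℕ × (Fin n → ℤ)) ∈ (Prod.fst ⁻¹' Set.Ici M0) ∩
      ((fun (w : ℕ × (Fin n → ℤ)) i => (w.2 i : ℝ) / ((w.1 : ℝ) + 1)) ⁻¹' Metric.ball ξ δ) := by
    refine ⟨le_trans (le_max_left _ _) hM1, ?_⟩
    rw [Set.mem_preimage, Metric.mem_ball, dist_pi_lt_iff hδ]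
    intro i
    rw [Real.dist_eq]
    exact hκ1 i
  have h2 := h hmem
  rw [Omt_RS (M + 1) n (by have := le_trans (le_max_right M0 ((n + 1) / 2)) hM1; omega)]
  exact h2.le

theorem exists_g (n : ℕ) (hn : 6 ≤ n) : ∃ L : ℕ, 0 < L ∧ ∃ C δ : ℝ, 0 < C ∧ 0 < δ ∧ ∀ᶠ ν : ℕ in atTop,
    ∀ (N : ℕ) [NeZero N], N = L * (ν + 1) → ∃ g : Fin n → ZMod N → ℝ, (∀ i, FarSupp N (g i)) ∧
      (∀ i, ∑ x, |g i x| ≤ C) ∧
      δ ≤ |∑ t : ZMod N, ∑ x : Fin n → ZMod N, (∏ i, g i (x i - t)) * Omt N n x| := by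
  obtain ⟨D0, P, hD0, hP1, hP2, hP3, hne⟩ := exists_point n hn
  set ξ : Fin n → ℝ := fun i => (P i : ℝ) / D0 with hξ
  have hD0R : (0 : ℝ) < D0 := by exact_mod_cast hD0
  have hD0Z : (0 : ℤ) < D0 := by exact_mod_cast hD0
  have h0 : ∀ i, 0 < ξ i := by
    intro i
    have h1 : (0 : ℤ) < P i := by have := hP1 i; omega
    have h2 : (0 : ℝ) < P i := by exact_mod_cast h1
    exact div_pos h2 hD0R
  have h1 : ∀ i, ξ i < 1 := by
    intro i
    have h1 : P i < (D0 : ℤ) := by have := hP2 i; omega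
    have h2 : (P i : ℝ) < D0 := by exact_mod_cast h1
    exact (div_lt_one hD0R).2 h2
  set F : ℂ := (1 / 2) ^ n * ftot n (fun i => (ξ i : ℂ)) with hFd
  have hFne : F ≠ 0 := mul_ne_zero (pow_ne_zero _ (by norm_num)) hne
  have hFpos : 0 < ‖F‖ := norm_pos_iff.2 hFne
  obtain ⟨M0, δ, hδ, hu⟩ := unif ξ h0 h1 (‖F‖ / 2) (by positivity)
  obtain ⟨m, hm⟩ := exists_nat_gt (max 3 (1 / δ))
  have hm3 : 3 < m := by
    have := lt_of_le_of_lt (le_max_left _ _) hm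
    exact_mod_cast this
  have hmδ : 1 / δ < m := lt_of_le_of_lt (le_max_right _ _) hm
  refine ⟨D0 * m, by positivity, (D0 * m : ℕ), ‖F‖ / 2 / 2 ^ n, by positivity, by positivity, ?_⟩
  filter_upwards [eventually_ge_atTop M0] with ν hν N hNe hN
  set K : ℕ := ν + 1 with hK
  have hK1 : 1 ≤ K := by omega
  set k : Fin n → ℤ := fun i => K * (m * P i) with hk
  have hNZ : (N : ℤ) = D0 * m * K := by rw [hN]; push_cast; ring
  have hNR : (N : ℝ) = D0 * m * K := by rw [hN]; push_cast; ring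
  have hKZ : (1 : ℤ) ≤ K := by exact_mod_cast hK1
  have hmZ : (3 : ℤ) < m := by exact_mod_cast hm3
  have hKR : (0 : ℝ) < K := by exact_mod_cast hK1
  have hmR : (0 : ℝ) < m := by exact_mod_cast (by omega : 0 < m)
  have hksum : ((∑ i, k i : ℤ) : ZMod N) = 0 := by
    rw [ZMod.intCast_zmod_eq_zero_iff_dvd]
    obtain ⟨c, hc⟩ := hP3
    refine ⟨c, ?_⟩
    rw [hk, ← Finset.mul_sum, ← Finset.mul_sum, hc, hNZ]
    ring
  have hfar1 : ∀ i, (N : ℤ) + 3 * K ≤ 3 * k i := by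
    intro i
    have h2 := hP1 i
    rw [hNZ]
    show (D0 : ℤ) * m * K + 3 * K ≤ 3 * (K * (m * P i))
    have h3 : (3 : ℤ) ≤ (3 * P i - D0) * m := by nlinarith
    nlinarith
  have hfar2 : ∀ i, 3 * k i + 3 * K ≤ 2 * (N : ℤ) := by
    intro i
    have h2 := hP2 i
    rw [hNZ]
    show 3 * ((K : ℤ) * (m * P i)) + 3 * K ≤ 2 * (D0 * m * K)
    have h3 : (3 : ℤ) ≤ (2 * D0 - 3 * P i) * m := by nlinarith
    nlinarith
  -- lower bound of the complex response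
  have hlow : ‖F‖ / 2 ≤ ‖Rf N (Omt N n) (fun i => hF N K (k i))‖ := by
    have h2 := R_lower N K hK1 k hksum (fun x => (Omt N n x : ℂ)) F (‖F‖ / 2) (by linarith) ?_
    · unfold Rf
      linarith
    · intro κ hκ
      obtain ⟨M, rfl⟩ : ∃ M, N = M + 1 := ⟨N - 1, by have := NeZero.ne N; omega⟩
      refine hu M κ ?_ fun i => ?_
      · have h3 : ν + 1 ≤ M + 1 := by
          rw [hN]
          exact Nat.le_mul_of_pos_left _ (by positivity)
        omega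
      · have h3 : ((M : ℝ) + 1) = D0 * m * K := by
          rw [← hNR]
          push_cast
          ring
        have h4 : (κ i : ℝ) / ((M : ℝ) + 1) - ξ i = ((κ i - k i : ℤ) : ℝ) / ((M : ℝ) + 1) := by
          rw [h3, hξ, hk]
          push_cast
          field_simp
        rw [h4, abs_div, abs_of_pos (by positivity : (0 : ℝ) < (M : ℝ) + 1), div_lt_iff₀ (by positivity), h3]
        have h5 : |((κ i - k i : ℤ) : ℝ)| < K := by exact_mod_cast hκ i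
        have h6 : (1 : ℝ) < δ * m := by
          rw [div_lt_iff₀ hδ] at hmδ
          linarith
        have h7 : (1 : ℝ) ≤ D0 := by exact_mod_cast hD0
        have h8 : (K : ℝ) ≤ δ * (D0 * m * K) := by
          have h9 : (1 : ℝ) ≤ δ * m * D0 := by nlinarith
          nlinarith
        linarith
  obtain ⟨g, hg, hgR⟩ := re_im N (Omt N n) (fun i => hF N K (k i))
  refine ⟨g, ?_, ?_, ?_⟩
  · intro i
    have h2 := far_re_im N (hF N K (k i)) (fun m hm => far_hF N K (k i) (hfar1 i) (hfar2 i) m hm)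
    rcases hg i with h3 | h3
    · rw [h3]
      exact h2.1
    · rw [h3]
      exact h2.2
  · intro i
    have h2 := l1_hF N (D0 * m) K (Nat.mul_pos hD0 (by omega)) hK1 hN (k i)
    rw [← h2]
    refine Finset.sum_le_sum fun x _ => ?_
    rcases hg i with h3 | h3
    · rw [h3]
      exact Complex.abs_re_le_norm _
    · rw [h3]
      exact Complex.abs_im_le_norm _
  · rw [div_le_iff₀ (by positivity), mul_comm]
    exact hlow.trans hgR

end Pool.Agent.KS6_79.AH
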