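import Mathlib
import Pool.Agent.KS6_79.AH.G15

/-!
The change of the number of blocks of `n` consecutive occupied sites.
-/

set_option autoImplicit false
set_option linter.unusedSectionVars false

namespace Pool.Agent.KS6_79.AH
open Pool.Agent.H808R2.AH Pool.Agent.H808R2.AH.EPat Pool.Agent.Y773.SM
open Finset

section
variable {N : ℕ} [NeZero N] {p q n : ℕ}

theorem Umat_add (x z c : ZMod N) : Umat N (x + c) (z + c) = Umat N x z := by
  unfold Umat
  rw [add_sub_add_right_eq_sub]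

theorem Tm_shift (a : Fin p → ZMod N) (b : Fin q → ZMod N) (c : ZMod N) (x : Fin n → ZMod N)
    (β : Fin p ⊕ Fin q ≃ Fin n) :
    Tm (fun i => a i + c) (fun j => b j + c) (fun i => x i + c) β = Tm a b x β := by
  classical
  unfold Tm
  have h1 : (∀ i, x (β (Sum.inl i)) + c = a i + c) ↔ ∀ i, x (β (Sum.inl i)) = a i := by
    refine forall_congr' fun i => ?_
    constructor
    · intro h
      exact add_right_cancel h
    · intro h
      rw [h]
  have h2 : ∀ y : ZMod N, y + c ∈ univ.image (fun i => a i + c) ↔ y ∈ univ.image a := by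
    intro y
    simp only [mem_image, mem_univ, true_and]
    constructor
    · rintro ⟨i, hi⟩
      exact ⟨i, add_right_cancel hi⟩
    · rintro ⟨i, hi⟩
      exact ⟨i, by rw [hi]⟩
  simp only [Umat_add, h1, h2]

theorem Om_shift (hpq : p + q = n) (a : Fin p → ZMod N) (ha : Function.Injective a) (b : Fin q → ZMod N)
    (hb : Function.Injective b) (c : ZMod N) (x : Fin n → ZMod N) :
    Om (univ.image fun i => a i + c) (univ.image fun j => b j + c) (fun i => x i + c) =
      Om (univ.image a) (univ.image b) x := by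
  have h1 := Om_eq hpq (fun i => a i + c) (fun i j h => ha (add_right_cancel h)) (fun j => b j + c)
    (fun i j h => hb (add_right_cancel h)) (fun i => x i + c)
  have h2 := Om_eq hpq a ha b hb x
  simp only [Tm_shift] at h1
  rw [← h2] at h1
  exact_mod_cast h1

theorem A_shift (hpq : p + q = n) (a : Fin p → ZMod N) (ha : Function.Injective a) (b : Fin q → ZMod N)
    (hb : Function.Injective b) (c : ZMod N) (g : Fin n → ZMod N → ℝ) :
    ∑ t : ZMod N, ∑ x : Fin n → ZMod N, (∏ i, g i (x i - t)) *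
      Om (univ.image fun i => a i + c) (univ.image fun j => b j + c) x =
    ∑ t : ZMod N, ∑ x : Fin n → ZMod N, (∏ i, g i (x i - t)) * Om (univ.image a) (univ.image b) x := by
  have h1 := Equiv.sum_comp (Equiv.addRight c) (fun t : ZMod N => ∑ x : Fin n → ZMod N, (∏ i, g i (x i - t)) *
      Om (univ.image fun i => a i + c) (univ.image fun j => b j + c) x)
  rw [← h1]
  refine Finset.sum_congr rfl fun t _ => ?_
  have h2 := Equiv.sum_comp (Equiv.addRight (fun _ => c : Fin n → ZMod N)) (fun x : Fin n → ZMod N =>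
    (∏ i, g i (x i - (Equiv.addRight c) t)) * Om (univ.image fun i => a i + c) (univ.image fun j => b j + c) x)
  rw [← h2]
  refine Finset.sum_congr rfl fun x _ => ?_
  have h3 : (Equiv.addRight (fun _ => c : Fin n → ZMod N)) x = fun i => x i + c := rfl
  have h4 : (Equiv.addRight c) t = t + c := rfl
  rw [h3, h4, Om_shift hpq a ha b hb c x]
  congr 1
  refine Finset.prod_congr rfl fun i _ => ?_
  rw [add_sub_add_right_eq_sub]

theorem site_ev (y i : ℕ) : site N (((2 * y : ℕ) : ℤ) + ((2 * i : ℕ) : ℤ)) = (false, (i : ZMod N) + y) := by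
  unfold site
  refine Prod.ext ?_ ?_
  · simp only [decide_eq_false_iff_not]
    omega
  · simp only
    have : (((2 * y : ℕ) : ℤ) + ((2 * i : ℕ) : ℤ)) / 2 = (i : ℤ) + y := by push_cast; omega
    rw [this]
    push_cast
    rfl

theorem site_od (y i : ℕ) : site N (((2 * y : ℕ) : ℤ) + ((2 * i + 1 : ℕ) : ℤ)) = (true, (i : ZMod N) + y) := by
  unfold site
  refine Prod.ext ?_ ?_
  · simp only [decide_eq_true_eq]
    omega
  · simp only
    have : (((2 * y : ℕ) : ℤ) + ((2 * i + 1 : ℕ) : ℤ)) / 2 = (i : ℤ) + y := by push_cast; omega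
    rw [this]
    push_cast
    rfl

theorem block_even (s : Fin N → Site N) (n y : ℕ) (D : Finset ℤ) (hD : ∀ d, d ∈ D ↔ 0 ≤ d ∧ d < n) :
    (∀ d ∈ D, ∃ j, s j = site N (((2 * y : ℕ) : ℤ) + d)) ↔
      (∀ x ∈ univ.image (fun i => ae N ((n + 1) / 2) 0 i + (y : ZMod N)), ∃ j, s j = (false, x)) ∧
      (∀ z ∈ univ.image (fun i => bo N (n / 2) i + (y : ZMod N)), ∃ j, s j = (true, z)) := by
  constructor
  · intro h
    constructor
    · intro x hx
      obtain ⟨i, -, rfl⟩ := mem_image.1 hx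
      have hi := i.isLt
      have := h ((2 * (i : ℕ) : ℕ) : ℤ) ((hD _).2 ⟨by positivity, by omega⟩)
      rw [site_ev] at this
      simpa [ae] using this
    · intro x hx
      obtain ⟨i, -, rfl⟩ := mem_image.1 hx
      have hi := i.isLt
      have := h ((2 * (i : ℕ) + 1 : ℕ) : ℤ) ((hD _).2 ⟨by positivity, by omega⟩)
      rw [site_od] at this
      simpa [bo] using this
  · rintro ⟨h1, h2⟩ d hd
    obtain ⟨hd0, hd1⟩ := (hD d).1 hd
    obtain ⟨r, rfl⟩ := Int.eq_ofNat_of_zero_le hd0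
    rcases Nat.even_or_odd' r with ⟨i, rfl | rfl⟩
    · have hi : i < (n + 1) / 2 := by omega
      rw [site_ev]
      refine h1 _ (mem_image.2 ⟨⟨i, hi⟩, mem_univ _, ?_⟩)
      simp [ae]
    · have hi : i < n / 2 := by omega
      rw [site_od]
      refine h2 _ (mem_image.2 ⟨⟨i, hi⟩, mem_univ _, ?_⟩)
      simp [bo]

theorem block_odd (s : Fin N → Site N) (n y : ℕ) (D : Finset ℤ) (hD : ∀ d, d ∈ D ↔ 0 ≤ d ∧ d < n) :
    (∀ d ∈ D, ∃ j, s j = site N (((2 * y + 1 : ℕ) : ℤ) + d)) ↔
      (∀ x ∈ univ.image (fun i => ae N (n / 2) 1 i + (y : ZMod N)), ∃ j, s j = (false, x)) ∧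
      (∀ z ∈ univ.image (fun i => bo N ((n + 1) / 2) i + (y : ZMod N)), ∃ j, s j = (true, z)) := by
  have e1 : ∀ i : ℕ, site N (((2 * y + 1 : ℕ) : ℤ) + ((2 * i : ℕ) : ℤ)) = (true, (i : ZMod N) + y) := by
    intro i
    rw [← site_od]
    congr 1
    push_cast
    ring
  have e2 : ∀ i : ℕ, site N (((2 * y + 1 : ℕ) : ℤ) + ((2 * i + 1 : ℕ) : ℤ)) = (false, (i : ZMod N) + 1 + y) := by
    intro i
    have := site_ev (N := N) y (i + 1)
    push_cast at this
    rw [← this]
    congr 1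
    push_cast
    ring
  constructor
  · intro h
    constructor
    · intro x hx
      obtain ⟨i, -, rfl⟩ := mem_image.1 hx
      have hi := i.isLt
      have := h ((2 * (i : ℕ) + 1 : ℕ) : ℤ) ((hD _).2 ⟨by positivity, by omega⟩)
      rw [e2] at this
      simpa [ae] using this
    · intro x hx
      obtain ⟨i, -, rfl⟩ := mem_image.1 hx
      have hi := i.isLt
      have := h ((2 * (i : ℕ) : ℕ) : ℤ) ((hD _).2 ⟨by positivity, by omega⟩)
      rw [e1] at this
      simpa [bo] using this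
  · rintro ⟨h1, h2⟩ d hd
    obtain ⟨hd0, hd1⟩ := (hD d).1 hd
    obtain ⟨r, rfl⟩ := Int.eq_ofNat_of_zero_le hd0
    rcases Nat.even_or_odd' r with ⟨i, rfl | rfl⟩
    · have hi : i < (n + 1) / 2 := by omega
      rw [e1]
      refine h2 _ (mem_image.2 ⟨⟨i, hi⟩, mem_univ _, ?_⟩)
      simp [bo]
    · have hi : i < n / 2 := by omega
      rw [e2]
      refine h1 _ (mem_image.2 ⟨⟨i, hi⟩, mem_univ _, ?_⟩)
      simp [ae]

/-- the change of the number of blocks -/
theorem ring_resp (hn : 2 ≤ n) (hN : n ≤ N) (ε : ℝ) (g : Fin n → ZMod N → ℝ) (D : Finset ℤ)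
    (hD : ∀ d, d ∈ D ↔ 0 ≤ d ∧ d < n) :
    ∑ s : Fin N → Site N, tl (cf N ε g) s * (rcnt N (ocOf s) D : ℝ) =
      ∑ s : Fin N → Site N, wP N s * (rcnt N (ocOf s) D : ℝ) +
        ε * (N * ∑ t : ZMod N, ∑ x : Fin n → ZMod N, (∏ i, g i (x i - t)) * Omt N n x) := by
  classical
  set Re : ℝ := (1 / 2) ^ ((n + 1) / 2) * ∑ t : ZMod N, ∑ x : Fin n → ZMod N, (∏ i, g i (x i - t)) *
    Om (univ.image (ae N ((n + 1) / 2) 0)) (univ.image (bo N (n / 2))) x with hRe
  set Ro : ℝ := (1 / 2) ^ (n / 2) * ∑ t : ZMod N, ∑ x : Fin n → ZMod N, (∏ i, g i (x i - t)) *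
    Om (univ.image (ae N (n / 2) 1)) (univ.image (bo N ((n + 1) / 2))) x with hRo
  have hR : ∑ t : ZMod N, ∑ x : Fin n → ZMod N, (∏ i, g i (x i - t)) * Omt N n x = Re + Ro := by
    rw [hRe, hRo]
    simp only [Finset.mul_sum]
    rw [← Finset.sum_add_distrib]
    refine Finset.sum_congr rfl fun t _ => ?_
    rw [← Finset.sum_add_distrib]
    refine Finset.sum_congr rfl fun x _ => ?_
    unfold Omt
    ring
  have hae0 := ae_inj (N := N) (p := (n + 1) / 2) (by omega) 0
  have hae1 := ae_inj (N := N) (p := n / 2) (by omega) 1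
  have hbo0 := bo_inj (N := N) (q := n / 2) (by omega)
  have hbo1 := bo_inj (N := N) (q := (n + 1) / 2) (by omega)
  have hev : ∀ y : ℕ, ∑ s : Fin N → Site N, tl (cf N ε g) s *
      (if ∀ d ∈ D, ∃ j, s j = site N (((2 * y : ℕ) : ℤ) + d) then (1 : ℝ) else 0) =
      ∑ s : Fin N → Site N, wP N s *
      (if ∀ d ∈ D, ∃ j, s j = site N (((2 * y : ℕ) : ℤ) + d) then (1 : ℝ) else 0) + ε * Re := by
    intro y
    have h1 := resp (N := N) hn ε g (univ.image (fun i => ae N ((n + 1) / 2) 0 i + (y : ZMod N)))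
      (univ.image (fun i => bo N (n / 2) i + (y : ZMod N))) (by
        rw [card_image_of_injective _ (fun i j h => hae0 (add_right_cancel h)),
          card_image_of_injective _ (fun i j h => hbo0 (add_right_cancel h))]
        simp only [card_univ, Fintype.card_fin]
        omega)
    have h2 : #(univ.image (fun i => ae N ((n + 1) / 2) 0 i + (y : ZMod N))) = (n + 1) / 2 := by
      rw [card_image_of_injective _ (fun i j h => hae0 (add_right_cancel h))]
      simp
    have h3 := A_shift (N := N) (p := (n + 1) / 2) (q := n / 2) (n := n) (by omega) _ hae0 _ hbo0 (y : ZMod N) g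
    rw [h2, h3, ← hRe] at h1
    have h4 : ∀ s : Fin N → Site N, (if ∀ d ∈ D, ∃ j, s j = site N (((2 * y : ℕ) : ℤ) + d) then (1 : ℝ) else 0) =
        if (∀ x ∈ univ.image (fun i => ae N ((n + 1) / 2) 0 i + (y : ZMod N)), ∃ j, s j = (false, x)) ∧
      (∀ z ∈ univ.image (fun i => bo N (n / 2) i + (y : ZMod N)), ∃ j, s j = (true, z)) then (1 : ℝ) else 0 :=
      fun s => if_congr (block_even s n y D hD) rfl rfl
    simp only [h4]
    convert h1 using 2
  have hod : ∀ y : ℕ, ∑ s : Fin N → Site N, tl (cf N ε g) s *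
      (if ∀ d ∈ D, ∃ j, s j = site N (((2 * y + 1 : ℕ) : ℤ) + d) then (1 : ℝ) else 0) =
      ∑ s : Fin N → Site N, wP N s *
      (if ∀ d ∈ D, ∃ j, s j = site N (((2 * y + 1 : ℕ) : ℤ) + d) then (1 : ℝ) else 0) + ε * Ro := by
    intro y
    have h1 := resp (N := N) hn ε g (univ.image (fun i => ae N (n / 2) 1 i + (y : ZMod N)))
      (univ.image (fun i => bo N ((n + 1) / 2) i + (y : ZMod N))) (by
        rw [card_image_of_injective _ (fun i j h => hae1 (add_right_cancel h)),
          card_image_of_injective _ (fun i j h => hbo1 (add_right_cancel h))]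
        simp only [card_univ, Fintype.card_fin]
        omega)
    have h2 : #(univ.image (fun i => ae N (n / 2) 1 i + (y : ZMod N))) = n / 2 := by
      rw [card_image_of_injective _ (fun i j h => hae1 (add_right_cancel h))]
      simp
    have h3 := A_shift (N := N) (p := n / 2) (q := (n + 1) / 2) (n := n) (by omega) _ hae1 _ hbo1 (y : ZMod N) g
    rw [h2, h3, ← hRo] at h1
    have h4 : ∀ s : Fin N → Site N, (if ∀ d ∈ D, ∃ j, s j = site N (((2 * y + 1 : ℕ) : ℤ) + d) then (1 : ℝ) else 0) =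
        if (∀ x ∈ univ.image (fun i => ae N (n / 2) 1 i + (y : ZMod N)), ∃ j, s j = (false, x)) ∧
      (∀ z ∈ univ.image (fun i => bo N ((n + 1) / 2) i + (y : ZMod N)), ∃ j, s j = (true, z)) then (1 : ℝ) else 0 :=
      fun s => if_congr (block_odd s n y D hD) rfl rfl
    simp only [h4]
    convert h1 using 2
  have hsum : ∀ w : (Fin N → Site N) → ℝ, ∑ s : Fin N → Site N, w s * (rcnt N (ocOf s) D : ℝ) =
      ∑ y ∈ range N, (∑ s : Fin N → Site N, w s *
        (if ∀ d ∈ D, ∃ j, s j = site N (((2 * y : ℕ) : ℤ) + d) then (1 : ℝ) else 0) +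
        ∑ s : Fin N → Site N, w s *
        (if ∀ d ∈ D, ∃ j, s j = site N (((2 * y + 1 : ℕ) : ℤ) + d) then (1 : ℝ) else 0)) := by
    intro w
    have e1 : ∀ s : Fin N → Site N, (rcnt N (ocOf s) D : ℝ) = ∑ y ∈ range N,
        ((if ∀ d ∈ D, ∃ j, s j = site N (((2 * y : ℕ) : ℤ) + d) then (1 : ℝ) else 0) +
        (if ∀ d ∈ D, ∃ j, s j = site N (((2 * y + 1 : ℕ) : ℤ) + d) then (1 : ℝ) else 0)) := by
      intro s
      rw [rcnt_sum, sum_range_two]
    simp only [e1, Finset.mul_sum]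
    rw [Finset.sum_comm]
    refine Finset.sum_congr rfl fun y _ => ?_
    rw [← Finset.sum_add_distrib]
    refine Finset.sum_congr rfl fun s _ => ?_
    ring
  rw [hsum, hsum, hR]
  simp only [hev, hod]
  have e2 : ∀ y ∈ range N, (∑ s : Fin N → Site N, wP N s *
        (if ∀ d ∈ D, ∃ j, s j = site N (((2 * y : ℕ) : ℤ) + d) then (1 : ℝ) else 0) + ε * Re +
        (∑ s : Fin N → Site N, wP N s *
        (if ∀ d ∈ D, ∃ j, s j = site N (((2 * y + 1 : ℕ) : ℤ) + d) then (1 : ℝ) else 0) + ε * Ro)) =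
      (∑ s : Fin N → Site N, wP N s *
        (if ∀ d ∈ D, ∃ j, s j = site N (((2 * y : ℕ) : ℤ) + d) then (1 : ℝ) else 0) +
        ∑ s : Fin N → Site N, wP N s *
        (if ∀ d ∈ D, ∃ j, s j = site N (((2 * y + 1 : ℕ) : ℤ) + d) then (1 : ℝ) else 0)) + ε * (Re + Ro) := by
    intro y _
    ring
  rw [Finset.sum_congr rfl e2, Finset.sum_add_distrib, Finset.sum_const, card_range, nsmul_eq_mul]
  ring

end

end Pool.Agent.KS6_79.AH
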