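import Mathlib
import Pool.Graph.R_seed8.H808R2.AH.K3b

/-!
The frequency of gaps `k/2` by inclusion and exclusion.
-/

set_option autoImplicit false

namespace Pool.Agent.KS6_79.AH
open Pool.Agent.H808R2.AH Pool.Agent.H808R2.AH.K3bAux
open Finset Filter Topology

open Classical in
theorem ie_gen (k : ℤ) (T : Finset ℕ) (P : ℕ → ℤ → Prop) (Q0 : Finset ℤ) :
    (#{t ∈ T | P t 0 ∧ P t k ∧ ∀ i ∈ Q0, ¬ P t i} : ℝ) =
      ∑ Q ∈ Q0.powerset, (-1 : ℝ) ^ #Q * #{t ∈ T | ∀ d ∈ insert 0 (insert k Q), P t d} := by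
  have h1 : ∀ t : ℕ, (if P t 0 ∧ P t k ∧ ∀ i ∈ Q0, ¬ P t i then (1 : ℝ) else 0) =
      ∑ Q ∈ Q0.powerset, (-1 : ℝ) ^ #Q * (if ∀ d ∈ insert 0 (insert k Q), P t d then 1 else 0) := by
    intro t
    have e1 : (if P t 0 ∧ P t k ∧ ∀ i ∈ Q0, ¬ P t i then (1 : ℝ) else 0) =
        (if P t 0 then 1 else 0) * (if P t k then 1 else 0) *
          ∏ i ∈ Q0, (-(if P t i then 1 else 0) + 1) := by
      have e2 : ∏ i ∈ Q0, (-(if P t i then (1 : ℝ) else 0) + 1) =
          if ∀ i ∈ Q0, ¬ P t i then 1 else 0 := by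
        rw [← prod_boole]
        refine prod_congr rfl fun i _ => ?_
        by_cases h : P t i <;> simp [h]
      rw [e2]
      by_cases h0 : P t 0 <;> by_cases h5 : P t k <;> by_cases h6 : ∀ i ∈ Q0, ¬ P t i <;>
        simp [h0, h5, h6]
    rw [e1, prod_add, mul_sum]
    refine sum_congr rfl fun Q _ => ?_
    rw [prod_const_one, mul_one]
    have e3 : ∏ i ∈ Q, (-(if P t i then (1 : ℝ) else 0)) =
        (-1) ^ #Q * (if ∀ i ∈ Q, P t i then 1 else 0) := by
      rw [← prod_boole, ← prod_const, ← prod_mul_distrib]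
      exact prod_congr rfl fun i _ => by ring
    rw [e3]
    have e4 : (if ∀ d ∈ insert 0 (insert k Q), P t d then (1 : ℝ) else 0) =
        (if P t 0 then 1 else 0) * (if P t k then 1 else 0) *
          (if ∀ i ∈ Q, P t i then 1 else 0) := by
      simp only [forall_mem_insert]
      by_cases h0 : P t 0 <;> by_cases h5 : P t k <;> by_cases h6 : ∀ i ∈ Q, P t i <;>
        simp [h0, h5, h6]
    rw [e4]
    ring
  rw [← sum_boole]
  simp only [h1]
  rw [sum_comm]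
  refine sum_congr rfl fun Q _ => ?_
  rw [← mul_sum]
  congr 1
  simp only [← sum_boole]

theorem gap_gen (k : ℕ) (hk : 1 ≤ k) (s : ℕ → Prop) (hs : (Set.ofPred s).Infinite) (j : ℕ) :
    |seqOf s (j + 1) - seqOf s j - (k : ℝ) / 2| < 1 / 4 ↔
      s (Nat.nth s j + k) ∧ ∀ i : ℕ, 1 ≤ i → i < k → ¬ s (Nat.nth s j + i) := by
  have hmono := Nat.nth_strictMono hs
  have h1 : |seqOf s (j + 1) - seqOf s j - (k : ℝ) / 2| < 1 / 4 ↔
      Nat.nth s (j + 1) = Nat.nth s j + k := by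
    unfold seqOf
    constructor
    · intro h
      rw [abs_lt] at h
      have h2 : ((Nat.nth s j + k : ℕ) : ℝ) - 1 / 2 < (Nat.nth s (j + 1) : ℝ) := by
        push_cast
        linarith [h.1]
      have h3 : (Nat.nth s (j + 1) : ℝ) < ((Nat.nth s j + k : ℕ) : ℝ) + 1 / 2 := by
        push_cast
        linarith [h.2]
      have h4 : (Nat.nth s j + k : ℕ) < Nat.nth s (j + 1) + 1 := by
        have : ((Nat.nth s j + k : ℕ) : ℝ) < ((Nat.nth s (j + 1) + 1 : ℕ) : ℝ) := by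
          push_cast at h2 ⊢
          linarith
        exact_mod_cast this
      have h5 : Nat.nth s (j + 1) < (Nat.nth s j + k : ℕ) + 1 := by
        have : (Nat.nth s (j + 1) : ℝ) < ((Nat.nth s j + k + 1 : ℕ) : ℝ) := by
          push_cast at h3 ⊢
          linarith
        exact_mod_cast this
      omega
    · intro h
      rw [h]
      push_cast
      rw [show ((Nat.nth s j : ℝ) + k) / 2 - (Nat.nth s j : ℝ) / 2 - (k : ℝ) / 2 = 0 by ring]
      norm_num
  rw [h1]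
  have hmem : ∀ n, s (Nat.nth s n) := Nat.nth_mem_of_infinite hs
  have hsurj : ∀ x, s x → ∃ k, Nat.nth s k = x := fun x hx => by
    obtain ⟨k, -, hk⟩ := Nat.exists_lt_card_nth_eq hx
    exact ⟨k, hk⟩
  constructor
  · intro h
    refine ⟨h ▸ hmem (j + 1), fun i hi1 hi4 hi => ?_⟩
    obtain ⟨r, hr⟩ := hsurj _ hi
    have h2 : j < r := hmono.lt_iff_lt.1 (by rw [hr]; omega)
    have h3 : r < j + 1 := hmono.lt_iff_lt.1 (by rw [hr, h]; omega)
    omega
  · rintro ⟨h5, h4⟩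
    obtain ⟨r, hr⟩ := hsurj _ h5
    have h2 : j < r := hmono.lt_iff_lt.1 (by rw [hr]; omega)
    have h3 : Nat.nth s (j + 1) ≤ Nat.nth s r := hmono.monotone (by omega)
    have h6 : Nat.nth s j < Nat.nth s (j + 1) := hmono (Nat.lt_succ_self j)
    rw [hr] at h3
    by_contra hne
    refine h4 (Nat.nth s (j + 1) - Nat.nth s j) (by omega) (by omega) ?_
    rw [Nat.add_sub_cancel' h6.le]
    exact hmem (j + 1)

theorem Ioo_iff {p : ℤ → Prop} (k : ℕ) : (∀ i ∈ Ioo (0 : ℤ) k, ¬ p i) ↔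
    ∀ i : ℕ, 1 ≤ i → i < k → ¬ p i := by
  constructor
  · intro h i h1 h2
    exact h i (by rw [mem_Ioo]; omega)
  · intro h i hi
    rw [mem_Ioo] at hi
    obtain ⟨r, rfl⟩ := Int.eq_ofNat_of_zero_le hi.1.le
    exact h r (by omega) (by omega)

/-- the frequency of gaps `k/2` in terms of pattern counts -/
theorem freq_gen (k : ℕ) (hk : 1 ≤ k) (s : ℕ → Prop) (hs : (setOf s).Infinite) (M : ℕ) :
    freq (seqOf s) ((k : ℝ) / 2) M = (∑ Q ∈ (Ioo (0 : ℤ) k).powerset,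
      (-1 : ℝ) ^ #Q * cnt s (insert 0 (insert (k : ℤ) Q)) (Nat.nth s M)) / M := by
  classical
  have hmono := Nat.nth_strictMono hs
  obtain ⟨P, hP⟩ : ∃ P : ℕ → ℤ → Prop, ∀ t d, P t d ↔ (0 ≤ (t : ℤ) + d ∧ s ((t : ℤ) + d).toNat) :=
    ⟨_, fun _ _ => Iff.rfl⟩
  have h := ie_gen (k : ℤ) (range (Nat.nth s M)) P (Ioo (0 : ℤ) k)
  unfold freq
  refine congrArg (fun z : ℝ => z / (M : ℝ)) (Eq.trans ?_ (h.trans ?_))
  swap
  · refine sum_congr rfl fun Q _ => ?_
    rw [cnt_eq]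
    refine congrArg (fun k : ℕ => (-1 : ℝ) ^ #Q * (k : ℝ)) ?_
    refine congrArg Finset.card (Finset.ext fun t => ?_)
    simp only [mem_filter, hP]
  refine congrArg (fun k : ℕ => (k : ℝ)) ?_
  refine card_bij (fun j _ => Nat.nth s j) ?_ ?_ ?_
  · intro j hj
    rw [mem_filter, mem_range] at hj
    have hg := (gap_gen k hk s hs j).1 hj.2
    rw [mem_filter, mem_range, hP, hP]
    refine ⟨hmono hj.1, ⟨by positivity, ?_⟩, ⟨by positivity, ?_⟩, ?_⟩
    · simpa using Nat.nth_mem_of_infinite hs j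
    · have : (((Nat.nth s j : ℕ) : ℤ) + (k : ℤ)).toNat = Nat.nth s j + k := by omega
      rw [this]
      exact hg.1
    · rw [Ioo_iff (p := fun i : ℤ => P (Nat.nth s j) i)]
      intro i hi1 hi4
      rw [hP]
      rintro ⟨-, hi⟩
      have : (((Nat.nth s j : ℕ) : ℤ) + (i : ℤ)).toNat = Nat.nth s j + i := by omega
      rw [this] at hi
      exact hg.2 i hi1 hi4 hi
  · intro j _ j' _ hjj
    exact hmono.injective hjj
  · intro t ht
    rw [mem_filter, mem_range, hP, hP, Ioo_iff (p := fun i : ℤ => P t i)] at ht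
    obtain ⟨ht1, ⟨-, ht2⟩, ⟨-, ht3⟩, ht4⟩ := ht
    simp only [add_zero, Int.toNat_natCast] at ht2
    obtain ⟨r, -, hr⟩ := Nat.exists_lt_card_nth_eq ht2
    refine ⟨r, ?_, hr⟩
    rw [mem_filter, mem_range]
    refine ⟨hmono.lt_iff_lt.1 (by rw [hr]; exact ht1), (gap_gen k hk s hs r).2 ⟨?_, ?_⟩⟩
    · rw [hr]
      have : ((t : ℤ) + (k : ℤ)).toNat = t + k := by omega
      rw [this] at ht3
      exact ht3
    · intro i hi1 hi4 hi
      rw [hr] at hi
      refine ht4 i hi1 hi4 ((hP t i).2 ⟨by positivity, ?_⟩)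
      have : ((t : ℤ) + (i : ℤ)).toNat = t + i := by omega
      rw [this]
      exact hi

end Pool.Agent.KS6_79.AH
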