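import Mathlib
import Pool.Graph.R_seed8.Y773.SM.Fin
import Pool.Agent.KS6_79.AH.G16
import Pool.Agent.KS6_79.AH.G18

/-!
The final theorem for the gaps `k/2`, from the existence of suitable interactions.
-/

set_option autoImplicit false
set_option linter.unusedSectionVars false

namespace Pool.Agent.KS6_79.AH
open Pool.Agent.H808R2.AH Pool.Agent.H808R2.AH.EPat Pool.Agent.Y773.SM
open Finset Filter Topology MeasureTheory

section
variable {N : ℕ} [NeZero N] {n : ℕ}

/-- fewer than `n` sites: the ring counts do not change -/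
theorem rcnt_tl (c : Finset (ZMod N) → ℝ) (hc0 : c ∅ = 1) (hcs : ∀ D, 1 ≤ #D → #D < n → c D = 0)
    (D : Finset ℤ) (hD : #D < n) :
    ∑ s : Fin N → Site N, tl c s * (rcnt N (ocOf s) D : ℝ) = ∑ s : Fin N → Site N, wP N s * (rcnt N (ocOf s) D : ℝ) := by
  classical
  simp only [rcnt_sum, Finset.mul_sum]
  rw [Finset.sum_comm]
  refine Eq.trans ?_ Finset.sum_comm
  refine Finset.sum_congr rfl fun t _ => ?_
  have h := prob_tl N c hc0 hcs hD (fun i => site N ((t : ℤ) + (D.equivFin.symm i : ℤ)))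
  have hiff : ∀ s : Fin N → Site N, (∀ i : Fin #D, ∃ j, s j = site N ((t : ℤ) + (D.equivFin.symm i : ℤ))) ↔
      ∀ d ∈ D, ∃ j, s j = site N ((t : ℤ) + d) := by
    intro s
    constructor
    · intro h d hd
      have := h (D.equivFin ⟨d, hd⟩)
      simpa using this
    · intro h i
      exact h _ (D.equivFin.symm i).2
  have e1 : ∀ s : Fin N → Site N, (if ∀ i : Fin #D, ∃ j, s j = site N ((t : ℤ) + (D.equivFin.symm i : ℤ))
      then (1 : ℝ) else 0) = if ∀ d ∈ D, ∃ j, s j = site N ((t : ℤ) + d) then (1 : ℝ) else 0 :=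
    fun s => if_congr (hiff s) rfl rfl
  simp only [e1] at h
  convert h using 1

/-- the change of the pattern counts -/
theorem patk_resp (k : ℕ) (hk : 1 ≤ k) (hN : k + 1 ≤ N) (ε : ℝ) (g : Fin (k + 1) → ZMod N → ℝ) :
    ∑ s : Fin N → Site N, tl (cf N ε g) s * patk k s =
      ∑ s : Fin N → Site N, wP N s * patk k s +
        ε * ((-1) ^ (k - 1) * (N * ∑ t : ZMod N, ∑ x : Fin (k + 1) → ZMod N, (∏ i, g i (x i - t)) * Omt N (k + 1) x)) := by
  classical
  have hexp : ∀ w : (Fin N → Site N) → ℝ, ∑ s : Fin N → Site N, w s * patk k s =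
      ∑ Q ∈ (Ioo (0 : ℤ) k).powerset, (-1 : ℝ) ^ #Q *
        ∑ s : Fin N → Site N, w s * (rcnt N (ocOf s) (insert 0 (insert (k : ℤ) Q)) : ℝ) := by
    intro w
    unfold patk
    simp only [Finset.mul_sum]
    rw [Finset.sum_comm]
    refine Finset.sum_congr rfl fun Q _ => Finset.sum_congr rfl fun s _ => ?_
    ring
  have hcardI : #(Ioo (0 : ℤ) k) = k - 1 := by
    rw [Int.card_Ioo]
    omega
  rw [hexp, hexp]
  have hQ : ∀ Q ∈ (Ioo (0 : ℤ) k).powerset, (-1 : ℝ) ^ #Q *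
        ∑ s : Fin N → Site N, tl (cf N ε g) s * (rcnt N (ocOf s) (insert 0 (insert (k : ℤ) Q)) : ℝ) =
      (-1 : ℝ) ^ #Q * ∑ s : Fin N → Site N, wP N s * (rcnt N (ocOf s) (insert 0 (insert (k : ℤ) Q)) : ℝ) +
      (if Q = Ioo (0 : ℤ) k then ε * ((-1) ^ (k - 1) * (N * ∑ t : ZMod N, ∑ x : Fin (k + 1) → ZMod N,
        (∏ i, g i (x i - t)) * Omt N (k + 1) x)) else 0) := by
    intro Q hQ
    rw [Finset.mem_powerset] at hQ
    by_cases h : Q = Ioo (0 : ℤ) k
    · rw [if_pos h, h, hcardI, ring_resp (n := k + 1) (by omega) hN ε g]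
      · ring
      · intro d
        simp only [mem_insert, mem_Ioo]
        push_cast
        omega
    · rw [if_neg h, add_zero]
      congr 1
      refine rcnt_tl (n := k + 1) _ (cf_empty N ε g (by omega)) (fun D => cf_small N ε g (by omega) D) _ ?_
      have h1 : #Q < k - 1 := by
        rw [← hcardI]
        exact Finset.card_lt_card (lt_of_le_of_ne hQ h)
      have h2 := Finset.card_insert_le (0 : ℤ) (insert (k : ℤ) Q)
      have h3 := Finset.card_insert_le (k : ℤ) Q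
      omega
  rw [Finset.sum_congr rfl hQ, Finset.sum_add_distrib, Finset.sum_ite_eq' _ (Ioo (0 : ℤ) k),
    if_pos (Finset.mem_powerset_self _)]

end

/-- the averages of the ring counts under the base measure converge -/
theorem base_rcnt (D : Finset ℤ) : ∃ ρ : ℝ, Tendsto (fun N : ℕ => (1 / ((N + 1 : ℕ) : ℝ)) *
    ∑ s : Fin (N + 1) → Site (N + 1), wP (N + 1) s * (rcnt (N + 1) (ocOf s) D : ℝ)) atTop (𝓝 ρ) := by
  classical
  obtain ⟨u, hu⟩ : ∃ u : Fin #D → ℤ, u = fun i => (D.equivFin.symm i : ℤ) := ⟨_, rfl⟩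
  have huinj : Function.Injective u := by
    rw [hu]
    intro i j h
    exact D.equivFin.symm.injective (Subtype.ext h)
  have hD : ∀ d, d ∈ D ↔ ∃ i, u i = d := by
    intro d
    rw [hu]
    constructor
    · intro hd
      exact ⟨D.equivFin ⟨d, hd⟩, by simp⟩
    · rintro ⟨i, rfl⟩
      exact (D.equivFin.symm i).2
  have hlimC := (J0_limit u).const_mul 2
  have e1 := (Complex.continuous_re.tendsto _).comp hlimC
  refine ⟨_, e1.congr' ?_⟩
  obtain ⟨K, hK⟩ : ∃ K : ℕ, ∀ i k, |u i - u k| < K := by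
    refine ⟨∑ i, ∑ k, (|u i - u k|.toNat + 1), fun i k => ?_⟩
    have e1 : |u i - u k|.toNat + 1 ≤ ∑ i, ∑ k, (|u i - u k|.toNat + 1) :=
      (Finset.single_le_sum (f := fun k => |u i - u k|.toNat + 1) (fun _ _ => Nat.zero_le _)
        (Finset.mem_univ k)).trans
      (Finset.single_le_sum (f := fun i => ∑ k, (|u i - u k|.toNat + 1)) (fun _ _ => Nat.zero_le _)
        (Finset.mem_univ i))
    have e2 : (|u i - u k|.toNat : ℤ) = |u i - u k| := Int.toNat_of_nonneg (abs_nonneg _)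
    have e3 : ((|u i - u k|.toNat + 1 : ℕ) : ℤ) ≤ ((∑ i, ∑ k, (|u i - u k|.toNat + 1) : ℕ) : ℤ) := by
      exact_mod_cast e1
    push_cast at e3 ⊢
    rw [e2] at e3
    linarith
  filter_upwards [eventually_ge_atTop K] with N hN
  have e4 := avg_tl (N + 1) (n := #D + 1) (fun E => if E = ∅ then 1 else 0) (if_pos rfl)
    (fun E h1 _ => if_neg (by
      rintro rfl
      simp at h1)) (Nat.lt_succ_self #D) u (fun i k hik =>
    ⟨fun h => hik (huinj h), by
      have e5 := hK i k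
      have e6 : (K : ℤ) ≤ (N : ℤ) := by exact_mod_cast hN
      push_cast
      linarith⟩) D hD
  have e7 : ∀ s : Fin (N + 1) → Site (N + 1), tl (fun E : Finset (ZMod (N + 1)) => if E = ∅ then (1 : ℝ) else 0) s =
      wP (N + 1) s := by
    intro s
    unfold tl
    rw [Finset.sum_eq_single ∅]
    · simp
    · intro E _ hE
      show (if E = ∅ then (1 : ℝ) else 0) * _ = 0
      rw [if_neg hE, zero_mul]
    · intro h
      exact absurd (mem_univ _) h
  simp only [e7] at e4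
  simp only [Function.comp]
  rw [← e4, Complex.ofReal_re]

/-- the averages of the pattern counts under the base measure converge -/
theorem base_patk (k : ℕ) : ∃ c : ℝ, Tendsto (fun N : ℕ => (1 / ((N + 1 : ℕ) : ℝ)) *
    ∑ s : Fin (N + 1) → Site (N + 1), wP (N + 1) s * patk k s) atTop (𝓝 c) := by
  choose ρ hρ using base_rcnt
  refine ⟨∑ Q ∈ (Ioo (0 : ℤ) k).powerset, (-1 : ℝ) ^ #Q * ρ (insert 0 (insert (k : ℤ) Q)), ?_⟩
  have h := tendsto_finsetSum ((Ioo (0 : ℤ) k).powerset) fun Q _ =>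
    (hρ (insert 0 (insert (k : ℤ) Q))).const_mul ((-1 : ℝ) ^ #Q)
  refine h.congr fun N => ?_
  unfold patk
  simp only [Finset.mul_sum]
  rw [Finset.sum_comm]
  refine Finset.sum_congr rfl fun s _ => Finset.sum_congr rfl fun Q _ => ?_
  ring

/-- existence of suitable interactions of `n` bodies -/
def HasG (n : ℕ) : Prop := ∃ L : ℕ, 0 < L ∧ ∃ C δ : ℝ, 0 < C ∧ 0 < δ ∧ ∀ᶠ ν : ℕ in atTop,
    ∀ (N : ℕ) [NeZero N], N = L * (ν + 1) → ∃ g : Fin n → ZMod N → ℝ,
      (∀ (ε : ℝ) (r : ℕ) (k : Fin r → ℤ), Ordk k (2 * N)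
        ((∑ D : Finset (ZMod N), algebraMap ℝ (MvPowerSeries (Fin r) ℂ) (cf N ε g D) *
        ((Qx N k).submatrix (fun x : {x // x ∈ D} => x.1) (fun x : {x // x ∈ D} => x.1)).det) - 1)) ∧
      (∀ i, ∑ x, |g i x| ≤ C) ∧
      δ ≤ |∑ t : ZMod N, ∑ x : Fin n → ZMod N, (∏ i, g i (x i - t)) * Omt N n x|

theorem hasG_six (n : ℕ) (hn : 6 ≤ n) : HasG n := by
  obtain ⟨L, hL, C, δ, hC, hδ, h⟩ := exists_g n hn
  refine ⟨L, hL, C, δ, hC, hδ, h.mono fun ν hν N hN hNL => ?_⟩
  obtain ⟨g, h1, h2, h3⟩ := hν N hNL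
  exact ⟨g, fun ε r k => ord_cf hn ε g h1 k, h2, h3⟩

/-- the averages of periodised test functions are those of the base measure -/
theorem perf_ord (N : ℕ) [NeZero N] {n : ℕ} (ε : ℝ) (g : Fin n → ZMod N → ℝ)
    (hg : ∀ (r : ℕ) (k : Fin r → ℤ), Ordk k (2 * N)
        ((∑ D : Finset (ZMod N), algebraMap ℝ (MvPowerSeries (Fin r) ℂ) (cf N ε g D) *
        ((Qx N k).submatrix (fun x : {x // x ∈ D} => x.1) (fun x : {x // x ∈ D} => x.1)).det) - 1)) {m : ℕ}
    {f : (Fin (m + 1) → ℝ) → ℝ} {F : (Fin m → ℝ) → ℂ} (h : TestPair f F) :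
    ∑ s : Fin N → Site N, tl (cf N ε g) s * ∑ j : Fin (m + 1) ↪ Fin N, perf f N (fun i => s (j i)) =
      ∑ s : Fin N → Site N, wP N s * ∑ j : Fin (m + 1) ↪ Fin N, perf f N (fun i => s (j i)) :=
  J4_tl N (cf N ε g) (fun k h0 h1 => orth_tl N (cf N ε g) k (hg _ k) h0 h1) h
    (fun y => H_poisson h (N : ℝ) (by exact_mod_cast Nat.pos_of_ne_zero (NeZero.ne N)) y)

end Pool.Agent.KS6_79.AH
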