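import Mathlib
import Pool.Agent.KS6_79.AH.G19

/-!
All pairs `(p₋(k/2), p₊(k/2))` in a triangle are attained (the proof is that of `exists_seq` in the
starting file `Pool.Agent.Y773.SM.Fin`, with the new interactions).
-/

set_option autoImplicit false

namespace Pool.Agent.KS6_79.AH
open Pool.Agent.H808R2.AH Pool.Agent.Y773.SM
open Finset Filter Topology MeasureTheory

/-- all pairs `(p₋, p₊)` in a triangle are attained -/
theorem seq_gen (kk : ℕ) (hkk : 1 ≤ kk) (hG : HasG (kk + 1)) {c : ℝ} (hc : Tendsto (fun N : ℕ => (1 / ((N + 1 : ℕ) : ℝ)) *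
    ∑ s : Fin (N + 1) → Site (N + 1), wP (N + 1) s * patk kk s) atTop (𝓝 c)) :
    ∃ κ : ℝ, 0 < κ ∧ ∀ a b : ℝ, c - κ ≤ a → a ≤ b → b ≤ c + κ →
      ∃ x : ℕ → ℝ, InS x ∧ StrictMono x ∧ (∀ j, ∃ m : ℕ, x j = (m : ℝ) / 2) ∧
        (∀ n : ℕ, n < kk → ∀ y : Fin n → ℤ, Function.Injective y → (∀ i, y i ≠ 0) →
          Tendsto (corr x y) atTop (𝓝 ((1 / 2) ^ n * W (Fin.cons 0 fun i => (y i : ℝ) / 2)))) ∧
        pMinus x ((kk : ℝ) / 2) = a ∧ pPlus x ((kk : ℝ) / 2) = b := by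
  obtain ⟨L, hL, C, δ, hC, hδ, hF⟩ := hG
  obtain ⟨ν₀, hν₀⟩ := eventually_atTop.mp hF
  have hne : ∀ ν : ℕ, NeZero (L * ((ν + (ν₀ + (kk + 3))) + 1)) := fun ν => ⟨by positivity⟩
  have hex : ∀ ν : ℕ, ∃ g : Fin (kk + 1) → ZMod (L * ((ν + (ν₀ + (kk + 3))) + 1)) → ℝ,
      (∀ (ε : ℝ) (r : ℕ) (k : Fin r → ℤ), Ordk k (2 * ((L * ((ν + (ν₀ + (kk + 3))) + 1) : ℕ) : ℝ))
        ((∑ D : Finset (ZMod (L * ((ν + (ν₀ + (kk + 3))) + 1))), algebraMap ℝ (MvPowerSeries (Fin r) ℂ)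
          (cf (L * ((ν + (ν₀ + (kk + 3))) + 1)) ε g D) *
        ((Qx (L * ((ν + (ν₀ + (kk + 3))) + 1)) k).submatrix (fun x : {x // x ∈ D} => x.1)
          (fun x : {x // x ∈ D} => x.1)).det) - 1)) ∧
      (∀ i, ∑ x, |g i x| ≤ C) ∧
      δ ≤ |∑ t : ZMod (L * ((ν + (ν₀ + (kk + 3))) + 1)), ∑ x : Fin (kk + 1) → ZMod (L * ((ν + (ν₀ + (kk + 3))) + 1)),
        (∏ i, g i (x i - t)) * Omt (L * ((ν + (ν₀ + (kk + 3))) + 1)) (kk + 1) x| := by
    intro ν
    exact hν₀ (ν + (ν₀ + (kk + 3))) (by omega) _ rfl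
  choose g hg1 hg2 hg3 using hex
  refine ⟨1 / (((kk + 1 : ℕ) : ℝ) * C ^ (kk + 1) * 2 ^ (kk + 1)) * δ, by positivity, ?_⟩
  intro a b ha hab hb
  -- the prescribed averages
  let τ : ℕ → ℝ := fun ν => if Even (Nat.log 4 ν) then a else b
  have hτa : ∀ ν, a ≤ τ ν := fun ν => by
    show a ≤ if Even (Nat.log 4 ν) then a else b
    split_ifs
    · exact le_rfl
    · exact hab
  have hτb : ∀ ν, τ ν ≤ b := fun ν => by
    show (if Even (Nat.log 4 ν) then a else b) ≤ b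
    split_ifs
    · exact hab
    · exact le_rfl
  let A : ℕ → ℝ := fun ν => (-1) ^ (kk - 1) * ∑ t : ZMod (L * ((ν + (ν₀ + (kk + 3))) + 1)),
    ∑ x : Fin (kk + 1) → ZMod (L * ((ν + (ν₀ + (kk + 3))) + 1)),
      (∏ i, g ν i (x i - t)) * Omt (L * ((ν + (ν₀ + (kk + 3))) + 1)) (kk + 1) x
  have hA : ∀ ν, δ ≤ |A ν| := fun ν => by
    have := hg3 ν
    show δ ≤ |(-1) ^ (kk - 1) * _|
    rw [abs_mul, abs_pow, abs_neg, abs_one, one_pow, one_mul]
    exact this
  have hA0 : ∀ ν, 0 < |A ν| := fun ν => lt_of_lt_of_le (by positivity) (hA ν)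
  have hAne : ∀ ν, A ν ≠ 0 := fun ν => abs_pos.1 (hA0 ν)
  let e : ℕ → ℝ := fun ν => (τ ν - c) / A ν
  have he : ∀ ν, |e ν| ≤ 1 / (((kk + 1 : ℕ) : ℝ) * C ^ (kk + 1) * 2 ^ (kk + 1)) := by
    intro ν
    show |(τ ν - c) / A ν| ≤ _
    rw [abs_div, div_le_iff₀ (hA0 ν)]
    have e1 : |τ ν - c| ≤ 1 / (((kk + 1 : ℕ) : ℝ) * C ^ (kk + 1) * 2 ^ (kk + 1)) * δ := by
      rw [abs_le]
      have := hτa ν
      have := hτb ν
      constructor <;> linarith
    exact e1.trans (mul_le_mul_of_nonneg_left (hA ν) (by positivity))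
  have hcond : ∀ ν, |e ν| * (((kk + 1 : ℕ) : ℝ) * C ^ (kk + 1)) ≤ 1 / 2 ^ (kk + 1) := by
    intro ν
    calc |e ν| * (((kk + 1 : ℕ) : ℝ) * C ^ (kk + 1)) ≤
          1 / (((kk + 1 : ℕ) : ℝ) * C ^ (kk + 1) * 2 ^ (kk + 1)) * (((kk + 1 : ℕ) : ℝ) * C ^ (kk + 1)) :=
          mul_le_mul_of_nonneg_right (he ν) (by positivity)
      _ = 1 / 2 ^ (kk + 1) := by field_simp
  have hsub : Tendsto (fun ν : ℕ => L * ((ν + (ν₀ + (kk + 3))) + 1) - 1) atTop atTop := by
    refine tendsto_atTop_mono (fun ν => ?_) tendsto_id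
    have : 1 * ((ν + (ν₀ + (kk + 3))) + 1) ≤ L * ((ν + (ν₀ + (kk + 3))) + 1) := Nat.mul_le_mul_right _ hL
    simp only [id]
    omega
  have hNe : ∀ ν : ℕ, L * ((ν + (ν₀ + (kk + 3))) + 1) - 1 + 1 = L * ((ν + (ν₀ + (kk + 3))) + 1) := fun ν =>
    Nat.succ_pred_eq_of_pos (Nat.pos_of_ne_zero (hne ν).1)
  have htr : ∀ (Φ : ∀ (N : ℕ) [NeZero N], ℝ) (l : ℝ), Tendsto (fun N : ℕ => Φ (N + 1)) atTop (𝓝 l) →
      Tendsto (fun ν : ℕ => Φ (L * ((ν + (ν₀ + (kk + 3))) + 1))) atTop (𝓝 l) := by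
    intro Φ l h
    have h1 := h.comp hsub
    refine h1.congr fun ν => ?_
    simp only [Function.comp]
    have key : ∀ (a b : ℕ) (_ : NeZero a) (_ : NeZero b), a = b → Φ a = Φ b := by
      intro a b ia ib hab
      subst hab
      rfl
    exact key _ _ _ _ (hNe ν)
  obtain ⟨S0, x, hS0, hxS, hx, h1, h2, h3, h3c⟩ := K5_gen kk hkk (fun ν => L * ((ν + (ν₀ + (kk + 3))) + 1)) (L * (ν₀ + (kk + 4)))
    (fun ν => by
      have : 1 * ((ν + (ν₀ + (kk + 3))) + 1) ≤ L * ((ν + (ν₀ + (kk + 3))) + 1) := Nat.mul_le_mul_right _ hL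
      show ν + 1 ≤ L * ((ν + (ν₀ + (kk + 3))) + 1)
      omega)
    (fun ν => by
      show L * ((ν + (ν₀ + (kk + 3))) + 1) ≤ L * (ν₀ + (kk + 4)) * (ν + 1)
      rw [mul_assoc]
      apply Nat.mul_le_mul_left
      nlinarith)
    (fun ν => tl (cf _ (e ν) (g ν)))
    (fun ν s => tl_nonneg _ (by omega) (e ν) (g ν) C hC.le (hg2 ν) (hcond ν) s)
    (fun ν => sum_tl _ _ (cf_empty _ (e ν) (g ν) (by omega)))
    (fun ν s hs => A1_inj _ s fun h0 => hs (by simp [tl, h0]))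
    (fun m _ f F h => by
      have h3 := htr (fun N _ => (1 / (N : ℝ)) * ∑ s : Fin N → Site N, wP N s *
        ∑ j : Fin (m + 1) ↪ Fin N, perf f N (fun i => s (j i))) _ (base_avg h)
      refine h3.congr fun ν => ?_
      rw [perf_ord _ (e ν) (g ν) (fun r k => hg1 ν (e ν) r k) h])
  have h4 := htr (fun N _ => (1 / (N : ℝ)) * ∑ s : Fin N → Site N, wP N s * patk kk s) c hc
  -- the averages
  let q : ℕ → ℝ := fun ν => (1 / ((L * ((ν + (ν₀ + (kk + 3))) + 1) : ℕ) : ℝ)) *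
    ∑ s : Fin (L * ((ν + (ν₀ + (kk + 3))) + 1)) → Site (L * ((ν + (ν₀ + (kk + 3))) + 1)),
      tl (cf (L * ((ν + (ν₀ + (kk + 3))) + 1)) (e ν) (g ν)) s * patk kk s
  have hq : ∀ ν, q ν = (1 / ((L * ((ν + (ν₀ + (kk + 3))) + 1) : ℕ) : ℝ)) *
      ∑ s : Fin (L * ((ν + (ν₀ + (kk + 3))) + 1)) → Site (L * ((ν + (ν₀ + (kk + 3))) + 1)),
      wP (L * ((ν + (ν₀ + (kk + 3))) + 1)) s * patk kk s + (τ ν - c) := by
    intro ν
    have hN3 : kk + 1 ≤ L * ((ν + (ν₀ + (kk + 3))) + 1) := by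
      have : 1 * ((ν + (ν₀ + (kk + 3))) + 1) ≤ L * ((ν + (ν₀ + (kk + 3))) + 1) := Nat.mul_le_mul_right _ hL
      omega
    show (1 / _) * _ = _
    rw [patk_resp kk hkk hN3 (e ν) (g ν), mul_add]
    congr 1
    have hN0 : ((L * ((ν + (ν₀ + (kk + 3))) + 1) : ℕ) : ℝ) ≠ 0 := by exact_mod_cast (hne ν).1
    have h5 : (1 / ((L * ((ν + (ν₀ + (kk + 3))) + 1) : ℕ) : ℝ)) * (e ν * ((-1) ^ (kk - 1) *
        (((L * ((ν + (ν₀ + (kk + 3))) + 1) : ℕ) : ℝ) * ∑ t : ZMod (L * ((ν + (ν₀ + (kk + 3))) + 1)),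
        ∑ x : Fin (kk + 1) → ZMod (L * ((ν + (ν₀ + (kk + 3))) + 1)),
        (∏ i, g ν i (x i - t)) * Omt (L * ((ν + (ν₀ + (kk + 3))) + 1)) (kk + 1) x))) = e ν * A ν := by
      show _ = e ν * ((-1) ^ (kk - 1) * _)
      rw [one_div, mul_left_comm, mul_left_comm ((-1 : ℝ) ^ (kk - 1)), inv_mul_cancel_left₀ hN0]
    rw [h5]
    exact div_mul_cancel₀ _ (hAne ν)
  have hqτ : Tendsto (fun ν => q ν - τ ν) atTop (𝓝 0) := by
    have h5 := h4.sub_const c
    rw [sub_self] at h5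
    refine h5.congr fun ν => ?_
    rw [hq ν]
    ring
  have hq0 : ∀ ν, 0 ≤ q ν := fun ν => mul_nonneg (by positivity)
    (Finset.sum_nonneg fun s _ => mul_nonneg (tl_nonneg _ (by omega) (e ν) (g ν) C hC.le (hg2 ν) (hcond ν) s) (patk_nonneg kk _))
  have hNp : ∀ ν, (0 : ℝ) < ((L * ((ν + (ν₀ + (kk + 3))) + 1) : ℕ) : ℝ) := fun ν => by
    exact_mod_cast Nat.pos_of_ne_zero (hne ν).1
  have hq2 : ∀ ν, q ν ≤ 2 := by
    intro ν
    have e1 : ∑ s, tl (cf (L * ((ν + (ν₀ + (kk + 3))) + 1)) (e ν) (g ν)) s * patk kk s ≤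
        2 * ((L * ((ν + (ν₀ + (kk + 3))) + 1) : ℕ) : ℝ) := by
      calc ∑ s, tl (cf (L * ((ν + (ν₀ + (kk + 3))) + 1)) (e ν) (g ν)) s * patk kk s ≤
            ∑ s, tl (cf (L * ((ν + (ν₀ + (kk + 3))) + 1)) (e ν) (g ν)) s * (2 * ((L * ((ν + (ν₀ + (kk + 3))) + 1) : ℕ) : ℝ)) :=
            Finset.sum_le_sum fun s _ => mul_le_mul_of_nonneg_left (patk_le kk s)
              (tl_nonneg _ (by omega) (e ν) (g ν) C hC.le (hg2 ν) (hcond ν) s)
        _ = 2 * ((L * ((ν + (ν₀ + (kk + 3))) + 1) : ℕ) : ℝ) := by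
          rw [← Finset.sum_mul, sum_tl _ _ (cf_empty _ (e ν) (g ν) (by omega)), one_mul]
    show (1 / _) * _ ≤ 2
    rw [one_div, inv_mul_le_iff₀ (hNp ν)]
    linarith
  refine ⟨x, hx, ?_, ?_, ?_, ?_, ?_⟩
  · intro j k hjk
    rw [hxS]
    unfold seqOf
    have : (Nat.nth S0 j : ℝ) < Nat.nth S0 k := by exact_mod_cast Nat.nth_strictMono hS0 hjk
    linarith
  · intro j
    exact ⟨Nat.nth S0 j, by rw [hxS]; rfl⟩
  · -- the correlations
    intro n hn y hy hy0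
    have hfun : corr x y = fun M => (cnt S0 (offs y) (Nat.nth S0 M) : ℝ) / M := by
      funext M
      rw [hxS, corr_eq S0 hS0]
    rw [hfun]
    refine h3c (offs y) _ ?_
    obtain ⟨u, hu⟩ : ∃ u : Fin (n + 1) → ℤ, u = Fin.cons 0 y := ⟨_, rfl⟩
    have huinj : Function.Injective u := by
      rw [hu, Fin.cons_injective_iff]
      exact ⟨by rintro ⟨i, hi⟩; exact hy0 i hi, hy⟩
    have hD : ∀ d, d ∈ offs y ↔ ∃ i, u i = d := by
      intro d
      unfold offs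
      rw [Finset.mem_insert, Finset.mem_image, Fin.exists_fin_succ, hu]
      simp [eq_comm]
    have hlimC := (J0_limit u).const_mul 2
    have hlim : Tendsto (fun N : ℕ => (2 * (Matrix.of fun i k : Fin (n + 1) =>
        ker (N + 1) (site (N + 1) (u i)) (site (N + 1) (u k))).det).re) atTop
        (𝓝 ((1 / 2) ^ n * W (Fin.cons 0 fun i => (y i : ℝ) / 2))) := by
      have e1 := (Complex.continuous_re.tendsto _).comp hlimC
      have e2 : (2 * (((1 / 2 : ℝ) ^ (n + 1) * W (fun i => (u i : ℝ) / 2) : ℝ) : ℂ)).re =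
          (1 / 2) ^ n * W (Fin.cons 0 fun i => (y i : ℝ) / 2) := by
        have e3 : (fun i => (u i : ℝ) / 2) = (Fin.cons 0 fun i => (y i : ℝ) / 2 : Fin (n + 1) → ℝ) := by
          funext i
          rw [hu]
          refine Fin.cases ?_ (fun i => ?_) i
          · simp
          · simp
        rw [e3, show (2 : ℂ) = ((2 : ℝ) : ℂ) by norm_num, ← Complex.ofReal_mul, Complex.ofReal_re, pow_succ]
        ring
      rw [e2] at e1
      exact e1
    have hlim2 := htr (fun N _ => (2 * (Matrix.of fun i k : Fin (n + 1) =>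
        ker N (site N (u i)) (site N (u k))).det).re) _ hlim
    refine hlim2.congr' ?_
    obtain ⟨K, hK⟩ : ∃ K : ℕ, ∀ i k, |u i - u k| < K := by
      refine ⟨∑ i, ∑ k, (|u i - u k|.toNat + 1), fun i k => ?_⟩
      have e1 : |u i - u k|.toNat + 1 ≤ ∑ i, ∑ k, (|u i - u k|.toNat + 1) :=
        (Finset.single_le_sum (f := fun k => |u i - u k|.toNat + 1) (fun _ _ => Nat.zero_le _)
          (Finset.mem_univ k)).trans
        (Finset.single_le_sum (f := fun i => ∑ k, (|u i - u k|.toNat + 1)) (fun _ _ => Nat.zero_le _)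
          (Finset.mem_univ i))
      have e2 : (|u i - u k|.toNat : ℤ) = |u i - u k| := Int.toNat_of_nonneg (abs_nonneg _)
      have e3 : ((|u i - u k|.toNat + 1 : ℕ) : ℤ) ≤ ((∑ i, ∑ k, (|u i - u k|.toNat + 1) : ℕ) : ℤ) := by
        exact_mod_cast e1
      push_cast at e3 ⊢
      rw [e2] at e3
      linarith
    filter_upwards [eventually_ge_atTop K] with ν hν
    have hNK : K ≤ L * ((ν + (ν₀ + (kk + 3))) + 1) := by
      have : 1 * ((ν + (ν₀ + (kk + 3))) + 1) ≤ L * ((ν + (ν₀ + (kk + 3))) + 1) := Nat.mul_le_mul_right _ hL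
      omega
    have e4 := avg_tl (L * ((ν + (ν₀ + (kk + 3))) + 1)) (n := kk + 1) (cf _ (e ν) (g ν)) (cf_empty _ (e ν) (g ν) (by omega))
      (fun D => cf_small _ (e ν) (g ν) (by omega) D) (show n + 1 < kk + 1 by omega) u (fun i k hik =>
      ⟨fun h => hik (huinj h), by
        have e5 := hK i k
        have e6 : (K : ℤ) ≤ ((L * ((ν + (ν₀ + (kk + 3))) + 1) : ℕ) : ℤ) := by exact_mod_cast hNK
        have e7 : (0 : ℤ) ≤ ((L * ((ν + (ν₀ + (kk + 3))) + 1) : ℕ) : ℤ) := by positivity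
        linarith⟩) (offs y) hD
    rw [← e4, Complex.ofReal_re]
  · -- `p₋ = a`
    have hlow : ∀ a' < a, ∀ᶠ M in atTop, a' ≤ freq x ((kk : ℝ) / 2) M := by
      intro a' ha'
      refine h1 ((a + a') / 2) a' (by linarith) ?_
      have h5 := (tendsto_order.mp hqτ).1 (-((a - a') / 2)) (by linarith)
      refine h5.mono fun ν hν => ?_
      have h6 := hτa ν
      show (a + a') / 2 ≤ q ν
      linarith
    have hsubs : ∃ M : ℕ → ℕ, Tendsto M atTop atTop ∧ Tendsto (fun r => freq x ((kk : ℝ) / 2) (M r)) atTop (𝓝 a) := by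
      refine h3 (fun r => 2 ^ (4 ^ (2 * r + 1)) - 1) ?_ a ?_
      · refine tendsto_atTop_mono (fun r => ?_) tendsto_id
        have e1 : r < 4 ^ (2 * r + 1) := lt_of_lt_of_le (Nat.lt_pow_self (by norm_num))
          (Nat.pow_le_pow_right (by norm_num) (by omega : r ≤ 2 * r + 1))
        have e2 : 4 ^ (2 * r + 1) < 2 ^ (4 ^ (2 * r + 1)) := Nat.lt_pow_self (by norm_num)
        simp only [id]
        omega
      · refine run_avg (fun i => L * ((Nat.log 2 (i + 1) + (ν₀ + (kk + 3))) + 1)) (fun i => ?_) (L * (ν₀ + (kk + 4)))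
          (fun i => ?_) q τ hq0 hq2 hqτ a (fun r => 2 * r) (tendsto_atTop_mono (fun r => by
            simp only [id]; omega) tendsto_id) ?_
        · exact Nat.pos_of_ne_zero (hne _).1
        · rw [mul_assoc]
          apply Nat.mul_le_mul_left
          nlinarith
        · intro r ν hν1 hν2
          have e1 : Nat.log 4 ν = 2 * r := Nat.log_eq_of_pow_le_of_lt_pow hν1 hν2
          show (if Even (Nat.log 4 ν) then a else b) = a
          rw [e1, if_pos (even_two_mul r)]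
    obtain ⟨M, hM, hMa⟩ := hsubs
    apply le_antisymm
    · unfold pMinus
      refine le_of_forall_gt_imp_ge_of_dense fun a' ha' => ?_
      have h5 := (tendsto_order.mp hMa).2 a' ha'
      exact Filter.liminf_le_of_frequently_le (hM.frequently (h5.mono fun r hr => le_of_lt hr).frequently)
        (Filter.isBoundedUnder_of ⟨0, fun M => freq_nonneg x _ M⟩)
    · unfold pMinus
      refine le_of_forall_lt_imp_le_of_dense fun a' ha' => ?_
      exact Filter.le_liminf_of_le ⟨1, by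
        intro y hy
        obtain ⟨M, hM⟩ := (Filter.eventually_map.mp hy).exists
        exact hM.trans (freq_le_one x _ M)⟩ (hlow a' ha')
  · -- `p₊ = b`
    have hup : ∀ b' > b, ∀ᶠ M in atTop, freq x ((kk : ℝ) / 2) M ≤ b' := by
      intro b' hb'
      refine h2 ((b + b') / 2) b' (by linarith) ?_
      have h5 := (tendsto_order.mp hqτ).2 ((b' - b) / 2) (by linarith)
      refine h5.mono fun ν hν => ?_
      have h6 := hτb ν
      show q ν ≤ (b + b') / 2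
      linarith
    have hsubs : ∃ M : ℕ → ℕ, Tendsto M atTop atTop ∧ Tendsto (fun r => freq x ((kk : ℝ) / 2) (M r)) atTop (𝓝 b) := by
      refine h3 (fun r => 2 ^ (4 ^ (2 * r + 1 + 1)) - 1) ?_ b ?_
      · refine tendsto_atTop_mono (fun r => ?_) tendsto_id
        have e1 : r < 4 ^ (2 * r + 1 + 1) := lt_of_lt_of_le (Nat.lt_pow_self (by norm_num))
          (Nat.pow_le_pow_right (by norm_num) (by omega : r ≤ 2 * r + 1 + 1))
        have e2 : 4 ^ (2 * r + 1 + 1) < 2 ^ (4 ^ (2 * r + 1 + 1)) := Nat.lt_pow_self (by norm_num)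
        simp only [id]
        omega
      · refine run_avg (fun i => L * ((Nat.log 2 (i + 1) + (ν₀ + (kk + 3))) + 1)) (fun i => ?_) (L * (ν₀ + (kk + 4)))
          (fun i => ?_) q τ hq0 hq2 hqτ b (fun r => 2 * r + 1) (tendsto_atTop_mono (fun r => by
            simp only [id]; omega) tendsto_id) ?_
        · exact Nat.pos_of_ne_zero (hne _).1
        · rw [mul_assoc]
          apply Nat.mul_le_mul_left
          nlinarith
        · intro r ν hν1 hν2
          have e1 : Nat.log 4 ν = 2 * r + 1 := Nat.log_eq_of_pow_le_of_lt_pow hν1 hν2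
          show (if Even (Nat.log 4 ν) then a else b) = b
          rw [e1, if_neg (by simp)]
    obtain ⟨M, hM, hMb⟩ := hsubs
    apply le_antisymm
    · unfold pPlus
      refine le_of_forall_gt_imp_ge_of_dense fun b' hb' => ?_
      exact Filter.limsup_le_of_le ⟨0, by
        intro y hy
        obtain ⟨M, hM⟩ := (Filter.eventually_map.mp hy).exists
        exact (freq_nonneg x _ M).trans hM⟩ (hup b' hb')
    · unfold pPlus
      refine le_of_forall_lt_imp_le_of_dense fun b' hb' => ?_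
      have h5 := (tendsto_order.mp hMb).1 b' hb'
      exact Filter.le_limsup_of_frequently_le (hM.frequently (h5.mono fun r hr => le_of_lt hr).frequently)
        (Filter.isBoundedUnder_of ⟨1, fun M => freq_le_one x _ M⟩)


end Pool.Agent.KS6_79.AH
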